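import Mathlib

set_option autoImplicit false
open Complex Metric Set Filter Topology MeasureTheory
open scoped ComplexConjugate

namespace H809R3.B

/-- the point of the circle -/
noncomputable def zt (θ : ℝ) : ℂ := Complex.exp (θ * I)

lemma zt_norm (θ : ℝ) : ‖zt θ‖ = 1 := Complex.norm_exp_ofReal_mul_I θ

lemma zt_cont : Continuous zt := by unfold zt; fun_prop

lemma circleMap_eq (r θ : ℝ) : circleMap 0 r θ = (r : ℂ) * zt θ := by
  unfold zt; rw [circleMap, zero_add]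

lemma circleMap_one (θ : ℝ) : circleMap 0 1 θ = zt θ := by
  rw [circleMap_eq]; simp

/-- the interval -/
def Iv : Set ℝ := Ioc 0 (2 * Real.pi)

lemma Iv_meas : MeasurableSet Iv := measurableSet_Ioc

lemma vol_Iv : volume Iv = ENNReal.ofReal (2 * Real.pi) := by
  unfold Iv; rw [Real.volume_Ioc, sub_zero]

instance : IsFiniteMeasure (volume.restrict Iv) := by
  constructor
  rw [Measure.restrict_apply_univ, vol_Iv]
  exact ENNReal.ofReal_lt_top

lemma vol_Iv_real : (volume.restrict Iv).real univ = 2 * Real.pi := by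
  rw [Measure.real, Measure.restrict_apply_univ, vol_Iv, ENNReal.toReal_ofReal (by positivity)]

/-- the Poisson kernel -/
noncomputable def pk (w : ℂ) (θ : ℝ) : ℝ := (1 - ‖w‖ ^ 2) / ‖zt θ - w‖ ^ 2

lemma pk_eq (w : ℂ) (θ : ℝ) : pk w θ = (herglotzRieszKernel 0 w (zt θ)).re := by
  have h := congrFun (poissonKernel_eq_re_herglotzRieszKernel (c := 0) (w := w)) (zt θ)
  rw [Function.comp_apply] at h
  rw [← h, poissonKernel, sub_zero, sub_zero, zt_norm]
  unfold pk
  norm_num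

lemma zt_sub_ne {w : ℂ} (hw : ‖w‖ < 1) (θ : ℝ) : zt θ - w ≠ 0 := by
  intro h
  rw [sub_eq_zero] at h
  rw [← h, zt_norm] at hw
  exact lt_irrefl _ hw

lemma pk_nonneg {w : ℂ} (hw : ‖w‖ < 1) (θ : ℝ) : 0 ≤ pk w θ := by
  unfold pk
  apply div_nonneg
  · nlinarith [norm_nonneg w]
  · positivity

lemma pk_cont {w : ℂ} (hw : ‖w‖ < 1) : Continuous (pk w) := by
  unfold pk
  apply Continuous.div (by fun_prop)
  · have := zt_cont; fun_prop
  · intro θ
    have := norm_pos_iff.2 (zt_sub_ne hw θ)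
    positivity

lemma pk_int {w : ℂ} (hw : ‖w‖ < 1) : IntegrableOn (pk w) Iv := by
  unfold Iv
  exact ((pk_cont hw).integrableOn_Icc (a := 0) (b := 2 * Real.pi)).mono_set Ioc_subset_Icc_self

lemma pk_integral {w : ℂ} (hw : ‖w‖ < 1) : ∫ θ in Iv, pk w θ = 2 * Real.pi := by
  have h := DiffContOnCl.circleAverage_re_herglotzRieszKernel_smul (E := ℂ) (c := 0) (R := 1)
    (f := fun _ => (1 : ℂ)) (w := w) diffContOnCl_const (by simpa using hw)
  rw [Real.circleAverage_def] at h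
  simp only [circleMap_one, Pi.smul_apply', Function.comp_apply, ← pk_eq] at h
  rw [intervalIntegral.integral_of_le (by positivity)] at h
  have h2 : ∫ θ in Ioc 0 (2 * Real.pi), (pk w θ • (1:ℂ)) = ((∫ θ in Iv, pk w θ : ℝ) : ℂ) := by
    rw [← integral_complex_ofReal]
    apply integral_congr_ae
    refine Eventually.of_forall fun θ => ?_
    simp
  rw [h2] at h
  have h3 : (2 * Real.pi)⁻¹ * (∫ θ in Iv, pk w θ) = 1 := by
    have h4 : (((2 * Real.pi)⁻¹ * (∫ θ in Iv, pk w θ) : ℝ) : ℂ) = 1 := by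
      rw [← h]; push_cast; simp
    exact_mod_cast h4
  have hpi : (2 * Real.pi) ≠ 0 := by positivity
  field_simp at h3
  linarith

section pois

variable {ψ : ℂ → ℂ} (hm : Measurable ψ) (hb : ∀ z, ‖ψ z‖ ≤ 1)

/-- the Poisson integral -/
noncomputable def Ph (ψ : ℂ → ℂ) (w : ℂ) : ℂ :=
  ((2 * Real.pi)⁻¹ : ℝ) • ∫ θ in Iv, (pk w θ : ℂ) * ψ (zt θ)

noncomputable def fA (ψ : ℂ → ℂ) (w : ℂ) : ℂ :=
  (1 / 2) * Real.circleAverage (fun z => herglotzRieszKernel 0 w z • ψ z) 0 1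

include hm hb in
lemma ci : CircleIntegrable ψ 0 1 := by
  unfold CircleIntegrable
  rw [intervalIntegrable_iff_integrableOn_Ioc_of_le (by positivity)]
  refine Integrable.of_bound ?_ 1 (Eventually.of_forall fun θ => hb _)
  exact (hm.comp (by fun_prop)).aestronglyMeasurable

include hm hb in
lemma fA_diff : DifferentiableOn ℂ (fA ψ) (ball 0 1) := by
  unfold fA
  exact (differentiableOn_circleAverage_herglotzRieszKernel_smul (ci hm hb)).const_mul _

lemma herg_cont {w : ℂ} (hw : ‖w‖ < 1) : Continuous fun θ => herglotzRieszKernel 0 w (zt θ) := by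
  unfold herglotzRieszKernel
  simp only [sub_zero]
  have := zt_cont
  apply Continuous.div (by fun_prop) (by fun_prop)
  intro θ
  exact zt_sub_ne hw θ

include hm hb in
lemma meas_psi : AEStronglyMeasurable (fun θ => ψ (zt θ)) (volume.restrict Iv) :=
  (hm.comp zt_cont.measurable).aestronglyMeasurable

include hm hb in
lemma int_mul {g : ℝ → ℂ} (hg : Continuous g) : Integrable (fun θ => g θ * ψ (zt θ)) (volume.restrict Iv) := by
  have h1 : IntegrableOn g Iv :=
    (hg.integrableOn_Icc (a := 0) (b := 2 * Real.pi)).mono_set Ioc_subset_Icc_self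
  exact h1.mul_bdd (meas_psi hm hb) (Eventually.of_forall fun θ => hb _)

include hm hb in
lemma split {w : ℂ} (hw : ‖w‖ < 1) :
    fA ψ w + conj (fA (fun z => conj (ψ z)) w) = Ph ψ w := by
  have hm' : Measurable fun z => conj (ψ z) := Complex.continuous_conj.measurable.comp hm
  have hb' : ∀ z, ‖conj (ψ z)‖ ≤ 1 := fun z => by rw [RCLike.norm_conj]; exact hb z
  unfold fA Ph
  simp only [Real.circleAverage_def, circleMap_one, smul_eq_mul]
  rw [intervalIntegral.integral_of_le (by positivity), intervalIntegral.integral_of_le (by positivity)]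
  change (1 / 2 : ℂ) * ((2 * Real.pi)⁻¹ • ∫ θ in Iv, herglotzRieszKernel 0 w (zt θ) * ψ (zt θ)) +
    conj ((1 / 2 : ℂ) * ((2 * Real.pi)⁻¹ • ∫ θ in Iv, herglotzRieszKernel 0 w (zt θ) * conj (ψ (zt θ)))) = _
  rw [map_mul, Complex.real_smul, Complex.real_smul, Complex.real_smul, map_mul, ← integral_conj,
    Complex.conj_ofReal]
  have e1 : ∫ θ in Iv, (pk w θ : ℂ) * ψ (zt θ) =
      (1 / 2 : ℂ) * (∫ θ in Iv, herglotzRieszKernel 0 w (zt θ) * ψ (zt θ)) +
      (1 / 2 : ℂ) * (∫ θ in Iv, conj (herglotzRieszKernel 0 w (zt θ) * conj (ψ (zt θ)))) := by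
    rw [← integral_const_mul, ← integral_const_mul, ← integral_add]
    · apply integral_congr_ae
      refine Eventually.of_forall fun θ => ?_
      simp only [map_mul, Complex.conj_conj]
      rw [pk_eq]
      have := Complex.re_eq_add_conj (herglotzRieszKernel 0 w (zt θ))
      rw [this]
      ring
    · exact (int_mul hm hb (herg_cont hw)).const_mul _
    · apply Integrable.const_mul
      have h3 := (int_mul hm' hb' (herg_cont hw))
      exact (Complex.conjCLE.toContinuousLinearMap.integrable_comp h3)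
  rw [e1]
  have e2 : conj (1 / 2 : ℂ) = 1 / 2 := by
    rw [map_div₀, map_one, map_ofNat]
  rw [e2]
  ring

include hm hb in
lemma Ph_sub {w : ℂ} (hw : ‖w‖ < 1) (a : ℂ) :
    ‖Ph ψ w - a‖ ≤ (2 * Real.pi)⁻¹ * ∫ θ in Iv, pk w θ * ‖ψ (zt θ) - a‖ := by
  have hpi : (0:ℝ) < 2 * Real.pi := by positivity
  have hc : Continuous fun θ => (pk w θ : ℂ) := Complex.continuous_ofReal.comp (pk_cont hw)
  have e : Ph ψ w - a = ((2 * Real.pi)⁻¹ : ℝ) • ∫ θ in Iv, (pk w θ : ℂ) * (ψ (zt θ) - a) := by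
    have h1 : ∫ θ in Iv, (pk w θ : ℂ) * (ψ (zt θ) - a) =
        (∫ θ in Iv, (pk w θ : ℂ) * ψ (zt θ)) - (2 * Real.pi : ℝ) * a := by
      have h2 : ∀ θ, (pk w θ : ℂ) * (ψ (zt θ) - a) = (pk w θ : ℂ) * ψ (zt θ) - (pk w θ : ℂ) * a :=
        fun θ => by ring
      simp only [h2]
      rw [integral_sub (int_mul hm hb hc), integral_mul_const, integral_complex_ofReal, pk_integral hw]
      apply Integrable.mul_const
      exact (hc.integrableOn_Icc (a := 0) (b := 2 * Real.pi)).mono_set Ioc_subset_Icc_self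
    rw [h1]
    unfold Ph
    rw [smul_sub]
    congr 1
    rw [Complex.real_smul]
    push_cast
    have : (2 * (Real.pi : ℂ)) ≠ 0 := by
      have := hpi.ne'
      exact_mod_cast this
    field_simp
  rw [e, norm_smul, Real.norm_of_nonneg (by positivity)]
  apply mul_le_mul_of_nonneg_left _ (by positivity)
  refine (norm_integral_le_integral_norm _).trans ?_
  apply le_of_eq
  apply integral_congr_ae
  refine Eventually.of_forall fun θ => ?_
  simp only [norm_mul, Complex.norm_real, Real.norm_of_nonneg (pk_nonneg hw θ)]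

include hm hb in
lemma int_pk_norm {w : ℂ} (hw : ‖w‖ < 1) (a : ℂ) :
    Integrable (fun θ => pk w θ * ‖ψ (zt θ) - a‖) (volume.restrict Iv) := by
  refine Integrable.mul_bdd (c := 1 + ‖a‖) (pk_int hw) ?_ ?_
  · exact ((hm.comp zt_cont.measurable).sub_const a).norm.aestronglyMeasurable
  · refine Eventually.of_forall fun θ => ?_
    rw [norm_norm]
    exact (norm_sub_le _ _).trans (add_le_add (hb _) le_rfl)

include hm hb in
lemma Ph_le {w : ℂ} (hw : ‖w‖ < 1) : ‖Ph ψ w‖ ≤ 1 := by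
  have h := Ph_sub hm hb hw 0
  rw [sub_zero] at h
  refine h.trans ?_
  have h2 : ∫ θ in Iv, pk w θ * ‖ψ (zt θ) - 0‖ ≤ ∫ θ in Iv, pk w θ := by
    apply integral_mono (int_pk_norm hm hb hw 0) (pk_int hw)
    intro θ
    simp only [sub_zero]
    exact mul_le_of_le_one_right (pk_nonneg hw θ) (hb _)
  rw [pk_integral hw] at h2
  have hpi : (0:ℝ) < 2 * Real.pi := by positivity
  calc _ ≤ (2 * Real.pi)⁻¹ * (2 * Real.pi) := mul_le_mul_of_nonneg_left h2 (by positivity)
    _ = 1 := inv_mul_cancel₀ hpi.ne'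

include hm hb in
/-- radial convergence at points of continuity -/
lemma Ph_tendsto (θ₀ : ℝ) (hc : ContinuousAt ψ (zt θ₀)) :
    Tendsto (fun r : ℝ => Ph ψ ((r : ℂ) * zt θ₀)) (𝓝[<] 1) (𝓝 (ψ (zt θ₀))) := by
  have hpi : (0:ℝ) < 2 * Real.pi := by positivity
  rw [Metric.tendsto_nhds]
  intro ε hε
  obtain ⟨δ, hδ, hδ2⟩ := Metric.continuousAt_iff.1 hc (ε / 2) (by positivity)
  have hr1 : Tendsto (fun r : ℝ => r) (𝓝[<] 1) (𝓝 1) := tendsto_id.mono_left nhdsWithin_le_nhds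
  have hlim : Tendsto (fun r : ℝ => 2 * ((1 - r ^ 2) * (4 / δ ^ 2))) (𝓝[<] 1)
      (𝓝 (2 * ((1 - 1 ^ 2) * (4 / δ ^ 2)))) := by
    apply Tendsto.const_mul
    apply Tendsto.mul_const
    exact (hr1.pow 2).const_sub 1
  have h0 : 2 * ((1 - (1:ℝ) ^ 2) * (4 / δ ^ 2)) = 0 := by ring
  rw [h0] at hlim
  filter_upwards [hlim.eventually_lt_const (show 0 < ε / 2 by positivity),
    hr1.eventually_const_lt (show max 0 (1 - δ / 2) < 1 from max_lt one_pos (by linarith)),
    self_mem_nhdsWithin] with r h1 h2 h3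
  have h3' : r < 1 := h3
  have hr0 : 0 < r := (le_max_left _ _).trans_lt h2
  have hrδ : 1 - r < δ / 2 := by have := (le_max_right 0 (1 - δ / 2)).trans_lt h2; linarith
  have hwn : ‖(r : ℂ) * zt θ₀‖ = r := by
    rw [norm_mul, zt_norm, mul_one, Complex.norm_real, Real.norm_of_nonneg hr0.le]
  have hw : ‖(r : ℂ) * zt θ₀‖ < 1 := by rw [hwn]; exact h3'
  rw [dist_eq_norm]
  refine (Ph_sub hm hb hw _).trans_lt ?_
  have hpt : ∀ θ, pk ((r : ℂ) * zt θ₀) θ * ‖ψ (zt θ) - ψ (zt θ₀)‖ ≤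
      pk ((r : ℂ) * zt θ₀) θ * (ε / 2) + 2 * ((1 - r ^ 2) * (4 / δ ^ 2)) := by
    intro θ
    have hp := pk_nonneg hw θ
    have hq : 0 ≤ (1 - r ^ 2) * (4 / δ ^ 2) := mul_nonneg (by nlinarith) (by positivity)
    rcases lt_or_ge (dist (zt θ) (zt θ₀)) δ with h | h
    · have h4 := hδ2 h
      rw [dist_eq_norm] at h4
      have := mul_le_mul_of_nonneg_left h4.le hp
      linarith
    · have h4 : δ / 2 ≤ ‖zt θ - (r : ℂ) * zt θ₀‖ := by
        rw [dist_eq_norm] at h
        have h5 : ‖zt θ - zt θ₀‖ ≤ ‖zt θ - (r : ℂ) * zt θ₀‖ + ‖(r : ℂ) * zt θ₀ - zt θ₀‖ := by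
          have : zt θ - zt θ₀ = (zt θ - (r : ℂ) * zt θ₀) + ((r : ℂ) * zt θ₀ - zt θ₀) := by ring
          rw [this]; exact norm_add_le _ _
        have h6 : ‖(r : ℂ) * zt θ₀ - zt θ₀‖ = 1 - r := by
          have : (r : ℂ) * zt θ₀ - zt θ₀ = ((r - 1 : ℝ) : ℂ) * zt θ₀ := by push_cast; ring
          rw [this, norm_mul, zt_norm, mul_one, Complex.norm_real, Real.norm_eq_abs, abs_sub_comm,
            abs_of_pos (by linarith)]
        linarith
      have h5 : pk ((r : ℂ) * zt θ₀) θ ≤ (1 - r ^ 2) * (4 / δ ^ 2) := by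
        unfold pk
        rw [hwn, div_eq_mul_inv]
        apply mul_le_mul_of_nonneg_left _ (by nlinarith)
        have h7 : (δ / 2) ^ 2 ≤ ‖zt θ - (r : ℂ) * zt θ₀‖ ^ 2 := pow_le_pow_left₀ (by positivity) h4 2
        calc (‖zt θ - (r : ℂ) * zt θ₀‖ ^ 2)⁻¹ ≤ ((δ / 2) ^ 2)⁻¹ := inv_anti₀ (by positivity) h7
          _ = 4 / δ ^ 2 := by field_simp; norm_num
      have h6 : ‖ψ (zt θ) - ψ (zt θ₀)‖ ≤ 2 := by
        refine (norm_sub_le _ _).trans ?_
        have a1 := hb (zt θ); have a2 := hb (zt θ₀); linarith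
      have h7 : pk ((r : ℂ) * zt θ₀) θ * ‖ψ (zt θ) - ψ (zt θ₀)‖ ≤
          ((1 - r ^ 2) * (4 / δ ^ 2)) * 2 := mul_le_mul h5 h6 (norm_nonneg _) hq
      have h8 : 0 ≤ pk ((r : ℂ) * zt θ₀) θ * (ε / 2) := by positivity
      linarith
  have hint : ∫ θ in Iv, pk ((r : ℂ) * zt θ₀) θ * ‖ψ (zt θ) - ψ (zt θ₀)‖ ≤
      2 * Real.pi * (ε / 2) + 2 * Real.pi * (2 * ((1 - r ^ 2) * (4 / δ ^ 2))) := by
    have h4 : ∫ θ in Iv, pk ((r : ℂ) * zt θ₀) θ * ‖ψ (zt θ) - ψ (zt θ₀)‖ ≤
        ∫ θ in Iv, (pk ((r : ℂ) * zt θ₀) θ * (ε / 2) + 2 * ((1 - r ^ 2) * (4 / δ ^ 2))) := by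
      apply integral_mono (int_pk_norm hm hb hw _)
      · exact ((pk_int hw).mul_const _).add (integrable_const _)
      · exact hpt
    rw [integral_add ((pk_int hw).mul_const _) (integrable_const _), integral_mul_const,
      pk_integral hw, integral_const, vol_Iv_real, smul_eq_mul] at h4
    exact h4
  calc (2 * Real.pi)⁻¹ * ∫ θ in Iv, pk ((r : ℂ) * zt θ₀) θ * ‖ψ (zt θ) - ψ (zt θ₀)‖
      ≤ (2 * Real.pi)⁻¹ * (2 * Real.pi * (ε / 2) + 2 * Real.pi * (2 * ((1 - r ^ 2) * (4 / δ ^ 2)))) :=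
        mul_le_mul_of_nonneg_left hint (by positivity)
    _ = ε / 2 + 2 * ((1 - r ^ 2) * (4 / δ ^ 2)) := by field_simp
    _ < ε := by linarith

end pois

end H809R3.B
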