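import Pool.Agent.H809R3.B1

set_option autoImplicit false
open Complex Metric Set Filter Topology MeasureTheory
open scoped ComplexConjugate

namespace H809R3.B

noncomputable def u (z : ℂ) : ℂ := (1 + z) / (1 - z)

lemma u_re (z : ℂ) : (u z).re = (1 - ‖z‖ ^ 2) / ‖1 - z‖ ^ 2 := by
  unfold u
  rw [Complex.div_re, ← add_div, Complex.normSq_eq_norm_sq]
  congr 1
  rw [← Complex.normSq_eq_norm_sq, Complex.normSq_apply]
  simp
  ring

lemma u_re_nonneg {z : ℂ} (hz : ‖z‖ ≤ 1) : 0 ≤ (u z).re := by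
  rw [u_re]
  apply div_nonneg _ (by positivity)
  nlinarith [norm_nonneg z]

lemma u_circle (θ : ℝ) : u (zt θ) = ((u (zt θ)).im : ℂ) * I := by
  apply Complex.ext
  · rw [u_re, zt_norm]; simp
  · simp

lemma u_cont {z : ℂ} (hz : z ≠ 1) : ContinuousAt u z := by
  unfold u
  apply ContinuousAt.div (by fun_prop) (by fun_prop)
  rw [sub_ne_zero]; exact hz.symm

lemma u_diff {z : ℂ} (hz : z ≠ 1) : DifferentiableAt ℂ u z := by
  unfold u
  apply DifferentiableAt.div (by fun_prop) (by fun_prop)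
  rw [sub_ne_zero]; exact hz.symm

noncomputable def c (θ : ℝ) : ℝ := (u (zt θ)).im

/-- square of `c` -/
lemma c_sq {θ : ℝ} (h : zt θ ≠ 1) : c θ ^ 2 * (1 - (zt θ).re) = 1 + (zt θ).re := by
  have h1 : ‖u (zt θ)‖ ^ 2 = c θ ^ 2 := by
    rw [u_circle]
    rw [norm_mul, Complex.norm_I, mul_one, Complex.norm_real, Real.norm_eq_abs, sq_abs]
    unfold c; rfl
  have h2 : ‖u (zt θ)‖ ^ 2 * ‖1 - zt θ‖ ^ 2 = ‖1 + zt θ‖ ^ 2 := by
    rw [← mul_pow]
    congr 1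
    unfold u
    rw [← norm_mul, div_mul_cancel₀]
    rw [sub_ne_zero]; exact h.symm
  have h3 : (zt θ).re ^ 2 + (zt θ).im ^ 2 = 1 := by
    have := Complex.sq_norm (zt θ)
    rw [zt_norm, Complex.normSq_apply] at this
    linarith
  have h4 : ‖1 - zt θ‖ ^ 2 = 2 * (1 - (zt θ).re) := by
    rw [Complex.sq_norm, Complex.normSq_apply]
    simp only [sub_re, one_re, sub_im, one_im]
    nlinarith
  have h5 : ‖1 + zt θ‖ ^ 2 = 2 * (1 + (zt θ).re) := by
    rw [Complex.sq_norm, Complex.normSq_apply]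
    simp only [add_re, one_re, add_im, one_im]
    nlinarith
  rw [h1, h4, h5] at h2
  linarith

lemma re_lt_one {θ : ℝ} (h : zt θ ≠ 1) : (zt θ).re < 1 := by
  have h1 : (zt θ).re ≤ 1 := (Complex.re_le_norm _).trans_eq (zt_norm θ)
  refine lt_of_le_of_ne h1 ?_
  intro h2
  apply h
  have h3 : (zt θ).re ^ 2 + (zt θ).im ^ 2 = 1 := by
    have := Complex.sq_norm (zt θ)
    rw [zt_norm, Complex.normSq_apply] at this
    linarith
  rw [h2] at h3
  apply Complex.ext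
  · simpa using h2
  · have : (zt θ).im ^ 2 = 0 := by linarith
    simpa using this

lemma re_pos_of_c {θ : ℝ} (h : zt θ ≠ 1) (hc : 1 < c θ ^ 2) : 0 < (zt θ).re := by
  have h1 := c_sq h
  have h2 := re_lt_one h
  nlinarith

lemma c_sq_le {θ : ℝ} (h : zt θ ≠ 1) (hc : (zt θ).re ≤ 0) : c θ ^ 2 ≤ 1 := by
  by_contra hcon
  push Not at hcon
  have := re_pos_of_c h hcon
  linarith

/-- the boundary function -/
noncomputable def psi (z : ℂ) : ℂ :=
  if 0 < z.re ∧ z ≠ 1 then Complex.exp (-((u z).im : ℂ) * I) else 0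

lemma psi_meas : Measurable psi := by
  unfold psi
  apply Measurable.ite
  · apply MeasurableSet.inter
    · exact measurableSet_lt measurable_const Complex.measurable_re
    · exact (measurableSet_singleton (1:ℂ)).compl
  · have : Measurable u := by unfold u; fun_prop
    fun_prop
  · exact measurable_const

lemma psi_norm_one {z : ℂ} (h1 : 0 < z.re) (h2 : z ≠ 1) : ‖psi z‖ = 1 := by
  unfold psi
  rw [if_pos ⟨h1, h2⟩, ← Complex.ofReal_neg, Complex.norm_exp_ofReal_mul_I]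

lemma psi_le (z : ℂ) : ‖psi z‖ ≤ 1 := by
  by_cases h : 0 < z.re ∧ z ≠ 1
  · exact (psi_norm_one h.1 h.2).le
  · unfold psi
    rw [if_neg h]; simp

lemma psi_cont_pos {z : ℂ} (h1 : 0 < z.re) (h2 : z ≠ 1) : ContinuousAt psi z := by
  have hO : IsOpen {w : ℂ | 0 < w.re ∧ w ≠ 1} :=
    (isOpen_lt continuous_const Complex.continuous_re).inter isOpen_ne
  have hopen : {w : ℂ | 0 < w.re ∧ w ≠ 1} ∈ 𝓝 z := hO.mem_nhds ⟨h1, h2⟩
  have hc : ContinuousAt (fun z => Complex.exp (-((u z).im : ℂ) * I)) z := by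
    have := u_cont h2
    have h3 : ContinuousAt (fun z => (u z).im) z := Complex.continuous_im.continuousAt.comp this
    have h4 : ContinuousAt (fun z => (((u z).im : ℝ) : ℂ)) z :=
      Complex.continuous_ofReal.continuousAt.comp h3
    exact ((h4.neg).mul_const I).cexp
  refine hc.congr ?_
  filter_upwards [hopen] with w hw
  unfold psi
  rw [if_pos hw]

lemma psi_cont_neg {z : ℂ} (h1 : z.re < 0) : ContinuousAt psi z := by
  have hO : IsOpen {w : ℂ | w.re < 0} := isOpen_lt Complex.continuous_re continuous_const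
  have hopen : {w : ℂ | w.re < 0} ∈ 𝓝 z := hO.mem_nhds h1
  refine (continuousAt_const (y := (0:ℂ))).congr ?_
  filter_upwards [hopen] with w hw
  unfold psi
  rw [if_neg]
  rintro ⟨h, -⟩
  have : w.re < 0 := hw
  linarith

/-! ### test functions -/

noncomputable def En (n : ℕ) (z : ℂ) : ℂ :=
  (-((n : ℂ) ^ 2) * (Complex.exp (-(u z) / n) - 1) ^ 2) ^ n

noncomputable def Hn (n : ℕ) (θ : ℝ) : ℝ := (4 * (n : ℝ) ^ 2 * Real.sin (c θ / (2 * n)) ^ 2) ^ n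

lemma Hn_nonneg (n : ℕ) (θ : ℝ) : 0 ≤ Hn n θ := by unfold Hn; positivity

lemma Hn_le (n : ℕ) (θ : ℝ) : Hn n θ ≤ (4 * (n : ℝ) ^ 2) ^ n := by
  unfold Hn
  apply pow_le_pow_left₀ (by positivity)
  have := Real.sin_sq_le_one (c θ / (2 * n))
  have h2 : (0:ℝ) ≤ 4 * (n:ℝ) ^ 2 := by positivity
  nlinarith

lemma En_circle (n : ℕ) (hn : n ≠ 0) (θ : ℝ) :
    En n (zt θ) = (Hn n θ : ℂ) * Complex.exp (-(c θ : ℂ) * I) := by
  have hn' : (n : ℂ) ≠ 0 := by exact_mod_cast hn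
  unfold En Hn
  rw [u_circle]
  change (-((n : ℂ) ^ 2) * (Complex.exp (-((c θ : ℂ) * I) / n) - 1) ^ 2) ^ n = _
  have e1 : Complex.exp (-(c θ : ℂ) * I) = (Complex.exp (-((c θ : ℂ) * I) / n)) ^ n := by
    rw [← Complex.exp_nat_mul]
    congr 1
    field_simp
  rw [e1]
  push_cast
  rw [← mul_pow]
  congr 1
  set y : ℂ := (c θ : ℂ) / (2 * n) with hy
  have e2 : -((c θ : ℂ) * I) / n = -(2 * y) * I := by
    rw [hy]; field_simp
  rw [e2]
  have e3 : Complex.sin y = (Complex.exp (-y * I) - Complex.exp (y * I)) * I / 2 := by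
    rw [Complex.sin]
  rw [e3]
  have e4 : Complex.exp (-(2 * y) * I) = Complex.exp (-y * I) * Complex.exp (-y * I) := by
    rw [← Complex.exp_add]; congr 1; ring
  have e5 : Complex.exp (-y * I) * Complex.exp (y * I) = 1 := by
    rw [← Complex.exp_add]
    have : -y * I + y * I = 0 := by ring
    rw [this, Complex.exp_zero]
  rw [e4]
  set a := Complex.exp (-y * I)
  set b := Complex.exp (y * I)
  have hI : I ^ 2 = -1 := I_sq
  linear_combination (-(n:ℂ) ^ 2 * (a - b) ^ 2 * a * a) * hI +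
    (-(n:ℂ) ^ 2 * (2 * a * a - a * b - 1)) * e5

lemma En_bound (n : ℕ) {z : ℂ} (hz : ‖z‖ ≤ 1) : ‖En n z‖ ≤ (4 * (n : ℝ) ^ 2) ^ n := by
  unfold En
  rw [norm_pow]
  apply pow_le_pow_left₀ (norm_nonneg _)
  rw [norm_mul, norm_neg, norm_pow, norm_pow, Complex.norm_natCast]
  have h1 : ‖Complex.exp (-(u z) / n)‖ ≤ 1 := by
    rw [Complex.norm_exp]
    rw [← Real.exp_zero]
    apply Real.exp_le_exp.2
    rcases Nat.eq_zero_or_pos n with rfl | hn
    · simp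
    · have e : (-(u z) / (n:ℂ)).re = -(u z).re / n := by
        have : (-(u z) / (n:ℂ)) = -(u z) / ((n:ℝ):ℂ) := by simp
        rw [this, Complex.div_ofReal_re, neg_re]
      rw [e]
      have := u_re_nonneg hz
      apply div_nonpos_of_nonpos_of_nonneg (by linarith) (Nat.cast_nonneg n)
  have h2 : ‖Complex.exp (-(u z) / n) - 1‖ ≤ 2 := by
    refine (norm_sub_le _ _).trans ?_
    rw [norm_one]; linarith
  have h3 : ‖Complex.exp (-(u z) / n) - 1‖ ^ 2 ≤ 2 ^ 2 := pow_le_pow_left₀ (norm_nonneg _) h2 2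
  have h4 : (0:ℝ) ≤ (n:ℝ) ^ 2 := by positivity
  nlinarith

lemma En_zero (n : ℕ) (hn : n ≠ 0) : ‖En n 0‖ ≤ 1 := by
  unfold En
  rw [norm_pow]
  apply pow_le_one₀ (norm_nonneg _)
  rw [norm_mul, norm_neg, norm_pow, norm_pow, Complex.norm_natCast, ← mul_pow]
  apply pow_le_one₀ (by positivity)
  have hn0 : (0:ℝ) < n := by exact_mod_cast Nat.pos_of_ne_zero hn
  have e : Complex.exp (-(u 0) / n) - 1 = ((Real.exp (-(1 / n)) - 1 : ℝ) : ℂ) := by
    unfold u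
    push_cast
    congr 2
    simp
    ring
  rw [e, Complex.norm_real, Real.norm_eq_abs, abs_of_nonpos]
  · have h1 := Real.add_one_le_exp (-(1 / (n:ℝ)))
    have h2 : -(Real.exp (-(1 / (n:ℝ))) - 1) ≤ 1 / n := by linarith
    calc (n:ℝ) * -(Real.exp (-(1 / (n:ℝ))) - 1) ≤ n * (1 / n) := mul_le_mul_of_nonneg_left h2 hn0.le
      _ = 1 := by field_simp
  · have h3 : -(1 / (n:ℝ)) ≤ 0 := by
      have : 0 ≤ 1 / (n:ℝ) := by positivity
      linarith
    have h4 := Real.exp_le_exp.2 h3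
    rw [Real.exp_zero] at h4
    linarith

lemma En_diff (n : ℕ) {z : ℂ} (hz : z ≠ 1) : DifferentiableAt ℂ (En n) z := by
  unfold En
  have := u_diff hz
  fun_prop

lemma Hn_small (n : ℕ) (θ : ℝ) (hn : n ≠ 0) (h : c θ ^ 2 ≤ 1) : Hn n θ ≤ 1 := by
  unfold Hn
  apply pow_le_one₀ (by positivity)
  have hn0 : (0:ℝ) < n := by exact_mod_cast Nat.pos_of_ne_zero hn
  have h1 := Real.sin_sq_le_sq (x := c θ / (2 * n))
  have h2 : 4 * (n:ℝ) ^ 2 * Real.sin (c θ / (2 * n)) ^ 2 ≤ 4 * (n:ℝ) ^ 2 * (c θ / (2 * n)) ^ 2 :=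
    mul_le_mul_of_nonneg_left h1 (by positivity)
  have h3 : 4 * (n:ℝ) ^ 2 * (c θ / (2 * n)) ^ 2 = c θ ^ 2 := by field_simp; ring
  linarith

lemma Hn_large (n : ℕ) (θ : ℝ) (hn : 2 ≤ n) (h1 : 2 < c θ) (h2 : c θ < 3) :
    (4:ℝ) ^ n / 4 ≤ Hn n θ := by
  unfold Hn
  have hn0 : (2:ℝ) ≤ n := by exact_mod_cast hn
  set y := c θ / (2 * n) with hy
  have hy0 : 0 < y := by rw [hy]; positivity
  have hcy : c θ = 2 * n * y := by rw [hy]; field_simp
  have hy1 : y ≤ 3 / 4 := by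
    rw [hy, div_le_iff₀ (by positivity)]
    nlinarith
  have hs1 := Real.sin_gt_sub_cube hy0
  have hs : y - y ^ 3 / 4 < Real.sin y := by
    have : 0 < y ^ 3 := by positivity
    linarith
  have hs0 : 0 ≤ y - y ^ 3 / 4 := by nlinarith [mul_pos hy0 hy0, mul_pos (mul_pos hy0 hy0) hy0]
  have hs2 : (y - y ^ 3 / 4) ^ 2 ≤ Real.sin y ^ 2 := pow_le_pow_left₀ hs0 hs.le 2
  -- 4 n² sin² y ≥ c² (1 - y²/4)² ≥ 4 (1 - y²/2)
  have hA : 4 * (1 - y ^ 2 / 2) ≤ 4 * (n:ℝ) ^ 2 * Real.sin y ^ 2 := by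
    have e1 : 4 * (n:ℝ) ^ 2 * (y - y ^ 3 / 4) ^ 2 = c θ ^ 2 * (1 - y ^ 2 / 4) ^ 2 := by
      rw [hcy]; ring
    have e2 : 4 * (n:ℝ) ^ 2 * (y - y ^ 3 / 4) ^ 2 ≤ 4 * (n:ℝ) ^ 2 * Real.sin y ^ 2 :=
      mul_le_mul_of_nonneg_left hs2 (by positivity)
    have e3 : 1 - y ^ 2 / 2 ≤ (1 - y ^ 2 / 4) ^ 2 := by nlinarith [sq_nonneg (y ^ 2)]
    have e4 : 4 ≤ c θ ^ 2 := by nlinarith
    have e5 : 0 ≤ (1 - y ^ 2 / 4) ^ 2 := by positivity
    nlinarith
  have hB : 0 ≤ 4 * (1 - y ^ 2 / 2) := by nlinarith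
  have hC : (4 * (1 - y ^ 2 / 2)) ^ n ≤ (4 * (n:ℝ) ^ 2 * Real.sin y ^ 2) ^ n :=
    pow_le_pow_left₀ hB hA n
  refine le_trans ?_ hC
  rw [mul_pow]
  have hD : (1 : ℝ) + n * (-(y ^ 2 / 2)) ≤ (1 + -(y ^ 2 / 2)) ^ n := by
    apply one_add_mul_le_pow
    nlinarith
  have hE : (1:ℝ) / 4 ≤ 1 + n * (-(y ^ 2 / 2)) := by
    -- n y²/2 ≤ 9/(8 n) ≤ 9/16
    have e1 : n * (y ^ 2 / 2) ≤ 9 / 16 := by
      have e2 : n * y = c θ / 2 := by rw [hcy]; ring
      have e3 : n * (y ^ 2 / 2) = (n * y) * y / 2 := by ring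
      rw [e3, e2]
      have : c θ / 2 * y ≤ 3 / 2 * (3 / 4) := mul_le_mul (by linarith) hy1 hy0.le (by norm_num)
      linarith
    linarith
  have hF : (1:ℝ) / 4 ≤ (1 - y ^ 2 / 2) ^ n := by
    have : (1 - y ^ 2 / 2) = (1 + -(y ^ 2 / 2)) := by ring
    rw [this]; linarith
  have h4 : (0:ℝ) < 4 ^ n := by positivity
  nlinarith

end H809R3.B
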