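import Mathlib

set_option autoImplicit false
open Complex Metric Set Filter Topology MeasureTheory
open scoped ComplexConjugate

namespace H809R3.T

/-- at a regular point the continuation is unimodular -/
theorem unimod (Θ : ℂ → ℂ)
    (hrad : ∀ᵐ θ : ℝ, ∃ w : ℂ, ‖w‖ = 1 ∧
      Tendsto (fun r : ℝ => Θ ((r : ℂ) * Complex.exp ((θ : ℂ) * I))) (𝓝[<] 1) (𝓝 w))
    (θ₀ r : ℝ) (hr : 0 < r) (g : ℂ → ℂ)
    (hg : DifferentiableOn ℂ g (ball (Complex.exp (θ₀ * I)) r))
    (hgΘ : EqOn g Θ (ball (Complex.exp (θ₀ * I)) r ∩ ball 0 1)) :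
    ‖g (Complex.exp (θ₀ * I))‖ = 1 := by
  by_contra hcon
  have hdense := Measure.dense_of_ae hrad
  set φ : ℝ → ℂ := fun θ => Complex.exp ((θ : ℂ) * I) with hφ
  have hφc : Continuous φ := by fun_prop
  have hgc : ContinuousAt g (φ θ₀) :=
    (hg.differentiableAt (isOpen_ball.mem_nhds (mem_ball_self hr))).continuousAt
  have hc : ContinuousAt (fun θ => ‖g (φ θ)‖) θ₀ :=
    (hgc.comp (f := φ) hφc.continuousAt).norm
  have h1 : ∀ᶠ θ in 𝓝 θ₀, ‖g (φ θ)‖ ≠ 1 := hc.eventually_ne hcon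
  have h2 : ∀ᶠ θ in 𝓝 θ₀, φ θ ∈ ball (φ θ₀) r :=
    hφc.continuousAt (isOpen_ball.mem_nhds (mem_ball_self hr))
  obtain ⟨U, hU, hUo, hUm⟩ := _root_.eventually_nhds_iff.1 (h1.and h2)
  obtain ⟨θ, hθU, w, hw1, hw2⟩ := hdense.inter_open_nonempty U hUo ⟨θ₀, hUm⟩
  obtain ⟨h3, h4⟩ := hU θ hθU
  apply h3
  have h5 : Tendsto (fun t : ℝ => (t : ℂ) * φ θ) (𝓝[<] 1) (𝓝 (φ θ)) := by
    have h6 : Tendsto (fun t : ℝ => (t : ℂ) * φ θ) (𝓝 1) (𝓝 (((1:ℝ):ℂ) * φ θ)) := by
      apply Continuous.tendsto; fun_prop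
    simp only [Complex.ofReal_one, one_mul] at h6
    exact h6.mono_left nhdsWithin_le_nhds
  have hgc2 : ContinuousAt g (φ θ) := (hg.differentiableAt (isOpen_ball.mem_nhds h4)).continuousAt
  have h7 := hgc2.tendsto.comp h5
  have h8 : w = g (φ θ) := by
    refine tendsto_nhds_unique_of_eventuallyEq hw2 h7 ?_
    have h9 : ∀ᶠ t : ℝ in 𝓝[<] 1, (t : ℂ) * φ θ ∈ ball (φ θ₀) r := h5 (isOpen_ball.mem_nhds h4)
    have h10 : ∀ᶠ t : ℝ in 𝓝[<] 1, 0 < t :=
      (tendsto_id.mono_left nhdsWithin_le_nhds : Tendsto (fun t : ℝ => t) (𝓝[<] 1) (𝓝 1)).eventually_const_lt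
        (by norm_num)
    filter_upwards [h9, h10, self_mem_nhdsWithin] with t h11 h12 h13
    have h13' : t < 1 := h13
    simp only [Function.comp]
    rw [hgΘ ⟨h11, ?_⟩]
    rw [mem_ball_zero_iff, norm_mul, Complex.norm_exp_ofReal_mul_I, mul_one, Complex.norm_real,
      Real.norm_of_nonneg h12.le]
    exact h13'
  rw [← h8]; exact hw1

theorem jensen_lower (f : ℂ → ℂ) (hfd : DifferentiableOn ℂ f (ball 0 1)) :
    ∃ K : ℝ, ∀ r : ℝ, 1 / 2 < r → r < 1 → K ≤ Real.circleAverage (Real.log ‖f ·‖) 0 r := by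
  refine ⟨((meromorphicOrderAt f 0).untop₀ : ℝ) * Real.log (1 / 2) +
    Real.log ‖meromorphicTrailingCoeffAt f 0‖, ?_⟩
  intro r hr1 hr2
  have hr0 : 0 < r := by linarith
  have hsub : closedBall (0 : ℂ) |r| ⊆ ball 0 1 := by
    rw [abs_of_pos hr0]; exact closedBall_subset_ball hr2
  have han : AnalyticOnNhd ℂ f (closedBall 0 |r|) := by
    have := hfd.analyticOnNhd isOpen_ball
    exact this.mono hsub
  rw [han.meromorphicOn.circleAverage_log_norm hr0.ne']
  have h1 : 0 ≤ ∑ᶠ u, (MeromorphicOn.divisor f (closedBall 0 |r|) u : ℝ) *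
      Real.log (r * ‖(0 : ℂ) - u‖⁻¹) := by
    apply finsum_nonneg
    intro u
    by_cases hu : u ∈ closedBall (0 : ℂ) |r|
    · apply mul_nonneg (mod_cast MeromorphicOn.AnalyticOnNhd.divisor_nonneg han u)
      rcases eq_or_ne u 0 with rfl | hu0
      · simp
      · apply Real.log_nonneg
        rw [zero_sub, norm_neg]
        rw [← div_eq_mul_inv, le_div_iff₀ (norm_pos_iff.2 hu0), one_mul]
        rw [mem_closedBall_zero_iff, abs_of_pos hr0] at hu
        exact hu
    · rw [Function.locallyFinsuppWithin.apply_eq_zero_of_notMem _ hu]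
      simp
  have h2 : MeromorphicOn.divisor f (closedBall 0 |r|) 0 = (meromorphicOrderAt f 0).untop₀ :=
    MeromorphicOn.divisor_apply han.meromorphicOn (by simp)
  have h3 : (0 : ℝ) ≤ ((meromorphicOrderAt f 0).untop₀ : ℝ) := by
    rw [← h2]
    exact mod_cast MeromorphicOn.AnalyticOnNhd.divisor_nonneg han 0
  rw [h2]
  have h4 : Real.log (1 / 2) ≤ Real.log r := Real.log_le_log (by norm_num) hr1.le
  have h5 := mul_le_mul_of_nonneg_left h4 h3
  linarith

theorem null_zero_aux (f : ℂ → ℂ) (hfd : DifferentiableOn ℂ f (ball 0 1))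
    (hfc : ContinuousOn f (closedBall 0 1)) (hne : ∃ z ∈ ball (0 : ℂ) 1, f z ≠ 0) :
    volume ({θ : ℝ | f (Complex.exp (θ * I)) = 0} ∩ Ioc 0 (2 * Real.pi)) = 0 := by
  by_contra hcon
  set E' := {θ : ℝ | f (Complex.exp (θ * I)) = 0} ∩ Ioc 0 (2 * Real.pi) with hE'
  have hφ : Continuous fun θ : ℝ => f (Complex.exp (θ * I)) := by
    rw [← continuousOn_univ]
    apply hfc.comp (by fun_prop)
    intro θ _
    rw [mem_closedBall_zero_iff, Complex.norm_exp_ofReal_mul_I]
  have hEm : MeasurableSet E' :=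
    (isClosed_eq hφ continuous_const).measurableSet.inter measurableSet_Ioc
  have hfin : volume E' ≠ ⊤ :=
    ne_top_of_le_ne_top (by rw [Real.volume_Ioc]; exact ENNReal.ofReal_ne_top) (measure_mono inter_subset_right : volume E' ≤ volume (Ioc 0 (2 * Real.pi)))
  set m : ℝ := (volume E').toReal with hm
  have hm0 : 0 < m := ENNReal.toReal_pos hcon hfin
  obtain ⟨K, hK⟩ := jensen_lower f hfd
  -- bound of f
  obtain ⟨M₀, hM₀⟩ := (isCompact_closedBall (0:ℂ) 1).exists_bound_of_continuousOn hfc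
  set M := max M₀ 1 with hMdef
  have hM1 : 1 ≤ M := le_max_right _ _
  have hM : ∀ z ∈ closedBall (0:ℂ) 1, ‖f z‖ ≤ M := fun z hz => (hM₀ z hz).trans (le_max_left _ _)
  have hlogM : 0 ≤ Real.log M := Real.log_nonneg hM1
  -- choose η
  obtain ⟨A, hA⟩ : ∃ A : ℝ, A = 2 * Real.pi * (|K| + Real.log M + 1) / m := ⟨_, rfl⟩
  have hA0 : 0 < A := by rw [hA]; positivity
  set η := Real.exp (-A) with hη
  have hη0 : 0 < η := Real.exp_pos _
  -- uniform continuity
  have huc : UniformContinuousOn f (closedBall 0 1) :=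
    (isCompact_closedBall (0:ℂ) 1).uniformContinuousOn_of_continuous hfc
  rw [Metric.uniformContinuousOn_iff] at huc
  obtain ⟨δ, hδ, hδ2⟩ := huc η hη0
  obtain ⟨r, hr1, hr2, hr3⟩ : ∃ r : ℝ, 1 / 2 < r ∧ r < 1 ∧ 1 - r < δ := by
    refine ⟨max (3 / 4) (1 - δ / 2), ?_, ?_, ?_⟩
    · exact lt_of_lt_of_le (by norm_num) (le_max_left _ _)
    · exact max_lt (by norm_num) (by linarith)
    · have := le_max_right (3 / 4) (1 - δ / 2)
      linarith
  have hr0 : 0 < r := by linarith
  have hcm : ∀ θ, circleMap 0 r θ ∈ closedBall (0:ℂ) 1 := by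
    intro θ
    rw [mem_closedBall_zero_iff, norm_circleMap_zero, abs_of_pos hr0]; exact hr2.le
  have hclose : ∀ θ : ℝ, ‖f (circleMap 0 r θ) - f (Complex.exp (θ * I))‖ < η := by
    intro θ
    rw [← dist_eq_norm]
    apply hδ2 _ (hcm θ)
    · rw [mem_closedBall_zero_iff, Complex.norm_exp_ofReal_mul_I]
    · rw [dist_eq_norm, circleMap, zero_add]
      have : (r : ℂ) * Complex.exp (θ * I) - Complex.exp (θ * I) = ((r - 1 : ℝ) : ℂ) * Complex.exp (θ * I) := by
        push_cast; ring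
      rw [this, norm_mul, Complex.norm_exp_ofReal_mul_I, mul_one, Complex.norm_real,
        Real.norm_eq_abs, abs_sub_comm, abs_of_pos (by linarith)]
      exact hr3
  -- finitely many zeros on the circle
  have hpre : IsPreconnected (ball (0:ℂ) 1) := (convex_ball (0:ℂ) 1).isPreconnected
  have hfa := hfd.analyticOnNhd isOpen_ball
  have hfinite : ({z ∈ sphere (0:ℂ) r | f z = 0}).Finite := by
    by_contra hinf
    obtain ⟨z₀, hz₀, hacc⟩ := Set.Infinite.exists_accPt_of_subset_isCompact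
      (show Set.Infinite _ from hinf) (isCompact_sphere (0:ℂ) r) (sep_subset _ _)
    have hz₀b : z₀ ∈ ball (0:ℂ) 1 := by
      rw [mem_sphere_zero_iff_norm] at hz₀
      rw [mem_ball_zero_iff, hz₀]; exact hr2
    have hfreq : ∃ᶠ z in 𝓝[≠] z₀, f z = 0 := by
      have := accPt_iff_frequently_nhdsNE.1 hacc
      exact this.mono fun z hz => hz.2
    have hzero := hfa.eqOn_zero_of_preconnected_of_frequently_eq_zero hpre hz₀b hfreq
    obtain ⟨z, hz, hz2⟩ := hne
    exact hz2 (hzero hz)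
  have hae : ∀ᵐ θ : ℝ, f (circleMap 0 r θ) ≠ 0 := by
    have h1 := (hfinite.countable.preimage_circleMap 0 hr0.ne').measure_zero volume
    have h2 := measure_eq_zero_iff_ae_notMem.1 h1
    filter_upwards [h2] with θ hθ h3
    apply hθ
    refine ⟨?_, h3⟩
    rw [mem_sphere_zero_iff_norm, norm_circleMap_zero, abs_of_pos hr0]
  have hKr := hK r hr1 hr2
  rw [Real.circleAverage_def, smul_eq_mul] at hKr
  have hmero : MeromorphicOn f (sphere 0 |r|) := by
    intro z hz
    have : z ∈ ball (0:ℂ) 1 := by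
      rw [mem_sphere_zero_iff_norm, abs_of_pos hr0] at hz
      rw [mem_ball_zero_iff, hz]; exact hr2
    exact (hfa z this).meromorphicAt
  have hint := hmero.circleIntegrable_log_norm
  have hpi : (0:ℝ) ≤ 2 * Real.pi := by positivity
  unfold CircleIntegrable at hint
  rw [intervalIntegrable_iff_integrableOn_Ioc_of_le hpi] at hint
  rw [intervalIntegral.integral_of_le hpi] at hKr
  have hub : ∫ θ in Ioc 0 (2 * Real.pi), Real.log ‖f (circleMap 0 r θ)‖ ≤
      ∫ θ in Ioc 0 (2 * Real.pi), (E'.indicator (fun _ => Real.log η) θ + Real.log M) := by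
    apply integral_mono_ae hint
    · apply Integrable.add
      · exact (integrable_const (Real.log η)).indicator hEm
      · exact integrable_const _
    · apply ae_restrict_of_ae
      filter_upwards [hae] with θ hθ
      have hpos : 0 < ‖f (circleMap 0 r θ)‖ := norm_pos_iff.2 hθ
      by_cases hmem : θ ∈ E'
      · rw [indicator_of_mem hmem]
        have h1 := hclose θ
        have h2 : f (Complex.exp (θ * I)) = 0 := hmem.1
        rw [h2, sub_zero] at h1
        have := Real.log_le_log hpos h1.le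
        linarith
      · rw [indicator_of_notMem hmem, zero_add]
        exact Real.log_le_log hpos (hM _ (hcm θ))
  have hval : ∫ θ in Ioc 0 (2 * Real.pi), (E'.indicator (fun _ => Real.log η) θ + Real.log M) =
      m * Real.log η + 2 * Real.pi * Real.log M := by
    rw [integral_add ((integrable_const (Real.log η)).indicator hEm) (integrable_const _),
      integral_indicator hEm, Measure.restrict_restrict hEm]
    have h1 : E' ∩ Ioc 0 (2 * Real.pi) = E' := inter_eq_left.2 inter_subset_right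
    rw [h1, setIntegral_const, setIntegral_const]
    simp only [Measure.real, smul_eq_mul, Real.volume_Ioc, sub_zero]
    rw [ENNReal.toReal_ofReal hpi]
  rw [hval, hη, Real.log_exp] at hub
  have h1 : K * (2 * Real.pi) ≤ m * -A + 2 * Real.pi * Real.log M := by
    have h2 : (2 * Real.pi)⁻¹ * ∫ θ in Ioc 0 (2 * Real.pi), Real.log ‖f (circleMap 0 r θ)‖ ≤
        (2 * Real.pi)⁻¹ * (m * -A + 2 * Real.pi * Real.log M) :=
      mul_le_mul_of_nonneg_left hub (by positivity)
    have h3 := hKr.trans h2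
    rw [inv_mul_eq_div, le_div_iff₀ (by positivity)] at h3
    exact h3
  have h2 : m * A = 2 * Real.pi * (|K| + Real.log M + 1) := by
    rw [hA]; field_simp
  have h3 : -|K| ≤ K := neg_abs_le K
  have h4 : (0:ℝ) < 2 * Real.pi := by positivity
  nlinarith

theorem null_zero (f : ℂ → ℂ) (hfd : DifferentiableOn ℂ f (ball 0 1))
    (hfc : ContinuousOn f (closedBall 0 1)) (hne : ∃ z ∈ ball (0 : ℂ) 1, f z ≠ 0) :
    volume {θ : ℝ | f (Complex.exp (θ * I)) = 0} = 0 := by
  set E := {θ : ℝ | f (Complex.exp (θ * I)) = 0} with hE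
  have h0 := null_zero_aux f hfd hfc hne
  have hpi : (0:ℝ) < 2 * Real.pi := by positivity
  have h1 : E = ⋃ n : ℤ, E ∩ Ioc (n • (2 * Real.pi)) ((n + 1) • (2 * Real.pi)) := by
    rw [← inter_iUnion, iUnion_Ioc_zsmul hpi, inter_univ]
  rw [h1, measure_iUnion_null_iff]
  intro n
  have h2 : E ∩ Ioc (n • (2 * Real.pi)) ((n + 1) • (2 * Real.pi)) =
      (fun x => x + (-(n • (2 * Real.pi)))) ⁻¹' (E ∩ Ioc 0 (2 * Real.pi)) := by
    ext θ
    simp only [mem_inter_iff, mem_preimage, mem_Ioc]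
    have h3 : (θ + -(n • (2 * Real.pi)) ∈ E) ↔ θ ∈ E := by
      rw [hE, mem_ofPred_eq, mem_ofPred_eq]
      have : Complex.exp (((θ + -(n • (2 * Real.pi)) : ℝ) : ℂ) * I) = Complex.exp (θ * I) := by
        have e : (((θ + -(n • (2 * Real.pi)) : ℝ) : ℂ) * I) = θ * I - n * (2 * Real.pi * I) := by
          rw [zsmul_eq_mul]; push_cast; ring
        rw [e, Complex.exp_sub, Complex.exp_int_mul_two_pi_mul_I, div_one]
      rw [this]
    rw [h3, add_smul, one_smul]
    constructor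
    · rintro ⟨a, b, c⟩; exact ⟨a, by linarith, by linarith⟩
    · rintro ⟨a, b, c⟩; exact ⟨a, by linarith, by linarith⟩
  rw [h2, measure_preimage_add_right]
  exact h0

end H809R3.T
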