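import Pool.Agent.H809R3.B2
import Pool.Agent.H809R3.T6

set_option autoImplicit false
open Complex Metric Set Filter Topology MeasureTheory
open scoped ComplexConjugate

namespace H809R3.B

lemma ae_ne_one : ∀ᵐ θ : ℝ, zt θ ≠ 1 := by
  have h1 := ((countable_singleton (1:ℂ)).preimage_circleMap 0 (one_ne_zero (α := ℝ))).measure_zero volume
  have h2 := measure_eq_zero_iff_ae_notMem.1 h1
  filter_upwards [h2] with θ hθ h3
  apply hθ
  rw [mem_preimage, circleMap_one, h3]
  rfl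

section k

variable {k : ℂ → ℂ} (hk : DifferentiableOn ℂ k (ball 0 1))

lemma mem_b {r : ℝ} (hr0 : 0 < r) (hr1 : r < 1) (θ : ℝ) : (r : ℂ) * zt θ ∈ ball (0:ℂ) 1 := by
  rw [mem_ball_zero_iff, norm_mul, zt_norm, mul_one, Complex.norm_real, Real.norm_of_nonneg hr0.le]
  exact hr1

include hk in
lemma kr_cont {r : ℝ} (hr0 : 0 < r) (hr1 : r < 1) : Continuous fun θ => k ((r : ℂ) * zt θ) := by
  rw [← continuousOn_univ]
  apply hk.continuousOn.comp
  · have := zt_cont; fun_prop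
  · intro θ _; exact mem_b hr0 hr1 θ

include hk in
lemma mean (hkb : ∀ w ∈ ball (0:ℂ) 1, ‖k w‖ ≤ 2) (n : ℕ) {r : ℝ} (hr0 : 0 < r) (hr1 : r < 1) :
    ∫ θ in Iv, En n (zt θ) * k ((r : ℂ) * zt θ) = (2 * Real.pi : ℝ) * (En n 0 * k 0) := by
  have hpi : (0:ℝ) < 2 * Real.pi := by positivity
  have hs : ∀ s : ℝ, 0 < s → s < 1 →
      ∫ θ in Iv, En n ((s : ℂ) * zt θ) * k ((r : ℂ) * ((s : ℂ) * zt θ)) =
        (2 * Real.pi : ℝ) * (En n 0 * k 0) := by
    intro s hs0 hs1
    have hd : DifferentiableOn ℂ (fun z => En n z * k ((r : ℂ) * z)) (ball 0 1) := by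
      intro z hz
      rw [mem_ball_zero_iff] at hz
      have hz1 : z ≠ 1 := by rintro rfl; rw [norm_one] at hz; exact lt_irrefl _ hz
      apply DifferentiableAt.differentiableWithinAt
      apply DifferentiableAt.mul (En_diff n hz1)
      have hrz : (r : ℂ) * z ∈ ball (0:ℂ) 1 := by
        rw [mem_ball_zero_iff, norm_mul, Complex.norm_real, Real.norm_of_nonneg hr0.le]
        nlinarith [norm_nonneg z]
      exact (hk.differentiableAt (isOpen_ball.mem_nhds hrz)).comp z (by fun_prop)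
    have hdc : DiffContOnCl ℂ (fun z => En n z * k ((r : ℂ) * z)) (ball 0 |s|) := by
      apply DifferentiableOn.diffContOnCl
      rw [abs_of_pos hs0, closure_ball (0:ℂ) hs0.ne']
      exact hd.mono (closedBall_subset_ball hs1)
    have h1 := hdc.circleAverage
    rw [Real.circleAverage_def, intervalIntegral.integral_of_le hpi.le, mul_zero] at h1
    simp only [circleMap_eq] at h1
    change (2 * Real.pi)⁻¹ • (∫ θ in Iv, En n ((s : ℂ) * zt θ) * k ((r : ℂ) * ((s : ℂ) * zt θ))) = _ at h1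
    rw [Complex.real_smul] at h1
    have h2 : (((2 * Real.pi : ℝ) : ℂ)) ≠ 0 := by
      exact_mod_cast hpi.ne'
    rw [← h1, ← mul_assoc, Complex.ofReal_inv, mul_inv_cancel₀ h2, one_mul]
  have ht1 : Tendsto (fun s : ℝ => s) (𝓝[<] 1) (𝓝 1) := tendsto_id.mono_left nhdsWithin_le_nhds
  have hev : ∀ᶠ s : ℝ in 𝓝[<] 1, 0 < s ∧ s < 1 := by
    filter_upwards [ht1.eventually_const_lt (zero_lt_one), self_mem_nhdsWithin] with s h1 h2
    exact ⟨h1, h2⟩
  have hlim : Tendsto (fun s : ℝ => ∫ θ in Iv, En n ((s : ℂ) * zt θ) * k ((r : ℂ) * ((s : ℂ) * zt θ)))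
      (𝓝[<] 1) (𝓝 (∫ θ in Iv, En n (zt θ) * k ((r : ℂ) * zt θ))) := by
    apply tendsto_integral_filter_of_dominated_convergence (fun _ => (4 * (n : ℝ) ^ 2) ^ n * 2)
    · filter_upwards [hev] with s hs
      apply Continuous.aestronglyMeasurable
      apply Continuous.mul
      · rw [continuous_iff_continuousAt]
        intro θ
        have hb := mem_b hs.1 hs.2 θ
        have hne : (s : ℂ) * zt θ ≠ 1 := by
          intro h; rw [h, mem_ball_zero_iff, norm_one] at hb; exact lt_irrefl _ hb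
        have hc : ContinuousAt (fun θ => (s : ℂ) * zt θ) θ := by
          have := zt_cont.continuousAt (x := θ)
          fun_prop
        exact ContinuousAt.comp (f := fun θ => (s : ℂ) * zt θ) (En_diff n hne).continuousAt hc
      · have h2 := kr_cont hk (r := r * s) (by have := hs.1; positivity) (by
          have := hs.1; have := hs.2; nlinarith)
        refine h2.congr fun θ => ?_
        congr 1; push_cast; ring
    · filter_upwards [hev] with s hs
      refine Eventually.of_forall fun θ => ?_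
      rw [norm_mul]
      have hb := mem_b hs.1 hs.2 θ
      apply mul_le_mul (En_bound n (mem_ball_zero_iff.1 hb).le) _ (norm_nonneg _) (by positivity)
      apply hkb
      rw [mem_ball_zero_iff] at hb ⊢
      rw [norm_mul, Complex.norm_real, Real.norm_of_nonneg hr0.le]
      nlinarith [norm_nonneg ((s : ℂ) * zt θ)]
    · exact integrable_const _
    · apply ae_restrict_of_ae
      filter_upwards [ae_ne_one] with θ hθ
      have hsz : Tendsto (fun s : ℝ => (s : ℂ) * zt θ) (𝓝[<] 1) (𝓝 (zt θ)) := by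
        have h6 : Tendsto (fun t : ℝ => (t : ℂ) * zt θ) (𝓝 1) (𝓝 (((1:ℝ):ℂ) * zt θ)) := by
          apply Continuous.tendsto; fun_prop
        simp only [Complex.ofReal_one, one_mul] at h6
        exact h6.mono_left nhdsWithin_le_nhds
      apply Tendsto.mul
      · exact (En_diff n hθ).continuousAt.tendsto.comp hsz
      · have hc : ContinuousAt k ((r : ℂ) * zt θ) :=
          (hk.differentiableAt (isOpen_ball.mem_nhds (mem_b hr0 hr1 θ))).continuousAt
        exact hc.tendsto.comp (hsz.const_mul _)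
  refine tendsto_nhds_unique hlim ?_
  apply tendsto_const_nhds.congr'
  filter_upwards [hev] with s hs'
  exact (hs s hs'.1 hs'.2).symm

/-- the arc -/
def J : Set ℝ := {θ | 2 < c θ ∧ c θ < 3}

lemma c_meas : Measurable c := by
  unfold c u
  have := zt_cont.measurable
  fun_prop

lemma J_meas : MeasurableSet J :=
  (measurableSet_lt measurable_const c_meas).inter (measurableSet_lt c_meas measurable_const)

/-- the error -/
noncomputable def er (r : ℝ) (θ : ℝ) : ℝ := ‖Ph psi ((r : ℂ) * zt θ) - psi (zt θ)‖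

lemma er_nonneg (r θ : ℝ) : 0 ≤ er r θ := norm_nonneg _

lemma er_le {r : ℝ} (hr0 : 0 < r) (hr1 : r < 1) (θ : ℝ) : er r θ ≤ 2 := by
  unfold er
  refine (norm_sub_le _ _).trans ?_
  have h1 := Ph_le psi_meas psi_le (mem_ball_zero_iff.1 (mem_b hr0 hr1 θ))
  have h2 := psi_le (zt θ)
  linarith

lemma er_meas {r : ℝ} (hr0 : 0 < r) (hr1 : r < 1) :
    AEStronglyMeasurable (er r) (volume.restrict Iv) := by
  have hm' : Measurable fun z => conj (psi z) := Complex.continuous_conj.measurable.comp psi_meas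
  have hb' : ∀ z, ‖conj (psi z)‖ ≤ 1 := fun z => by rw [RCLike.norm_conj]; exact psi_le z
  have hc : Continuous fun θ => Ph psi ((r : ℂ) * zt θ) := by
    have h1 := kr_cont (fA_diff psi_meas psi_le) hr0 hr1
    have h2 := kr_cont (fA_diff hm' hb') hr0 hr1
    have h3 := h1.add (Complex.continuous_conj.comp h2)
    refine h3.congr fun θ => ?_
    exact split psi_meas psi_le (mem_ball_zero_iff.1 (mem_b hr0 hr1 θ))
  unfold er
  exact (hc.aestronglyMeasurable.sub
    (psi_meas.comp zt_cont.measurable).aestronglyMeasurable).norm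

lemma er_int {r : ℝ} (hr0 : 0 < r) (hr1 : r < 1) : Integrable (er r) (volume.restrict Iv) :=
  Integrable.of_bound (er_meas hr0 hr1) 2 (Eventually.of_forall fun θ => by
    rw [Real.norm_of_nonneg (er_nonneg _ _)]; exact er_le hr0 hr1 θ)

lemma re_eq_zero_null : ∀ᵐ θ : ℝ, (zt θ).re ≠ 0 := by
  have hcount : ({I, -I} : Set ℂ).Countable := (countable_singleton _).insert _
  have h1 := (hcount.preimage_circleMap 0 (one_ne_zero (α := ℝ))).measure_zero volume
  have h2 := measure_eq_zero_iff_ae_notMem.1 h1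
  filter_upwards [h2] with θ hθ h3
  apply hθ
  rw [mem_preimage, circleMap_one]
  have h4 : (zt θ).re ^ 2 + (zt θ).im ^ 2 = 1 := by
    have := Complex.sq_norm (zt θ)
    rw [zt_norm, Complex.normSq_apply] at this
    linarith
  rw [h3] at h4
  have h5 : ((zt θ).im - 1) * ((zt θ).im + 1) = 0 := by linarith
  rcases mul_eq_zero.1 h5 with h | h
  · left; apply Complex.ext
    · simpa using h3
    · simp; linarith
  · right; apply Complex.ext
    · simpa using h3
    · simp; linarith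

lemma er_tendsto : Tendsto (fun r : ℝ => ∫ θ in Iv, er r θ) (𝓝[<] 1) (𝓝 0) := by
  have ht1 : Tendsto (fun s : ℝ => s) (𝓝[<] 1) (𝓝 1) := tendsto_id.mono_left nhdsWithin_le_nhds
  have hev : ∀ᶠ s : ℝ in 𝓝[<] 1, 0 < s ∧ s < 1 := by
    filter_upwards [ht1.eventually_const_lt (zero_lt_one), self_mem_nhdsWithin] with s h1 h2
    exact ⟨h1, h2⟩
  have h0 : (0:ℝ) = ∫ θ in Iv, (0:ℝ) := by simp
  rw [h0]
  apply tendsto_integral_filter_of_dominated_convergence (fun _ => 2)
  · filter_upwards [hev] with s hs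
    exact er_meas hs.1 hs.2
  · filter_upwards [hev] with s hs
    refine Eventually.of_forall fun θ => ?_
    rw [Real.norm_of_nonneg (er_nonneg _ _)]; exact er_le hs.1 hs.2 θ
  · exact integrable_const _
  · apply ae_restrict_of_ae
    filter_upwards [ae_ne_one, re_eq_zero_null] with θ h1 h2
    have hc : ContinuousAt psi (zt θ) := by
      rcases lt_or_gt_of_ne h2 with h | h
      · exact psi_cont_neg h
      · exact psi_cont_pos h h1
    have h3 := Ph_tendsto psi_meas psi_le θ hc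
    have h4 := (h3.sub_const (psi (zt θ))).norm
    simpa [er] using h4

/-- pointwise lower bound -/
lemma pointwise (hkb : ∀ w ∈ ball (0:ℂ) 1, ‖k w‖ ≤ 2)
    (hdist : ∀ w ∈ ball (0:ℂ) 1, ‖Ph psi w - conj (k w)‖ ≤ 1) (n : ℕ) (hn : 2 ≤ n)
    {r : ℝ} (hr0 : 0 < r) (hr1 : r < 1) (θ : ℝ) (hθ : zt θ ≠ 1) :
    (J.indicator (fun θ => 4 ^ n / 8 * ‖k ((r : ℂ) * zt θ)‖ ^ 2) θ) -
      2 * (4 * (n : ℝ) ^ 2) ^ n * er r θ - 2 ≤ (En n (zt θ) * k ((r : ℂ) * zt θ)).re := by
  have hb := mem_b hr0 hr1 θ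
  have hk2 := hkb _ hb
  have hd := hdist _ hb
  have he0 := er_nonneg r θ
  have he2 := er_le hr0 hr1 θ
  set kk := k ((r : ℂ) * zt θ) with hkk
  have hH0 := Hn_nonneg n θ
  have hHle := Hn_le n θ
  rw [En_circle n (by omega) θ]
  have e0 : ((Hn n θ : ℂ) * Complex.exp (-(c θ : ℂ) * I) * kk).re =
      Hn n θ * (Complex.exp (-(c θ : ℂ) * I) * kk).re := by
    rw [mul_assoc, Complex.re_ofReal_mul]
  rw [e0]
  set S := Complex.exp (-(c θ : ℂ) * I) with hS
  have hSn : ‖S‖ = 1 := by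
    rw [hS, ← Complex.ofReal_neg, Complex.norm_exp_ofReal_mul_I]
  have hpos4 : (0:ℝ) ≤ 2 * (4 * (n : ℝ) ^ 2) ^ n * er r θ := by positivity
  by_cases hre : 0 < (zt θ).re
  · have hpsi : psi (zt θ) = S := by
      unfold psi
      rw [if_pos ⟨hre, hθ⟩]
      rfl
    have h1 : ‖S - conj kk‖ ≤ 1 + er r θ := by
      have e : S - conj kk = (Ph psi ((r : ℂ) * zt θ) - conj kk) - (Ph psi ((r : ℂ) * zt θ) - S) := by
        ring
      rw [e]
      refine (norm_sub_le _ _).trans ?_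
      apply add_le_add hd
      unfold er
      rw [hpsi]
    have h2 : ‖S - conj kk‖ ^ 2 = 1 + ‖kk‖ ^ 2 - 2 * (S * kk).re := by
      have h3 := Complex.normSq_sub S (conj kk)
      rw [Complex.conj_conj, Complex.normSq_conj] at h3
      rw [← Complex.normSq_eq_norm_sq, h3, Complex.normSq_eq_norm_sq, hSn,
        Complex.normSq_eq_norm_sq]
      ring
    have h3 : ‖kk‖ ^ 2 / 2 - 2 * er r θ ≤ (S * kk).re := by
      have h4 : ‖S - conj kk‖ ^ 2 ≤ (1 + er r θ) ^ 2 := pow_le_pow_left₀ (norm_nonneg _) h1 2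
      rw [h2] at h4
      nlinarith
    have h5 : Hn n θ * (‖kk‖ ^ 2 / 2 - 2 * er r θ) ≤ Hn n θ * (S * kk).re :=
      mul_le_mul_of_nonneg_left h3 hH0
    have h6 : Hn n θ * er r θ ≤ (4 * (n : ℝ) ^ 2) ^ n * er r θ :=
      mul_le_mul_of_nonneg_right hHle he0
    have h7 : J.indicator (fun θ => 4 ^ n / 8 * ‖k ((r : ℂ) * zt θ)‖ ^ 2) θ ≤ Hn n θ * (‖kk‖ ^ 2 / 2) := by
      by_cases hJ : θ ∈ J
      · rw [indicator_of_mem hJ, ← hkk]
        have h8 := Hn_large n θ hn hJ.1 hJ.2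
        have h9 : 0 ≤ ‖kk‖ ^ 2 / 2 := by positivity
        nlinarith [mul_le_mul_of_nonneg_right h8 h9]
      · rw [indicator_of_notMem hJ]; positivity
    linarith
  · push Not at hre
    have hc := c_sq_le hθ hre
    have hJ : θ ∉ J := by
      intro hJ
      have := hJ.1
      nlinarith
    rw [indicator_of_notMem hJ]
    have h1 := Hn_small n θ (by omega) hc
    have h2 : -2 ≤ (S * kk).re := by
      have h3 := Complex.abs_re_le_norm (S * kk)
      rw [norm_mul, hSn, one_mul] at h3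
      have := (abs_le.1 (h3.trans hk2)).1
      exact this
    nlinarith

include hk in
lemma key (hkb : ∀ w ∈ ball (0:ℂ) 1, ‖k w‖ ≤ 2)
    (hdist : ∀ w ∈ ball (0:ℂ) 1, ‖Ph psi w - conj (k w)‖ ≤ 1) (n : ℕ) (hn : 2 ≤ n)
    {r : ℝ} (hr0 : 0 < r) (hr1 : r < 1) :
    4 ^ n / 8 * ∫ θ in Iv, J.indicator (fun θ => ‖k ((r : ℂ) * zt θ)‖ ^ 2) θ ≤
      8 * Real.pi + 2 * (4 * (n : ℝ) ^ 2) ^ n * ∫ θ in Iv, er r θ := by
  have hkc := kr_cont hk hr0 hr1
  have hint1 : Integrable (fun θ => J.indicator (fun θ => 4 ^ n / 8 * ‖k ((r : ℂ) * zt θ)‖ ^ 2) θ)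
      (volume.restrict Iv) := by
    apply Integrable.indicator _ J_meas
    have : Continuous fun θ => (4:ℝ) ^ n / 8 * ‖k ((r : ℂ) * zt θ)‖ ^ 2 :=
      continuous_const.mul (hkc.norm.pow 2)
    exact (this.integrableOn_Icc (a := 0) (b := 2 * Real.pi)).mono_set Ioc_subset_Icc_self
  have hint2 : Integrable (fun θ => 2 * (4 * (n : ℝ) ^ 2) ^ n * er r θ) (volume.restrict Iv) :=
    (er_int hr0 hr1).const_mul _
  have hEm : AEStronglyMeasurable (fun θ => En n (zt θ) * k ((r : ℂ) * zt θ)) (volume.restrict Iv) := by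
    apply AEStronglyMeasurable.mul _ hkc.aestronglyMeasurable
    have : Measurable (fun θ => (Hn n θ : ℂ) * Complex.exp (-(c θ : ℂ) * I)) := by
      have := c_meas
      unfold Hn
      fun_prop
    refine this.aestronglyMeasurable.congr ?_
    refine Eventually.of_forall fun θ => ?_
    exact (En_circle n (by omega) θ).symm
  have hint3 : Integrable (fun θ => En n (zt θ) * k ((r : ℂ) * zt θ)) (volume.restrict Iv) := by
    refine Integrable.of_bound hEm ((4 * (n : ℝ) ^ 2) ^ n * 2) (Eventually.of_forall fun θ => ?_)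
    rw [norm_mul]
    exact mul_le_mul (En_bound n (zt_norm θ).le) (hkb _ (mem_b hr0 hr1 θ)) (norm_nonneg _) (by positivity)
  have h1 : ∫ θ in Iv, ((J.indicator (fun θ => 4 ^ n / 8 * ‖k ((r : ℂ) * zt θ)‖ ^ 2) θ) -
      2 * (4 * (n : ℝ) ^ 2) ^ n * er r θ - 2) ≤ ∫ θ in Iv, (En n (zt θ) * k ((r : ℂ) * zt θ)).re := by
    apply integral_mono_ae
    · exact (hint1.sub hint2).sub (integrable_const _)
    · exact hint3.re
    · apply ae_restrict_of_ae
      filter_upwards [ae_ne_one] with θ hθ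
      exact pointwise hkb hdist n hn hr0 hr1 θ hθ
  have h2 : ∫ θ in Iv, (En n (zt θ) * k ((r : ℂ) * zt θ)).re ≤ 4 * Real.pi := by
    have h3 : ∫ θ in Iv, (En n (zt θ) * k ((r : ℂ) * zt θ)).re =
        (∫ θ in Iv, En n (zt θ) * k ((r : ℂ) * zt θ)).re := integral_re hint3
    rw [h3, mean hk hkb n hr0 hr1, Complex.re_ofReal_mul]
    have h4 : (En n 0 * k 0).re ≤ 2 := by
      refine (Complex.re_le_norm _).trans ?_
      rw [norm_mul]
      have := En_zero n (by omega)
      have := hkb 0 (by simp)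
      nlinarith [norm_nonneg (En n 0), norm_nonneg (k 0)]
    have hpi := Real.pi_pos
    nlinarith
  have hint12 : Integrable (fun θ => J.indicator (fun θ => 4 ^ n / 8 * ‖k ((r : ℂ) * zt θ)‖ ^ 2) θ -
      2 * (4 * (n : ℝ) ^ 2) ^ n * er r θ) (volume.restrict Iv) := hint1.sub hint2
  rw [integral_sub hint12 (integrable_const _), integral_sub hint1 hint2,
    integral_const, vol_Iv_real, integral_const_mul, smul_eq_mul] at h1
  have h5 : ∫ θ in Iv, J.indicator (fun θ => 4 ^ n / 8 * ‖k ((r : ℂ) * zt θ)‖ ^ 2) θ =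
      4 ^ n / 8 * ∫ θ in Iv, J.indicator (fun θ => ‖k ((r : ℂ) * zt θ)‖ ^ 2) θ := by
    rw [← integral_const_mul]
    apply integral_congr_ae
    refine Eventually.of_forall fun θ => ?_
    simp only
    by_cases hJ : θ ∈ J
    · rw [indicator_of_mem hJ, indicator_of_mem hJ]
    · rw [indicator_of_notMem hJ, indicator_of_notMem hJ, mul_zero]
  rw [h5] at h1
  linarith

include hk in
lemma small (hkb : ∀ w ∈ ball (0:ℂ) 1, ‖k w‖ ≤ 2)
    (hdist : ∀ w ∈ ball (0:ℂ) 1, ‖Ph psi w - conj (k w)‖ ≤ 1) (ε : ℝ) (hε : 0 < ε) :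
    ∀ᶠ r : ℝ in 𝓝[<] 1, ∫ θ in Iv, J.indicator (fun θ => ‖k ((r : ℂ) * zt θ)‖ ^ 2) θ ≤ ε := by
  have ht1 : Tendsto (fun s : ℝ => s) (𝓝[<] 1) (𝓝 1) := tendsto_id.mono_left nhdsWithin_le_nhds
  have hpi := Real.pi_pos
  obtain ⟨n, hn1, hn2⟩ : ∃ n : ℕ, 2 ≤ n ∧ 8 * (8 * Real.pi + 1) / ε ≤ 4 ^ n := by
    have h1 : Tendsto (fun n : ℕ => (4:ℝ) ^ n) atTop atTop :=
      tendsto_pow_atTop_atTop_of_one_lt (by norm_num)
    obtain ⟨n, h2, h3⟩ := ((eventually_ge_atTop 2).and
      (h1.eventually_ge_atTop (8 * (8 * Real.pi + 1) / ε))).exists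
    exact ⟨n, h2, h3⟩
  have h2 : Tendsto (fun r : ℝ => 2 * (4 * (n : ℝ) ^ 2) ^ n * ∫ θ in Iv, er r θ) (𝓝[<] 1) (𝓝 0) := by
    have := er_tendsto.const_mul (2 * (4 * (n : ℝ) ^ 2) ^ n)
    rwa [mul_zero] at this
  filter_upwards [h2.eventually_lt_const zero_lt_one, ht1.eventually_const_lt zero_lt_one,
    self_mem_nhdsWithin] with r h3 h4 h5
  have h6 := key hk hkb hdist n hn1 h4 h5
  have h7 : (4:ℝ) ^ n / 8 * ∫ θ in Iv, J.indicator (fun θ => ‖k ((r : ℂ) * zt θ)‖ ^ 2) θ ≤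
      8 * Real.pi + 1 := by linarith
  have h8 : 8 * (8 * Real.pi + 1) ≤ 4 ^ n * ε := by
    rwa [div_le_iff₀ hε] at hn2
  have h9 : (0:ℝ) < 4 ^ n := by positivity
  have h10 : (4:ℝ) ^ n * ∫ θ in Iv, J.indicator (fun θ => ‖k ((r : ℂ) * zt θ)‖ ^ 2) θ ≤ 4 ^ n * ε := by
    linarith
  exact le_of_mul_le_mul_left h10 h9

end k

end H809R3.B
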