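import Pool.Agent.H809R3.B3

set_option autoImplicit false
open Complex Metric Set Filter Topology MeasureTheory
open scoped ComplexConjugate

namespace H809R3.B

lemma zt_re (θ : ℝ) : (zt θ).re = Real.cos θ := by unfold zt; exact Complex.exp_ofReal_mul_I_re θ
lemma zt_im (θ : ℝ) : (zt θ).im = Real.sin θ := by unfold zt; exact Complex.exp_ofReal_mul_I_im θ

lemma J_pos : 0 < volume (J ∩ Iv) := by
  set t : ℝ := Real.arccos (21 / 29) with ht
  have hcos : Real.cos t = 21 / 29 := Real.cos_arccos (by norm_num) (by norm_num)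
  have hsin : Real.sin t = 20 / 29 := by
    rw [ht, Real.sin_arccos]
    rw [show (1:ℝ) - (21 / 29) ^ 2 = (20 / 29) ^ 2 by norm_num]
    exact Real.sqrt_sq (by norm_num)
  have hz : zt t = ((21 / 29 : ℝ) : ℂ) + ((20 / 29 : ℝ) : ℂ) * I := by
    apply Complex.ext
    · rw [zt_re, hcos]; simp
    · rw [zt_im, hsin]; simp
  have hne : zt t ≠ 1 := by
    intro h
    have := congrArg Complex.im h
    rw [zt_im, hsin] at this
    norm_num at this
  have hu : u (zt t) = ((5 / 2 : ℝ) : ℂ) * I := by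
    unfold u
    rw [div_eq_iff (by rw [sub_ne_zero]; exact hne.symm), hz]
    push_cast
    linear_combination ((50:ℂ) / 29) * I_sq
  have hc : c t = 5 / 2 := by
    unfold c
    rw [hu]; simp
  have hcc : ContinuousAt c t := by
    have h1 := u_cont hne
    have h2 : ContinuousAt (fun θ => u (zt θ)) t := ContinuousAt.comp (f := zt) h1 zt_cont.continuousAt
    exact Complex.continuous_im.continuousAt.comp h2
  have h1 : J ∈ 𝓝 t := by
    have h2 : ∀ᶠ θ in 𝓝 t, 2 < c θ := hcc.eventually_const_lt (by rw [hc]; norm_num)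
    have h3 : ∀ᶠ θ in 𝓝 t, c θ < 3 := hcc.eventually_lt_const (by rw [hc]; norm_num)
    filter_upwards [h2, h3] with θ h4 h5
    exact ⟨h4, h5⟩
  have h0 : 0 < t := by rw [ht]; exact Real.arccos_pos.2 (by norm_num)
  have hle : t ≤ Real.pi := Real.arccos_le_pi _
  have h2 : Iv ∈ 𝓝 t := Ioc_mem_nhds h0 (by linarith [Real.pi_pos])
  exact Measure.measure_pos_of_mem_nhds volume (inter_mem h1 h2)

lemma log_le_aux {x η : ℝ} (hx : 0 < x) (hη : 0 < η) :
    Real.log x ≤ x ^ 2 * (2 * η)⁻¹ + Real.log η / 2 := by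
  have h1 := Real.log_le_sub_one_of_pos (show 0 < x ^ 2 / η by positivity)
  rw [Real.log_div (by positivity) hη.ne', Real.log_pow] at h1
  have h2 : x ^ 2 * (2 * η)⁻¹ = (x ^ 2 / η) / 2 := by field_simp
  rw [h2]
  push_cast at h1
  linarith

theorem k_zero {k : ℂ → ℂ} (hk : DifferentiableOn ℂ k (ball 0 1))
    (hkb : ∀ w ∈ ball (0:ℂ) 1, ‖k w‖ ≤ 2)
    (hdist : ∀ w ∈ ball (0:ℂ) 1, ‖Ph psi w - conj (k w)‖ ≤ 1) :
    ∀ z ∈ ball (0:ℂ) 1, k z = 0 := by
  by_contra hcon
  push Not at hcon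
  have hne : ∃ z ∈ ball (0:ℂ) 1, k z ≠ 0 := hcon
  obtain ⟨K, hK⟩ := H809R3.T.jensen_lower k hk
  have hJm : MeasurableSet (J ∩ Iv) := J_meas.inter Iv_meas
  have hfin : volume (J ∩ Iv) ≠ ⊤ :=
    ne_top_of_le_ne_top (by rw [vol_Iv]; exact ENNReal.ofReal_ne_top)
      (measure_mono inter_subset_right : volume (J ∩ Iv) ≤ volume Iv)
  set m : ℝ := (volume (J ∩ Iv)).toReal with hm
  have hm0 : 0 < m := ENNReal.toReal_pos J_pos.ne' hfin
  have hpi : (0:ℝ) ≤ 2 * Real.pi := by positivity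
  obtain ⟨A, hA⟩ : ∃ A : ℝ, A = 2 * (2 * Real.pi * |K| + 2 * Real.pi + 2) / m := ⟨_, rfl⟩
  set η := Real.exp (-A) with hη
  have hη0 : 0 < η := Real.exp_pos _
  have ht1 : Tendsto (fun s : ℝ => s) (𝓝[<] 1) (𝓝 1) := tendsto_id.mono_left nhdsWithin_le_nhds
  obtain ⟨r, hsm, hr1, hr2⟩ := ((small hk hkb hdist (2 * η) (by positivity)).and
    ((ht1.eventually_const_lt (show (1:ℝ) / 2 < 1 by norm_num)).and self_mem_nhdsWithin)).exists
  have hr2 : r < 1 := hr2
  have hr0 : 0 < r := by linarith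
  have hpre : IsPreconnected (ball (0:ℂ) 1) := (convex_ball (0:ℂ) 1).isPreconnected
  have hfa := hk.analyticOnNhd isOpen_ball
  have hfinite : ({z ∈ sphere (0:ℂ) r | k z = 0}).Finite := by
    by_contra hinf
    obtain ⟨z₀, hz₀, hacc⟩ := Set.Infinite.exists_accPt_of_subset_isCompact
      (show Set.Infinite _ from hinf) (isCompact_sphere (0:ℂ) r) (sep_subset _ _)
    have hz₀b : z₀ ∈ ball (0:ℂ) 1 := by
      rw [mem_sphere_zero_iff_norm] at hz₀
      rw [mem_ball_zero_iff, hz₀]; exact hr2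
    have hfreq : ∃ᶠ z in 𝓝[≠] z₀, k z = 0 := by
      have := accPt_iff_frequently_nhdsNE.1 hacc
      exact this.mono fun z hz => hz.2
    have hzero := hfa.eqOn_zero_of_preconnected_of_frequently_eq_zero hpre hz₀b hfreq
    obtain ⟨z, hz, hz2⟩ := hne
    exact hz2 (hzero hz)
  have hae : ∀ᵐ θ : ℝ, k ((r : ℂ) * zt θ) ≠ 0 := by
    have h1 := (hfinite.countable.preimage_circleMap 0 hr0.ne').measure_zero volume
    have h2 := measure_eq_zero_iff_ae_notMem.1 h1
    filter_upwards [h2] with θ hθ h3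
    apply hθ
    rw [← circleMap_eq] at h3
    refine ⟨?_, h3⟩
    rw [mem_sphere_zero_iff_norm, norm_circleMap_zero, abs_of_pos hr0]
  have hKr := hK r hr1 hr2
  rw [Real.circleAverage_def, smul_eq_mul] at hKr
  have hmero : MeromorphicOn k (sphere 0 |r|) := by
    intro z hz
    have : z ∈ ball (0:ℂ) 1 := by
      rw [mem_sphere_zero_iff_norm, abs_of_pos hr0] at hz
      rw [mem_ball_zero_iff, hz]; exact hr2
    exact (hfa z this).meromorphicAt
  have hint := hmero.circleIntegrable_log_norm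
  unfold CircleIntegrable at hint
  rw [intervalIntegrable_iff_integrableOn_Ioc_of_le hpi] at hint
  rw [intervalIntegral.integral_of_le hpi] at hKr
  simp only [circleMap_eq] at hint hKr
  have hkc := kr_cont hk hr0 hr2
  have hint1 : Integrable (fun θ => J.indicator (fun θ => ‖k ((r : ℂ) * zt θ)‖ ^ 2) θ)
      (volume.restrict Iv) := by
    apply Integrable.indicator _ J_meas
    have : Continuous fun θ => ‖k ((r : ℂ) * zt θ)‖ ^ 2 := hkc.norm.pow 2
    exact (this.integrableOn_Icc (a := 0) (b := 2 * Real.pi)).mono_set Ioc_subset_Icc_self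
  have hint2 : Integrable (fun θ => J.indicator (fun _ => Real.log η / 2) θ) (volume.restrict Iv) :=
    (integrable_const _).indicator J_meas
  have hint3 : Integrable (fun θ => J.indicator (fun θ => ‖k ((r : ℂ) * zt θ)‖ ^ 2) θ * (2 * η)⁻¹)
      (volume.restrict Iv) := hint1.mul_const _
  have hint4 : Integrable (fun θ => J.indicator (fun θ => ‖k ((r : ℂ) * zt θ)‖ ^ 2) θ * (2 * η)⁻¹ +
      J.indicator (fun _ => Real.log η / 2) θ) (volume.restrict Iv) := hint3.add hint2
  have hub : ∫ θ in Iv, Real.log ‖k ((r : ℂ) * zt θ)‖ ≤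
      ∫ θ in Iv, (J.indicator (fun θ => ‖k ((r : ℂ) * zt θ)‖ ^ 2) θ * (2 * η)⁻¹ +
        J.indicator (fun _ => Real.log η / 2) θ + 1) := by
    apply integral_mono_ae hint
    · exact hint4.add (integrable_const _)
    · apply ae_restrict_of_ae
      filter_upwards [hae] with θ hθ
      have hpos : 0 < ‖k ((r : ℂ) * zt θ)‖ := norm_pos_iff.2 hθ
      by_cases hmem : θ ∈ J
      · rw [indicator_of_mem hmem, indicator_of_mem hmem]
        have := log_le_aux hpos hη0
        linarith
      · rw [indicator_of_notMem hmem, indicator_of_notMem hmem, zero_mul, zero_add, zero_add]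
        have h1 := Real.log_le_sub_one_of_pos hpos
        have h2 := hkb _ (mem_b hr0 hr2 θ)
        linarith
  have hind : ∫ θ in Iv, J.indicator (fun _ => Real.log η / 2) θ = m * (Real.log η / 2) := by
    rw [integral_indicator J_meas, Measure.restrict_restrict J_meas, setIntegral_const, smul_eq_mul]
    rfl
  rw [integral_add hint4 (integrable_const _), integral_add hint3 hint2, integral_mul_const,
    integral_const, vol_Iv_real, smul_eq_mul, mul_one, hind] at hub
  have h1 : (∫ θ in Iv, J.indicator (fun θ => ‖k ((r : ℂ) * zt θ)‖ ^ 2) θ) * (2 * η)⁻¹ ≤ 1 := by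
    rw [← div_eq_mul_inv, div_le_one (by positivity)]
    exact hsm
  have hlog : Real.log η = -A := by rw [hη, Real.log_exp]
  rw [hlog] at hub
  have h2 : m * A = 2 * (2 * Real.pi * |K| + 2 * Real.pi + 2) := by
    rw [hA]; field_simp
  have h3 : K * (2 * Real.pi) ≤ 1 + m * (-A / 2) + 2 * Real.pi := by
    have h4 : (2 * Real.pi)⁻¹ * ∫ θ in Iv, Real.log ‖k ((r : ℂ) * zt θ)‖ ≤
        (2 * Real.pi)⁻¹ * (1 + m * (-A / 2) + 2 * Real.pi) :=
      mul_le_mul_of_nonneg_left (hub.trans (by linarith)) (by positivity)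
    have h5 := hKr.trans h4
    rw [inv_mul_eq_div, le_div_iff₀ (by positivity)] at h5
    exact h5
  have h4 : -|K| ≤ K := neg_abs_le K
  have h5 : (0:ℝ) < 2 * Real.pi := by positivity
  nlinarith

end H809R3.B
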