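import Pool.Agent.HopfPinch.AnS1

set_option autoImplicit false
open Complex Metric Set Filter Topology MeasureTheory intervalIntegral
open scoped ComplexConjugate Interval

namespace H809R3.T

/-- boundary integral over a rectangle -/
noncomputable def bI (f : ℂ → ℂ) (z w : ℂ) : ℂ :=
  (∫ x : ℝ in z.re..w.re, f (x + z.im * I)) - (∫ x : ℝ in z.re..w.re, f (x + w.im * I)) +
    I • (∫ y : ℝ in z.im..w.im, f (w.re + y * I)) - I • (∫ y : ℝ in z.im..w.im, f (z.re + y * I))

theorem bI_eq_zero {f : ℂ → ℂ} {a : ℝ} (hf : ContinuousOn f (ball 0 a))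
    (hd : DifferentiableOn ℂ f {ζ | ζ ∈ ball (0 : ℂ) a ∧ ζ.im ≠ 0}) {z w : ℂ}
    (hR : Rectangle z w ⊆ ball 0 a) (h0 : (0 : ℝ) ∉ Ioo (min z.im w.im) (max z.im w.im)) :
    bI f z w = 0 := by
  apply integral_boundary_rect_eq_zero_of_continuousOn_of_differentiableOn f z w (hf.mono hR)
  apply hd.mono
  intro ζ hζ
  rw [mem_reProdIm] at hζ
  refine ⟨hR ?_, ?_⟩
  · rw [Rectangle, mem_reProdIm]
    exact ⟨Ioo_subset_Icc_self hζ.1, Ioo_subset_Icc_self hζ.2⟩
  · intro h
    rw [h] at hζ
    exact h0 hζ.2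

theorem bI_split {f : ℂ → ℂ} {a : ℝ} (hf : ContinuousOn f (ball 0 a)) {z w : ℂ}
    (hR : Rectangle z w ⊆ ball 0 a) (h0 : (0 : ℝ) ∈ [[z.im, w.im]]) :
    bI f z w = bI f z (w.re : ℂ) + bI f (z.re : ℂ) w := by
  have hint : ∀ c : ℝ, c ∈ [[z.re, w.re]] → ∀ p q : ℝ, p ∈ [[z.im, w.im]] → q ∈ [[z.im, w.im]] →
      IntervalIntegrable (fun y : ℝ => f (c + y * I)) volume p q := by
    intro c hc p q hp hq
    apply ContinuousOn.intervalIntegrable
    apply hf.comp (by fun_prop)
    intro y hy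
    apply hR
    rw [Rectangle, mem_reProdIm]
    refine ⟨by simpa using hc, ?_⟩
    have := uIcc_subset_uIcc hp hq hy
    simpa using this
  have hz : z.im ∈ [[z.im, w.im]] := left_mem_uIcc
  have hw : w.im ∈ [[z.im, w.im]] := right_mem_uIcc
  have e1 := integral_add_adjacent_intervals (hint w.re right_mem_uIcc _ _ hz h0)
    (hint w.re right_mem_uIcc _ _ h0 hw)
  have e2 := integral_add_adjacent_intervals (hint z.re left_mem_uIcc _ _ hz h0)
    (hint z.re left_mem_uIcc _ _ h0 hw)
  simp only [bI, ofReal_re, ofReal_im]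
  rw [← e1, ← e2]
  simp only [smul_eq_mul]
  ring

theorem holo_of_continuous {f : ℂ → ℂ} {a : ℝ} (hf : ContinuousOn f (ball 0 a))
    (hd : DifferentiableOn ℂ f {ζ | ζ ∈ ball (0 : ℂ) a ∧ ζ.im ≠ 0}) :
    DifferentiableOn ℂ f (ball 0 a) := by
  have hcons : IsConservativeOn f (ball 0 a) := by
    intro z w h
    rw [← add_eq_zero_iff_eq_neg, wedgeIntegral_add_wedgeIntegral_eq]
    change bI f z w = 0
    by_cases h0 : (0 : ℝ) ∈ Ioo (min z.im w.im) (max z.im w.im)
    · have h0' : (0 : ℝ) ∈ [[z.im, w.im]] := Ioo_subset_Icc_self h0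
      rw [bI_split hf h h0']
      have s1 : Rectangle z (w.re : ℂ) ⊆ Rectangle z w := by
        intro ζ hζ
        rw [Rectangle, mem_reProdIm] at hζ ⊢
        refine ⟨by simpa using hζ.1, ?_⟩
        have h3 : ζ.im ∈ [[z.im, 0]] := by simpa using hζ.2
        exact uIcc_subset_uIcc left_mem_uIcc h0' h3
      have s2 : Rectangle (z.re : ℂ) w ⊆ Rectangle z w := by
        intro ζ hζ
        rw [Rectangle, mem_reProdIm] at hζ ⊢
        refine ⟨by simpa using hζ.1, ?_⟩
        have h3 : ζ.im ∈ [[0, w.im]] := by simpa using hζ.2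
        exact uIcc_subset_uIcc h0' right_mem_uIcc h3
      rw [bI_eq_zero hf hd (s1.trans h), bI_eq_zero hf hd (s2.trans h), add_zero]
      · intro h3
        simp only [ofReal_im] at h3
        rcases le_total 0 w.im with h4 | h4
        · rw [min_eq_left h4] at h3; exact lt_irrefl _ h3.1
        · rw [max_eq_left h4] at h3; exact lt_irrefl _ h3.2
      · intro h3
        simp only [ofReal_im] at h3
        rcases le_total z.im 0 with h4 | h4
        · rw [max_eq_right h4] at h3; exact lt_irrefl _ h3.2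
        · rw [min_eq_right h4] at h3; exact lt_irrefl _ h3.1
    · exact bI_eq_zero hf hd h h0
  exact (hcons.isExactOn_ball hf).differentiableOn isOpen_ball

end H809R3.T
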