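import Pool.Agent.H809R3.T1

set_option autoImplicit false
open Complex Metric Set Filter Topology MeasureTheory intervalIntegral
open scoped ComplexConjugate Interval

namespace H809R3.T

section ext

variable {F : ℂ → ℂ} {R M : ℝ}

/-- a point of the relevant horizontal segment -/
lemma mem_big {R s y : ℝ} (hs : |s| < 3 / 4 * R) (hy : |y| < R / 2) :
    (s : ℂ) + y * I ∈ ball (0 : ℂ) R := by
  have hR : 0 < R := by
    have := abs_nonneg y; linarith
  rw [mem_ball_zero_iff]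
  have h1 : ‖(s : ℂ) + y * I‖ ^ 2 = s ^ 2 + y ^ 2 := by
    rw [Complex.sq_norm, Complex.normSq_apply]
    simp
    ring
  have h2 : s ^ 2 ≤ (3 / 4 * R) ^ 2 := by
    rw [← sq_abs s]; exact pow_le_pow_left₀ (abs_nonneg _) hs.le 2
  have h3 : y ^ 2 ≤ (R / 2) ^ 2 := by
    rw [← sq_abs y]; exact pow_le_pow_left₀ (abs_nonneg _) hy.le 2
  nlinarith [norm_nonneg ((s : ℂ) + y * I)]

lemma abs_re_im_lt {z : ℂ} {r : ℝ} (hz : z ∈ ball (0 : ℂ) r) : |z.re| < r ∧ |z.im| < r := by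
  rw [mem_ball_zero_iff] at hz
  exact ⟨(Complex.abs_re_le_norm z).trans_lt hz, (Complex.abs_im_le_norm z).trans_lt hz⟩

lemma meas_line (hR : 0 < R) (hd : DifferentiableOn ℂ F {w | w ∈ ball (0 : ℂ) R ∧ w.im ≠ 0})
    (hlim : ∀ᵐ x : ℝ, |x| < R → Tendsto (fun y : ℝ => F (x + y * I)) (𝓝[≠] 0) (𝓝 (F x)))
    (y : ℝ) (hy : |y| < R / 2) :
    AEStronglyMeasurable (fun s : ℝ => F (s + y * I))
      (volume.restrict (Ioo (-(3 / 4 * R)) (3 / 4 * R))) := by
  have hne : ∀ y : ℝ, y ≠ 0 → |y| < R / 2 → AEStronglyMeasurable (fun s : ℝ => F (s + y * I))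
      (volume.restrict (Ioo (-(3 / 4 * R)) (3 / 4 * R))) := by
    intro y hy0 hy
    apply ContinuousOn.aestronglyMeasurable _ measurableSet_Ioo
    apply hd.continuousOn.comp (by fun_prop)
    intro s hs
    refine ⟨mem_big (abs_lt.2 hs) hy, ?_⟩
    simpa using hy0
  rcases eq_or_ne y 0 with rfl | h0
  · have ht : Tendsto (fun n : ℕ => R / 4 / ((n : ℝ) + 1)) atTop (𝓝 0) := by
      have := (tendsto_one_div_add_atTop_nhds_zero_nat (𝕜 := ℝ)).const_mul (R / 4)
      simpa [div_eq_mul_inv] using this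
    have ht2 : Tendsto (fun n : ℕ => R / 4 / ((n : ℝ) + 1)) atTop (𝓝[≠] 0) :=
      tendsto_nhdsWithin_iff.2 ⟨ht, Eventually.of_forall fun n => by
        simp only [mem_compl_iff, mem_singleton_iff]; positivity⟩
    refine aestronglyMeasurable_of_tendsto_ae atTop
      (f := fun (n : ℕ) (s : ℝ) => F (s + ((R / 4 / ((n : ℝ) + 1) : ℝ) : ℂ) * I)) ?_ ?_
    · intro n
      apply hne
      · positivity
      · rw [abs_of_pos (by positivity)]
        have : R / 4 / ((n : ℝ) + 1) ≤ R / 4 := by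
          apply div_le_self (by positivity); have := (Nat.cast_nonneg n : (0:ℝ) ≤ n); linarith
        linarith
    · rw [ae_restrict_iff' measurableSet_Ioo]
      filter_upwards [hlim] with x hx hx2
      have := (hx (by have := abs_lt.2 hx2; linarith)).comp ht2
      simpa [Function.comp_def] using this
  · exact hne y h0 hy

lemma int_line (hR : 0 < R) (hM : ∀ w ∈ ball (0 : ℂ) R, ‖F w‖ ≤ M)
    (hd : DifferentiableOn ℂ F {w | w ∈ ball (0 : ℂ) R ∧ w.im ≠ 0})
    (hlim : ∀ᵐ x : ℝ, |x| < R → Tendsto (fun y : ℝ => F (x + y * I)) (𝓝[≠] 0) (𝓝 (F x)))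
    (y : ℝ) (hy : |y| < R / 2) (p q : ℝ) (hp : |p| < 3 / 4 * R) (hq : |q| < 3 / 4 * R) :
    IntervalIntegrable (fun s : ℝ => F (s + y * I)) volume p q := by
  have h1 : IntegrableOn (fun s : ℝ => F (s + y * I)) (Ioo (-(3 / 4 * R)) (3 / 4 * R)) := by
    refine Integrable.of_bound (meas_line hR hd hlim y hy) M ?_
    · rw [ae_restrict_iff' measurableSet_Ioo]
      exact Eventually.of_forall fun s hs => hM _ (mem_big (abs_lt.2 hs) hy)
  rw [intervalIntegrable_iff]
  apply h1.mono_set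
  intro s hs
  have h2 := uIoc_subset_uIcc hs
  have h3 : [[p, q]] ⊆ Ioo (-(3 / 4 * R)) (3 / 4 * R) := by
    apply (ordConnected_Ioo).uIcc_subset
    · exact abs_lt.1 hp
    · exact abs_lt.1 hq
  exact h3 h2

/-- horizontal averages -/
noncomputable def Q (F : ℂ → ℂ) (h : ℝ) (z : ℂ) : ℂ :=
  ((h⁻¹ : ℝ) : ℂ) * ∫ s in z.re..(z.re + h), F (s + z.im * I)

lemma Q_eq (h : ℝ) (hh : h ≠ 0) (z : ℂ) : Q F h z = ∫ t in (0:ℝ)..1, F (z + ((h * t : ℝ) : ℂ)) := by
  unfold Q
  have h1 := intervalIntegral.integral_comp_mul_add (a := 0) (b := 1)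
    (fun s : ℝ => F (s + z.im * I)) hh z.re
  have e : (fun t : ℝ => F (((h * t + z.re : ℝ) : ℂ) + z.im * I)) =
      fun t : ℝ => F (z + ((h * t : ℝ) : ℂ)) := by
    funext t
    congr 1
    apply Complex.ext <;> simp
    ring
  rw [e] at h1
  rw [h1, mul_zero, zero_add, mul_one, add_comm h z.re]
  simp

lemma Q_lip (hR : 0 < R) (hM : ∀ w ∈ ball (0 : ℂ) R, ‖F w‖ ≤ M)
    (hd : DifferentiableOn ℂ F {w | w ∈ ball (0 : ℂ) R ∧ w.im ≠ 0})
    (hlim : ∀ᵐ x : ℝ, |x| < R → Tendsto (fun y : ℝ => F (x + y * I)) (𝓝[≠] 0) (𝓝 (F x)))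
    (h : ℝ) (hh : 0 < h) (hh2 : h < R / 4) (y : ℝ) (hy : |y| < R / 2) (x x₀ : ℝ)
    (hx : |x| < R / 2) (hx₀ : |x₀| < R / 2) :
    ‖Q F h (x + y * I) - Q F h (x₀ + y * I)‖ ≤ h⁻¹ * (2 * M * |x - x₀|) := by
  have b1 : |x| < 3 / 4 * R := by linarith
  have b2 : |x₀| < 3 / 4 * R := by linarith
  have b3 : |x + h| < 3 / 4 * R := by
    have := abs_add_le x h; rw [abs_of_pos hh] at this; linarith
  have b4 : |x₀ + h| < 3 / 4 * R := by
    have := abs_add_le x₀ h; rw [abs_of_pos hh] at this; linarith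
  have hI := fun p q hp hq => int_line hR hM hd hlim y hy p q hp hq
  unfold Q
  simp only [add_re, ofReal_re, mul_re, I_re, mul_zero, ofReal_im, I_im, mul_one, sub_self,
    add_zero, add_im, mul_im, zero_add]
  rw [← mul_sub, norm_mul, Complex.norm_real, Real.norm_of_nonneg (by positivity)]
  apply mul_le_mul_of_nonneg_left _ (by positivity)
  rw [intervalIntegral.integral_interval_sub_interval_comm (hI _ _ b1 b3) (hI _ _ b2 b4)
    (hI _ _ b1 b2)]
  have hb : ∀ p q : ℝ, |p| < 3 / 4 * R → |q| < 3 / 4 * R →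
      ‖∫ s in p..q, F (s + y * I)‖ ≤ M * |q - p| := by
    intro p q hp hq
    apply intervalIntegral.norm_integral_le_of_norm_le_const
    intro s hs
    apply hM
    apply mem_big _ hy
    have h2 := uIoc_subset_uIcc hs
    have h3 : [[p, q]] ⊆ Ioo (-(3 / 4 * R)) (3 / 4 * R) := by
      apply (ordConnected_Ioo).uIcc_subset
      · exact abs_lt.1 hp
      · exact abs_lt.1 hq
    exact abs_lt.2 (h3 h2)
  refine (norm_sub_le _ _).trans ?_
  have e1 := hb _ _ b1 b2
  have e2 := hb _ _ b3 b4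
  have e3 : |x₀ + h - (x + h)| = |x - x₀| := by
    rw [abs_sub_comm]; congr 1; ring
  have e4 : |x₀ - x| = |x - x₀| := abs_sub_comm _ _
  rw [e3] at e2
  rw [e4] at e1
  linarith

lemma Q_vert (hR : 0 < R) (hM : ∀ w ∈ ball (0 : ℂ) R, ‖F w‖ ≤ M)
    (hd : DifferentiableOn ℂ F {w | w ∈ ball (0 : ℂ) R ∧ w.im ≠ 0})
    (hlim : ∀ᵐ x : ℝ, |x| < R → Tendsto (fun y : ℝ => F (x + y * I)) (𝓝[≠] 0) (𝓝 (F x)))
    (h : ℝ) (hh : 0 < h) (hh2 : h < R / 4) (x₀ : ℝ) (hx₀ : |x₀| < R / 2) :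
    ContinuousAt (fun y : ℝ => Q F h (x₀ + y * I)) 0 := by
  rw [continuousAt_iff_punctured_nhds]
  have b2 : |x₀| < 3 / 4 * R := by linarith
  have b4 : |x₀ + h| < 3 / 4 * R := by
    have := abs_add_le x₀ h; rw [abs_of_pos hh] at this; linarith
  unfold Q
  simp only [add_re, ofReal_re, mul_re, I_re, mul_zero, ofReal_im, I_im, mul_one, sub_self,
    add_zero, add_im, mul_im, zero_add, ofReal_zero, zero_mul]
  apply Tendsto.const_mul
  have hsub : ∀ s, s ∈ Ι x₀ (x₀ + h) → |s| < 3 / 4 * R := by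
    intro s hs
    have h2 := uIoc_subset_uIcc hs
    have h3 : [[x₀, x₀ + h]] ⊆ Ioo (-(3 / 4 * R)) (3 / 4 * R) := by
      apply (ordConnected_Ioo).uIcc_subset
      · exact abs_lt.1 b2
      · exact abs_lt.1 b4
    exact abs_lt.2 (h3 h2)
  have hev : ∀ᶠ y : ℝ in 𝓝[≠] 0, |y| < R / 2 := by
    apply nhdsWithin_le_nhds
    have : Tendsto (fun y : ℝ => |y|) (𝓝 0) (𝓝 |0|) := continuous_abs.tendsto 0
    rw [abs_zero] at this
    exact this.eventually_lt_const (by positivity)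
  apply intervalIntegral.tendsto_integral_filter_of_dominated_convergence (fun _ => M)
  · filter_upwards [hev] with y hy
    exact (int_line hR hM hd hlim y hy _ _ b2 b4).aestronglyMeasurable_restrict_uIoc
  · filter_upwards [hev] with y hy
    exact Eventually.of_forall fun s hs => hM _ (mem_big (hsub s hs) hy)
  · exact intervalIntegrable_const
  · filter_upwards [hlim] with s hs hs2
    exact hs (by have := hsub s hs2; linarith)

lemma Q_diff (hM : ∀ w ∈ ball (0 : ℂ) R, ‖F w‖ ≤ M)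
    (hd : DifferentiableOn ℂ F {w | w ∈ ball (0 : ℂ) R ∧ w.im ≠ 0})
    (h : ℝ) (hh : 0 < h) (hh2 : h < R / 4) :
    DifferentiableOn ℂ (Q F h) {w | w ∈ ball (0 : ℂ) (R / 2) ∧ w.im ≠ 0} := by
  set cl : ℝ → ℝ := fun t => max 0 (min 1 t) with hcl
  have hcl0 : ∀ t, 0 ≤ cl t ∧ cl t ≤ 1 := fun t =>
    ⟨le_max_left _ _, max_le (by norm_num) (min_le_left _ _)⟩
  have hclc : Continuous cl := by fun_prop
  have hmem : ∀ t : ℝ, ∀ z ∈ {w | w ∈ ball (0 : ℂ) (R / 2) ∧ w.im ≠ 0},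
      z + ((h * cl t : ℝ) : ℂ) ∈ {w | w ∈ ball (0 : ℂ) R ∧ w.im ≠ 0} := by
    intro t z hz
    obtain ⟨hz1, hz2⟩ := hz
    have hc := hcl0 t
    refine ⟨?_, by simpa using hz2⟩
    rw [mem_ball_zero_iff] at hz1 ⊢
    have h1 := norm_add_le z ((h * cl t : ℝ) : ℂ)
    rw [Complex.norm_real, Real.norm_of_nonneg (by have := hc.1; positivity)] at h1
    have : h * cl t ≤ h * 1 := mul_le_mul_of_nonneg_left hc.2 hh.le
    linarith
  have hopen : IsOpen {w : ℂ | w ∈ ball (0 : ℂ) (R / 2) ∧ w.im ≠ 0} :=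
    isOpen_ball.inter (isOpen_ne_fun Complex.continuous_im continuous_const)
  have key := Pool.Agent.HP.differentiableOn_integral (X := ℂ) (E := ℂ)
    (volume.restrict (Ioc (0:ℝ) 1))
    (fun (t : ℝ) (z : ℂ) => F (z + ((h * cl t : ℝ) : ℂ)))
    {w | w ∈ ball (0 : ℂ) (R / 2) ∧ w.im ≠ 0} hopen ?_ ?_ (fun _ => M) ?_ ?_
  · apply key.congr
    intro z hz
    rw [Q_eq h hh.ne', intervalIntegral.integral_of_le zero_le_one]
    apply setIntegral_congr_fun measurableSet_Ioc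
    intro t ht
    have : cl t = t := by
      rw [hcl]; simp only
      rw [min_eq_right ht.2, max_eq_right ht.1.le]
    simp only [this]
  · intro z hz
    apply Continuous.aestronglyMeasurable
    rw [← continuousOn_univ]
    apply hd.continuousOn.comp (by fun_prop)
    intro t _
    exact hmem t z hz
  · intro t
    apply hd.comp (by fun_prop)
    intro z hz
    exact hmem t z hz
  · exact integrable_const _
  · intro t z hz
    exact hM _ (hmem t z hz).1

lemma Q_cont (hR : 0 < R) (hM : ∀ w ∈ ball (0 : ℂ) R, ‖F w‖ ≤ M)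
    (hd : DifferentiableOn ℂ F {w | w ∈ ball (0 : ℂ) R ∧ w.im ≠ 0})
    (hlim : ∀ᵐ x : ℝ, |x| < R → Tendsto (fun y : ℝ => F (x + y * I)) (𝓝[≠] 0) (𝓝 (F x)))
    (h : ℝ) (hh : 0 < h) (hh2 : h < R / 4) : ContinuousOn (Q F h) (ball 0 (R / 2)) := by
  intro z hz
  rcases eq_or_ne z.im 0 with h0 | h0
  · apply ContinuousAt.continuousWithinAt
    have hzx : z = (z.re : ℂ) := by
      apply Complex.ext <;> simp [h0]
    have hre := (abs_re_im_lt hz).1
    have h1 := Q_vert hR hM hd hlim h hh hh2 z.re hre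
    have h2 : Tendsto (fun w : ℂ => h⁻¹ * (2 * M * |w.re - z.re|) +
        ‖Q F h (z.re + w.im * I) - Q F h (z.re + (0:ℝ) * I)‖) (𝓝 z) (𝓝 0) := by
      have t1 : Tendsto (fun w : ℂ => h⁻¹ * (2 * M * |w.re - z.re|)) (𝓝 z) (𝓝 0) := by
        have : Tendsto (fun w : ℂ => h⁻¹ * (2 * M * |w.re - z.re|)) (𝓝 z)
            (𝓝 (h⁻¹ * (2 * M * |z.re - z.re|))) := by
          apply Continuous.tendsto; fun_prop
        simpa using this
      have t2 : Tendsto (fun w : ℂ => ‖Q F h (z.re + w.im * I) - Q F h (z.re + (0:ℝ) * I)‖)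
          (𝓝 z) (𝓝 0) := by
        have him : Tendsto (fun w : ℂ => w.im) (𝓝 z) (𝓝 0) := by
          have := Complex.continuous_im.tendsto z
          rwa [h0] at this
        have h3 := (h1.tendsto.comp him).sub_const (Q F h (z.re + (0:ℝ) * I))
        simp only [Function.comp_def, sub_self] at h3
        have h4 := h3.norm
        simpa using h4
      simpa using t1.add t2
    rw [ContinuousAt, tendsto_iff_norm_sub_tendsto_zero]
    refine squeeze_zero' (Eventually.of_forall fun _ => norm_nonneg _) ?_ h2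
    filter_upwards [isOpen_ball.mem_nhds hz] with w hw
    have hw' := abs_re_im_lt hw
    have e1 : w = (w.re : ℂ) + w.im * I := (Complex.re_add_im w).symm
    have e2 : Q F h z = Q F h (z.re + (0:ℝ) * I) := by
      congr 1
      rw [ofReal_zero, zero_mul, add_zero]; exact hzx
    have e3 : Q F h w = Q F h ((w.re : ℂ) + w.im * I) := by rw [← e1]
    rw [e2, e3]
    calc ‖Q F h (↑w.re + ↑w.im * I) - Q F h (↑z.re + ↑(0:ℝ) * I)‖
        = ‖(Q F h (↑w.re + ↑w.im * I) - Q F h (↑z.re + ↑w.im * I)) +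
          (Q F h (↑z.re + ↑w.im * I) - Q F h (↑z.re + ↑(0:ℝ) * I))‖ := by
            congr 1; ring
      _ ≤ _ := (norm_add_le _ _).trans (add_le_add
          (Q_lip hR hM hd hlim h hh hh2 w.im hw'.2 _ _ hw'.1 hre) le_rfl)
  · have hopen : IsOpen {w : ℂ | w ∈ ball (0 : ℂ) (R / 2) ∧ w.im ≠ 0} :=
      isOpen_ball.inter (isOpen_ne_fun Complex.continuous_im continuous_const)
    exact ((Q_diff hM hd h hh hh2).differentiableAt
      (hopen.mem_nhds ⟨hz, h0⟩)).continuousAt.continuousWithinAt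

end ext

end H809R3.T
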