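import Pool.Agent.H809R3.T2

set_option autoImplicit false
open Complex Metric Set Filter Topology MeasureTheory intervalIntegral
open scoped ComplexConjugate Interval

namespace H809R3.T

variable {F : ℂ → ℂ} {R M : ℝ}

/-- the steps -/
noncomputable def hn (R : ℝ) (n : ℕ) : ℝ := R / 8 / ((n : ℝ) + 1)

lemma hn_pos (hR : 0 < R) (n : ℕ) : 0 < hn R n := by unfold hn; positivity

lemma hn_lt (hR : 0 < R) (n : ℕ) : hn R n < R / 4 := by
  unfold hn
  have : R / 8 / ((n : ℝ) + 1) ≤ R / 8 := by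
    apply div_le_self (by positivity); have := (Nat.cast_nonneg n : (0:ℝ) ≤ n); linarith
  linarith

lemma hn_tendsto (R : ℝ) : Tendsto (hn R) atTop (𝓝 0) := by
  have := (tendsto_one_div_add_atTop_nhds_zero_nat (𝕜 := ℝ)).const_mul (R / 8)
  unfold hn
  simpa [div_eq_mul_inv] using this

lemma Q_bound (hR : 0 < R) (hM : ∀ w ∈ ball (0 : ℂ) R, ‖F w‖ ≤ M) (h : ℝ) (hh : 0 < h)
    (hh2 : h < R / 4) (z : ℂ) (hz : z ∈ ball (0 : ℂ) (R / 2)) : ‖Q F h z‖ ≤ M := by
  rw [Q_eq h hh.ne']
  have := intervalIntegral.norm_integral_le_of_norm_le_const (a := (0:ℝ)) (b := 1) (C := M)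
    (f := fun t : ℝ => F (z + ((h * t : ℝ) : ℂ))) (by
      intro t ht
      rw [uIoc_of_le zero_le_one] at ht
      apply hM
      rw [mem_ball_zero_iff] at hz ⊢
      have h1 := norm_add_le z ((h * t : ℝ) : ℂ)
      rw [Complex.norm_real, Real.norm_of_nonneg (by have := ht.1; positivity)] at h1
      have : h * t ≤ h * 1 := mul_le_mul_of_nonneg_left ht.2 hh.le
      linarith)
  simpa using this

lemma Q_tendsto (hR : 0 < R) (hM : ∀ w ∈ ball (0 : ℂ) R, ‖F w‖ ≤ M)
    (hd : DifferentiableOn ℂ F {w | w ∈ ball (0 : ℂ) R ∧ w.im ≠ 0})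
    (z : ℂ) (hz : z ∈ ball (0 : ℂ) (R / 2)) (hz0 : z.im ≠ 0) :
    Tendsto (fun n => Q F (hn R n) z) atTop (𝓝 (F z)) := by
  have e : (fun n => Q F (hn R n) z) = fun n => ∫ t in (0:ℝ)..1, F (z + ((hn R n * t : ℝ) : ℂ)) := by
    funext n
    exact Q_eq _ (hn_pos hR n).ne' z
  rw [e]
  have e2 : F z = ∫ t in (0:ℝ)..1, F z := by simp
  rw [e2]
  have hmem : ∀ n, ∀ t ∈ Ι (0:ℝ) 1, z + ((hn R n * t : ℝ) : ℂ) ∈
      {w | w ∈ ball (0 : ℂ) R ∧ w.im ≠ 0} := by
    intro n t ht
    rw [uIoc_of_le zero_le_one] at ht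
    refine ⟨?_, by simpa using hz0⟩
    rw [mem_ball_zero_iff] at hz ⊢
    have h1 := norm_add_le z ((hn R n * t : ℝ) : ℂ)
    have h0 := hn_pos hR n
    have h2 := hn_lt hR n
    rw [Complex.norm_real, Real.norm_of_nonneg (by have := ht.1; positivity)] at h1
    have : hn R n * t ≤ hn R n * 1 := mul_le_mul_of_nonneg_left ht.2 h0.le
    linarith
  have hopen : IsOpen {w : ℂ | w ∈ ball (0 : ℂ) R ∧ w.im ≠ 0} :=
    isOpen_ball.inter (isOpen_ne_fun Complex.continuous_im continuous_const)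
  have hzR : z ∈ {w : ℂ | w ∈ ball (0 : ℂ) R ∧ w.im ≠ 0} := by
    refine ⟨?_, hz0⟩
    rw [mem_ball_zero_iff] at hz ⊢; linarith
  apply intervalIntegral.tendsto_integral_filter_of_dominated_convergence (fun _ => M)
  · refine Eventually.of_forall fun n => ?_
    apply ContinuousOn.aestronglyMeasurable _ measurableSet_uIoc
    apply hd.continuousOn.comp (by fun_prop)
    intro t ht
    exact hmem n t ht
  · refine Eventually.of_forall fun n => Eventually.of_forall fun t ht => hM _ (hmem n t ht).1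
  · exact intervalIntegrable_const
  · refine Eventually.of_forall fun t _ => ?_
    have hc : ContinuousAt F z := (hd.differentiableAt (hopen.mem_nhds hzR)).continuousAt
    have h2 : Tendsto (fun n => z + ((hn R n * t : ℝ) : ℂ)) atTop (𝓝 z) := by
      have h3 := ((hn_tendsto R).mul_const t)
      have h4 : Tendsto (fun n => ((hn R n * t : ℝ) : ℂ)) atTop (𝓝 (((0 * t : ℝ)) : ℂ)) :=
        (Complex.continuous_ofReal.tendsto _).comp h3
      have h5 := h4.const_add z
      simpa using h5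
    exact hc.tendsto.comp h2

theorem ext_axis (hR : 0 < R) (hM : ∀ w ∈ ball (0 : ℂ) R, ‖F w‖ ≤ M)
    (hd : DifferentiableOn ℂ F {w | w ∈ ball (0 : ℂ) R ∧ w.im ≠ 0})
    (hlim : ∀ᵐ x : ℝ, |x| < R → Tendsto (fun y : ℝ => F (x + y * I)) (𝓝[≠] 0) (𝓝 (F x))) :
    ∃ G : ℂ → ℂ, DifferentiableOn ℂ G (ball 0 (R / 4)) ∧ (∀ w ∈ ball (0 : ℂ) (R / 4), ‖G w‖ ≤ M) ∧
      ∀ w ∈ ball (0 : ℂ) (R / 4), w.im ≠ 0 → G w = F w := by
  have hρ0 : 0 < R / 4 := by positivity
  set ρ : NNReal := ⟨R / 4, hρ0.le⟩ with hρ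
  have hρR : (ρ : ℝ) = R / 4 := rfl
  have hQd : ∀ n, DifferentiableOn ℂ (Q F (hn R n)) (ball 0 (R / 2)) := fun n =>
    holo_of_continuous (Q_cont hR hM hd hlim _ (hn_pos hR n) (hn_lt hR n))
      (Q_diff hM hd _ (hn_pos hR n) (hn_lt hR n))
  have hsub : closedBall (0 : ℂ) (ρ : ℝ) ⊆ ball 0 (R / 2) := by
    rw [hρR]; exact closedBall_subset_ball (by linarith)
  have hcm : ∀ θ, circleMap 0 (ρ : ℝ) θ ∈ ball (0 : ℂ) (R / 2) := fun θ =>
    hsub (circleMap_mem_closedBall 0 ρ.2 θ)
  -- almost every point of the circle is off the axis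
  have hae : ∀ᵐ θ : ℝ, (circleMap 0 (ρ : ℝ) θ).im ≠ 0 := by
    have hcount : (Set.range fun n : ℤ => (n : ℝ) * Real.pi).Countable := countable_range _
    have h0 : volume (Set.range fun n : ℤ => (n : ℝ) * Real.pi) = 0 := hcount.measure_zero _
    have h1 : ∀ᵐ θ : ℝ, θ ∉ Set.range fun n : ℤ => (n : ℝ) * Real.pi := measure_eq_zero_iff_ae_notMem.1 h0
    filter_upwards [h1] with θ hθ h2
    apply hθ
    have h3 : (circleMap 0 (ρ : ℝ) θ).im = ρ * Real.sin θ := by
      rw [circleMap, zero_add, Complex.exp_mul_I]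
      simp
      left
      exact Complex.sin_ofReal_re θ
    rw [h3] at h2
    have h4 : Real.sin θ = 0 := by
      rcases mul_eq_zero.1 h2 with h | h
      · exfalso; rw [hρR] at h; linarith
      · exact h
    obtain ⟨n, hn'⟩ := Real.sin_eq_zero_iff.1 h4
    exact ⟨n, hn'⟩
  have hlimθ : ∀ᵐ θ : ℝ, Tendsto (fun n => Q F (hn R n) (circleMap 0 (ρ : ℝ) θ)) atTop
      (𝓝 (F (circleMap 0 (ρ : ℝ) θ))) := by
    filter_upwards [hae] with θ hθ
    exact Q_tendsto hR hM hd _ (hcm θ) hθ
  have hQc : ∀ n, Continuous fun θ => Q F (hn R n) (circleMap 0 (ρ : ℝ) θ) := by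
    intro n
    rw [← continuousOn_univ]
    exact (hQd n).continuousOn.comp (continuous_circleMap 0 _).continuousOn (fun θ _ => hcm θ)
  have hmeas : AEStronglyMeasurable (fun θ => F (circleMap 0 (ρ : ℝ) θ)) volume :=
    aestronglyMeasurable_of_tendsto_ae atTop (fun n => (hQc n).aestronglyMeasurable) hlimθ
  have hFb : ∀ θ, ‖F (circleMap 0 (ρ : ℝ) θ)‖ ≤ M := fun θ => hM _ (by
    have := hcm θ
    rw [mem_ball_zero_iff] at this ⊢; linarith)
  have hCI : CircleIntegrable F 0 ρ := by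
    unfold CircleIntegrable
    rw [intervalIntegrable_iff_integrableOn_Ioc_of_le (by positivity)]
    exact Integrable.of_bound hmeas.restrict M (Eventually.of_forall hFb)
  have hser := hasFPowerSeriesOn_cauchy_integral hCI (show 0 < ρ from by exact_mod_cast hρ0)
  set G : ℂ → ℂ := fun w => (2 * Real.pi * I : ℂ)⁻¹ • ∮ z in C(0, ρ), (z - w)⁻¹ • F z with hG
  have hGd : DifferentiableOn ℂ G (ball 0 (R / 4)) := by
    have h1 := hser.differentiableOn
    have h2 : Metric.eball (0 : ℂ) (ρ : ENNReal) = ball 0 (R / 4) := by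
      rw [Metric.eball_coe]
      rfl
    rwa [h2] at h1
  have hGF : ∀ w ∈ ball (0 : ℂ) (R / 4), w.im ≠ 0 → G w = F w := by
    intro w hw hw0
    have hwρ : w ∈ ball (0 : ℂ) (ρ : ℝ) := hw
    have hc : ∀ n, ((2 * Real.pi * I : ℂ)⁻¹ • ∮ z in C(0, ρ), (z - w)⁻¹ • Q F (hn R n) z) =
        Q F (hn R n) w := by
      intro n
      apply two_pi_I_inv_smul_circleIntegral_sub_inv_smul_of_differentiable_on_off_countable
        countable_empty hwρ
      · exact (hQd n).continuousOn.mono hsub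
      · intro x hx
        exact (hQd n).differentiableAt (isOpen_ball.mem_nhds (hsub (ball_subset_closedBall hx.1)))
    have h1 : Tendsto (fun n => (2 * Real.pi * I : ℂ)⁻¹ • ∮ z in C(0, ρ), (z - w)⁻¹ •
        Q F (hn R n) z) atTop (𝓝 (G w)) := by
      rw [hG]
      apply Tendsto.const_smul
      unfold circleIntegral
      have hwn : ‖w‖ < R / 4 := by simpa using hw
      have hdist : ∀ θ : ℝ, R / 4 - ‖w‖ ≤ ‖circleMap 0 (ρ : ℝ) θ - w‖ := by
        intro θ
        have h2 := norm_sub_norm_le (circleMap 0 (ρ : ℝ) θ) w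
        rw [norm_circleMap_zero, NNReal.abs_eq] at h2
        exact h2
      apply intervalIntegral.tendsto_integral_filter_of_dominated_convergence
        (fun _ => (R / 4) * ((R / 4 - ‖w‖)⁻¹ * M))
      · refine Eventually.of_forall fun n => ?_
        apply Continuous.aestronglyMeasurable
        apply Continuous.fun_smul
        · have e : deriv (circleMap (0:ℂ) (ρ : ℝ)) = fun θ => circleMap 0 (ρ : ℝ) θ * I := by
            funext θ; exact deriv_circleMap _ _ _
          rw [e]; fun_prop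
        · apply Continuous.fun_smul _ (hQc n)
          apply Continuous.fun_inv₀ (by fun_prop)
          intro θ h0
          have := hdist θ
          rw [h0, norm_zero] at this
          linarith
      · refine Eventually.of_forall fun n => Eventually.of_forall fun θ _ => ?_
        rw [norm_smul, norm_smul]
        have h2 : ‖deriv (circleMap 0 (ρ : ℝ)) θ‖ = R / 4 := by
          rw [deriv_circleMap, norm_mul, norm_circleMap_zero, Complex.norm_I, mul_one,
            NNReal.abs_eq]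
          rfl
        rw [h2]
        apply mul_le_mul_of_nonneg_left _ hρ0.le
        apply mul_le_mul
        · rw [norm_inv]
          exact inv_anti₀ (by linarith) (hdist θ)
        · exact Q_bound hR hM _ (hn_pos hR n) (hn_lt hR n) _ (hcm θ)
        · exact norm_nonneg _
        · apply inv_nonneg.2; linarith
      · exact intervalIntegrable_const
      · filter_upwards [hlimθ] with θ hθ _
        exact (hθ.const_smul _).const_smul _
    simp only [hc] at h1
    have h2 := Q_tendsto hR hM hd w (by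
      rw [mem_ball_zero_iff] at hw ⊢; linarith) hw0
    exact tendsto_nhds_unique h1 h2
  refine ⟨G, hGd, ?_, hGF⟩
  intro w hw
  have hcw : ContinuousAt G w := (hGd.differentiableAt (isOpen_ball.mem_nhds hw)).continuousAt
  -- approximate by points off the axis
  have ht : Tendsto (fun n : ℕ => w + ((1 / ((n : ℝ) + 1) : ℝ) : ℂ) * I) atTop (𝓝 w) := by
    have h1 := tendsto_one_div_add_atTop_nhds_zero_nat (𝕜 := ℝ)
    have h2 : Tendsto (fun n : ℕ => ((1 / ((n : ℝ) + 1) : ℝ) : ℂ)) atTop (𝓝 ((0:ℝ) : ℂ)) :=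
      (Complex.continuous_ofReal.tendsto _).comp h1
    have h3 := (h2.mul_const I).const_add w
    simpa using h3
  have h1 := (hcw.tendsto.comp ht).norm
  refine le_of_tendsto h1 ?_
  have hin : ∀ᶠ n : ℕ in atTop, w + ((1 / ((n : ℝ) + 1) : ℝ) : ℂ) * I ∈ ball (0:ℂ) (R / 4) :=
    ht (isOpen_ball.mem_nhds hw)
  by_cases h0 : 0 ≤ w.im
  · filter_upwards [hin] with n hn'
    simp only [Function.comp]
    rw [hGF _ hn']
    · apply hM
      rw [mem_ball_zero_iff] at hn' ⊢; linarith
    · simp only [add_im, mul_im, ofReal_re, I_im, mul_one, ofReal_im, I_re, mul_zero, add_zero]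
      have : 0 < 1 / ((n : ℝ) + 1) := by positivity
      linarith
  · have hev : ∀ᶠ n : ℕ in atTop, 1 / ((n : ℝ) + 1) < -w.im :=
      (tendsto_one_div_add_atTop_nhds_zero_nat (𝕜 := ℝ)).eventually_lt_const (by linarith)
    filter_upwards [hin, hev] with n hn' hn2
    simp only [Function.comp]
    rw [hGF _ hn']
    · apply hM
      rw [mem_ball_zero_iff] at hn' ⊢; linarith
    · simp only [add_im, mul_im, ofReal_re, I_im, mul_one, ofReal_im, I_re, mul_zero, add_zero]
      linarith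

end H809R3.T
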