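import Pool.Agent.H809R3.T3

set_option autoImplicit false
open Complex Metric Set Filter Topology MeasureTheory
open scoped ComplexConjugate

namespace H809R3.T

lemma exp_lt1 {x : ℝ} (h : x < 0) : Real.exp x < 1 := by
  rw [← Real.exp_zero]; exact Real.exp_lt_exp.2 h

lemma norm_exp_sub_one_lt {w : ℂ} {s : ℝ} (hs : s ≤ 1) (hw : ‖w‖ < s / 2) :
    ‖Complex.exp (I * w) - 1‖ < s := by
  have h3 := Complex.norm_exp_sub_sum_le_norm_mul_exp (I * w) 1
  simp only [Finset.sum_range_one, pow_zero, Nat.factorial_zero, Nat.cast_one, div_one, pow_one,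
    norm_mul, Complex.norm_I, one_mul] at h3
  have h0 := norm_nonneg w
  have h1 : Real.exp ‖w‖ ≤ 2 := by
    have h2 : Real.exp ‖w‖ ≤ Real.exp (1 / 2) := Real.exp_le_exp.2 (by linarith)
    have h4 : Real.exp (1 / 2) ^ 2 ≤ 2 ^ 2 := by
      rw [← Real.exp_nat_mul]
      have : ((2 : ℕ) : ℝ) * (1 / 2) = 1 := by norm_num
      rw [this]
      have := Real.exp_one_lt_d9
      linarith
    have h5 : Real.exp (1 / 2) ≤ 2 := by
      nlinarith [Real.exp_pos (1 / 2)]
    linarith
  nlinarith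

theorem ext_disc (Θ : ℂ → ℂ) (hΘd : DifferentiableOn ℂ Θ (ball 0 1))
    (hΘ1 : ∀ z ∈ ball (0 : ℂ) 1, ‖Θ z‖ ≤ 1)
    (hrad : ∀ᵐ θ : ℝ, ∃ w : ℂ, ‖w‖ = 1 ∧
      Tendsto (fun r : ℝ => Θ ((r : ℂ) * Complex.exp ((θ : ℂ) * I))) (𝓝[<] 1) (𝓝 w))
    (θ₀ s ε : ℝ) (hs : 0 < s) (hs1 : s ≤ 1) (hε : 0 < ε) (hε1 : ε < 1)
    (hlow : ∀ z ∈ ball (0 : ℂ) 1, ‖z - Complex.exp (θ₀ * I)‖ < s → ε ≤ ‖Θ z‖) :
    ∃ g : ℂ → ℂ, DifferentiableOn ℂ g (ball (Complex.exp (θ₀ * I)) (s / 16)) ∧
      (∀ z ∈ ball (Complex.exp (θ₀ * I)) (s / 16), ‖g z‖ ≤ 1 / ε) ∧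
      EqOn g Θ (ball (Complex.exp (θ₀ * I)) (s / 16) ∩ ball 0 1) := by
  classical
  set ζ₀ : ℂ := Complex.exp (θ₀ * I) with hζ₀
  have hζn : ‖ζ₀‖ = 1 := Complex.norm_exp_ofReal_mul_I θ₀
  have hζ0 : ζ₀ ≠ 0 := Complex.exp_ne_zero _
  set Pr : ℝ → Prop := fun θ => ∃ w : ℂ, ‖w‖ = 1 ∧
      Tendsto (fun r : ℝ => Θ ((r : ℂ) * Complex.exp ((θ : ℂ) * I))) (𝓝[<] 1) (𝓝 w) with hPr
  set L : ℝ → ℂ := fun x => if h : Pr (θ₀ + x) then h.choose else 0 with hL
  have hLn : ∀ x, ‖L x‖ ≤ 1 := by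
    intro x
    rw [hL]
    simp only
    split_ifs with h
    · exact h.choose_spec.1.le
    · simp
  set F : ℂ → ℂ := fun w => if 0 < w.im then Θ (ζ₀ * Complex.exp (I * w)) else
    if w.im < 0 then (conj (Θ (ζ₀ * Complex.exp (I * conj w))))⁻¹ else L w.re with hF
  have hFp : ∀ w : ℂ, 0 < w.im → F w = Θ (ζ₀ * Complex.exp (I * w)) := by
    intro w hw; rw [hF]; simp only; rw [if_pos hw]
  have hFm : ∀ w : ℂ, w.im < 0 → F w = (conj (Θ (ζ₀ * Complex.exp (I * conj w))))⁻¹ := by
    intro w hw; rw [hF]; simp only; rw [if_neg (by linarith), if_pos hw]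
  have hF0 : ∀ x : ℝ, F x = L x := by
    intro x; rw [hF]; simp
  -- points
  have hup : ∀ w : ℂ, 0 < w.im → ζ₀ * Complex.exp (I * w) ∈ ball (0 : ℂ) 1 := by
    intro w hw
    rw [mem_ball_zero_iff, norm_mul, hζn, one_mul, Complex.norm_exp]
    simp only [mul_re, I_re, zero_mul, I_im, one_mul, zero_sub]
    exact exp_lt1 (by linarith)
  have hnear : ∀ w : ℂ, ‖w‖ < s / 2 → ‖ζ₀ * Complex.exp (I * w) - ζ₀‖ < s := by
    intro w hw
    have : ζ₀ * Complex.exp (I * w) - ζ₀ = ζ₀ * (Complex.exp (I * w) - 1) := by ring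
    rw [this, norm_mul, hζn, one_mul]
    exact norm_exp_sub_one_lt hs1 hw
  have hb1 : (1 : ℝ) ≤ 1 / ε := by rw [le_div_iff₀ hε]; linarith
  have hM : ∀ w ∈ ball (0 : ℂ) (s / 2), ‖F w‖ ≤ 1 / ε := by
    intro w hw
    rw [mem_ball_zero_iff] at hw
    rcases lt_trichotomy w.im 0 with h | h | h
    · rw [hFm w h, norm_inv, RCLike.norm_conj, one_div]
      have h2 : 0 < (conj w).im := by rw [conj_im]; linarith
      exact inv_anti₀ hε (hlow _ (hup _ h2) (hnear _ (by rwa [RCLike.norm_conj])))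
    · have : w = (w.re : ℂ) := by apply Complex.ext <;> simp [h]
      rw [this, hF0]
      exact (hLn _).trans hb1
    · rw [hFp w h]
      exact (hΘ1 _ (hup w h)).trans hb1
  have hd : DifferentiableOn ℂ F {w | w ∈ ball (0 : ℂ) (s / 2) ∧ w.im ≠ 0} := by
    have hcomp : ∀ w : ℂ, 0 < w.im →
        DifferentiableAt ℂ (fun w => Θ (ζ₀ * Complex.exp (I * w))) w := by
      intro w hw
      have h1 : DifferentiableAt ℂ Θ (ζ₀ * Complex.exp (I * w)) :=
        hΘd.differentiableAt (isOpen_ball.mem_nhds (hup w hw))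
      exact h1.comp w (by fun_prop)
    rintro w ⟨hw, hw0⟩
    apply DifferentiableAt.differentiableWithinAt
    rcases lt_or_gt_of_ne hw0 with h | h
    · have h2 : 0 < (conj w).im := by rw [conj_im]; linarith
      have hne : Θ (ζ₀ * Complex.exp (I * conj w)) ≠ 0 := by
        have h3 := hlow _ (hup _ h2) (hnear _ (by
          rw [RCLike.norm_conj]; simpa using hw))
        intro h4
        rw [h4, norm_zero] at h3
        linarith
      have h5 : DifferentiableAt ℂ (fun u => (Θ (ζ₀ * Complex.exp (I * u)))⁻¹) (conj w) :=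
        (hcomp _ h2).inv hne
      have h6 := h5.conj_conj
      rw [Complex.conj_conj] at h6
      refine h6.congr_of_eventuallyEq ?_
      have hopen : IsOpen {w : ℂ | w.im < 0} := isOpen_lt Complex.continuous_im continuous_const
      filter_upwards [hopen.mem_nhds h] with u hu
      rw [hFm u hu]
      simp [Function.comp]
    · refine (hcomp w h).congr_of_eventuallyEq ?_
      have hopen : IsOpen {w : ℂ | 0 < w.im} := isOpen_lt continuous_const Complex.continuous_im
      filter_upwards [hopen.mem_nhds h] with u hu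
      rw [hFp u hu]
  have hae : ∀ᵐ x : ℝ, Pr (θ₀ + x) :=
    (measurePreserving_add_left volume θ₀).quasiMeasurePreserving.ae hrad
  have hlim : ∀ᵐ x : ℝ, |x| < s / 2 → Tendsto (fun y : ℝ => F (x + y * I)) (𝓝[≠] 0) (𝓝 (F x)) := by
    filter_upwards [hae] with x hx _
    have hLx : ‖L x‖ = 1 ∧ Tendsto (fun r : ℝ => Θ ((r : ℂ) * Complex.exp (((θ₀ + x : ℝ) : ℂ) * I)))
        (𝓝[<] 1) (𝓝 (L x)) := by
      rw [hL]; simp only; rw [dif_pos hx]; exact hx.choose_spec
    rw [hF0, ← nhdsLT_sup_nhdsGT, tendsto_sup]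
    have hid : ∀ y : ℝ, ζ₀ * Complex.exp (I * (x + y * I)) =
        ((Real.exp (-y) : ℝ) : ℂ) * Complex.exp (((θ₀ + x : ℝ) : ℂ) * I) := by
      intro y
      rw [hζ₀, ← Complex.exp_add, Complex.ofReal_exp, ← Complex.exp_add]
      congr 1
      push_cast
      linear_combination y * I_sq
    constructor
    · -- below
      have h1 : Tendsto (fun y : ℝ => Real.exp y) (𝓝[<] 0) (𝓝[<] 1) := by
        apply tendsto_nhdsWithin_iff.2
        refine ⟨?_, ?_⟩
        · have := (Real.continuous_exp.tendsto 0)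
          rw [Real.exp_zero] at this
          exact this.mono_left nhdsWithin_le_nhds
        · filter_upwards [self_mem_nhdsWithin] with y hy
          exact exp_lt1 hy
      have h2 := hLx.2.comp h1
      have h3 : Tendsto (fun z : ℂ => (conj z)⁻¹) (𝓝 (L x)) (𝓝 (conj (L x))⁻¹) := by
        apply Tendsto.inv₀
        · exact Complex.continuous_conj.tendsto _
        · intro h0
          have h4 := hLx.1
          have : ‖conj (L x)‖ = 0 := by rw [h0]; simp
          rw [RCLike.norm_conj] at this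
          linarith
      have h4 : (conj (L x))⁻¹ = L x := by
        have h5 : L x * conj (L x) = 1 := by
          rw [Complex.mul_conj, Complex.normSq_eq_norm_sq, hLx.1]; simp
        exact inv_eq_of_mul_eq_one_left h5
      rw [h4] at h3
      have h5 := h3.comp h2
      refine h5.congr' ?_
      filter_upwards [self_mem_nhdsWithin] with y hy
      simp only [Function.comp]
      rw [hFm _ (by simpa using hy)]
      have : conj ((x : ℂ) + y * I) = x + ((-y : ℝ) : ℂ) * I := by
        simp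
      rw [this, hid (-y), neg_neg]
    · have h1 : Tendsto (fun y : ℝ => Real.exp (-y)) (𝓝[>] 0) (𝓝[<] 1) := by
        apply tendsto_nhdsWithin_iff.2
        refine ⟨?_, ?_⟩
        · have : Tendsto (fun y : ℝ => Real.exp (-y)) (𝓝 0) (𝓝 (Real.exp (-0))) := by
            apply Continuous.tendsto; fun_prop
          rw [neg_zero, Real.exp_zero] at this
          exact this.mono_left nhdsWithin_le_nhds
        · filter_upwards [self_mem_nhdsWithin] with y hy
          exact exp_lt1 (by simpa using hy)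
      have h2 := hLx.2.comp h1
      refine h2.congr' ?_
      filter_upwards [self_mem_nhdsWithin] with y hy
      simp only [Function.comp]
      rw [hFp _ (by simpa using hy), hid y]
  obtain ⟨G, hG1, hG2, hG3⟩ := ext_axis (by positivity : 0 < s / 2) hM hd hlim
  have hlog : ∀ z ∈ ball ζ₀ (s / 16), -I * Complex.log (z / ζ₀) ∈ ball (0 : ℂ) (s / 2 / 4) ∧
      z / ζ₀ ∈ slitPlane ∧ z ≠ 0 := by
    intro z hz
    rw [mem_ball, dist_eq_norm] at hz
    have h1 : ‖z / ζ₀ - 1‖ < s / 16 := by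
      have : z / ζ₀ - 1 = (z - ζ₀) / ζ₀ := by field_simp
      rw [this, norm_div, hζn, div_one]; exact hz
    have h2 := Complex.norm_log_one_add_half_le_self (z := z / ζ₀ - 1) (by linarith)
    rw [add_sub_cancel] at h2
    refine ⟨?_, ?_, ?_⟩
    · rw [mem_ball_zero_iff, norm_mul, norm_neg, Complex.norm_I, one_mul]
      linarith
    · rw [mem_slitPlane_iff]
      left
      have h3 : |(z / ζ₀ - 1).re| ≤ ‖z / ζ₀ - 1‖ := Complex.abs_re_le_norm _
      have h4 := (abs_le.1 (h3.trans h1.le)).1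
      rw [sub_re, one_re] at h4
      linarith
    · rintro rfl
      rw [zero_sub, norm_neg, hζn] at hz
      linarith
  refine ⟨fun z => G (-I * Complex.log (z / ζ₀)), ?_, ?_, ?_⟩
  · intro z hz
    obtain ⟨h1, h2, h3⟩ := hlog z hz
    apply DifferentiableAt.differentiableWithinAt
    have h4 : DifferentiableAt ℂ G (-I * Complex.log (z / ζ₀)) :=
      hG1.differentiableAt (isOpen_ball.mem_nhds h1)
    have h5 : DifferentiableAt ℂ (fun z => -I * Complex.log (z / ζ₀)) z := by
      apply DifferentiableAt.const_mul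
      exact DifferentiableAt.clog (by fun_prop) h2
    exact h4.comp z h5
  · intro z hz
    exact hG2 _ (hlog z hz).1
  · rintro z ⟨hz, hz1⟩
    obtain ⟨h1, h2, h3⟩ := hlog z hz
    have hn : ‖z / ζ₀‖ = ‖z‖ := by rw [norm_div, hζn, div_one]
    have him : 0 < (-I * Complex.log (z / ζ₀)).im := by
      have : (-I * Complex.log (z / ζ₀)).im = -Real.log ‖z‖ := by
        simp [Complex.log_re, hζn]
      rw [this]
      rw [mem_ball_zero_iff] at hz1
      have := Real.log_neg (norm_pos_iff.2 h3) hz1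
      linarith
    simp only
    rw [hG3 _ h1 him.ne', hFp _ him]
    congr 1
    have : I * (-I * Complex.log (z / ζ₀)) = Complex.log (z / ζ₀) := by
      linear_combination (-Complex.log (z / ζ₀)) * I_sq
    rw [this, Complex.exp_log (div_ne_zero h3 hζ0)]
    field_simp

end H809R3.T
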