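import Mathlib

set_option autoImplicit false
open Complex Metric Set Filter Topology MeasureTheory
open scoped ComplexConjugate

namespace H809R3.T

/-! ### modulus of continuity -/

lemma dist_aux (ζ w : ℂ) (h : ℝ) (hh : 0 ≤ h) (hζ : ‖ζ‖ = 1) (hw : ‖w‖ ≤ 1) :
    ‖w - ζ‖ ^ 2 + h ^ 2 ≤ ‖(1 + h : ℝ) * ζ - w‖ ^ 2 := by
  have h1 : ζ.re ^ 2 + ζ.im ^ 2 = 1 := by
    have := Complex.sq_norm ζ
    rw [hζ, Complex.normSq_apply] at this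
    linarith
  have h2 : w.re ^ 2 + w.im ^ 2 ≤ 1 := by
    have := Complex.sq_norm w
    rw [Complex.normSq_apply] at this
    nlinarith [norm_nonneg w]
  have e1 : ‖w - ζ‖ ^ 2 = (w.re - ζ.re) ^ 2 + (w.im - ζ.im) ^ 2 := by
    rw [Complex.sq_norm, Complex.normSq_apply, sub_re, sub_im]; ring
  have e2 : ‖(1 + h : ℝ) * ζ - w‖ ^ 2 = ((1 + h) * ζ.re - w.re) ^ 2 + ((1 + h) * ζ.im - w.im) ^ 2 := by
    rw [Complex.sq_norm, Complex.normSq_apply]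
    simp
    ring
  rw [e1, e2]
  -- Re (conj ζ w) ≤ 1
  have h3 : ζ.re * w.re + ζ.im * w.im ≤ 1 := by
    nlinarith [sq_nonneg (ζ.re - w.re), sq_nonneg (ζ.im - w.im)]
  nlinarith

theorem mod_cont (f : ℂ → ℂ) (hfd : DifferentiableOn ℂ f (ball 0 1))
    (hfc : ContinuousOn f (closedBall 0 1)) (Ω : ℝ → ℝ) (C : ℝ) (hC : 0 ≤ C)
    (hmono : ∀ s t : ℝ, 0 < s → s ≤ t → Ω s ≤ Ω t)
    (hanti : ∀ s t : ℝ, 0 < s → s ≤ t → Ω t * s ≤ Ω s * t)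
    (hΩ0 : ∀ t : ℝ, 0 < t → 0 < Ω t)
    (hb : ∀ ζ ζ' : ℂ, ‖ζ‖ = 1 → ‖ζ'‖ = 1 → ζ ≠ ζ' → ‖f ζ - f ζ'‖ ≤ C * Ω ‖ζ - ζ'‖)
    (z : ℂ) (hz : ‖z‖ < 1) (ζ' : ℂ) (hζ' : ‖ζ'‖ = 1) :
    ‖f z - f ζ'‖ ≤ 2 * C * Ω ‖z - ζ'‖ := by
  set h := ‖z - ζ'‖ with hh
  have hh0 : 0 < h := by
    rw [hh, norm_pos_iff]
    intro h0
    rw [sub_eq_zero] at h0
    rw [h0, hζ'] at hz
    exact lt_irrefl _ hz
  set g : ℂ → ℂ := fun w => (f w - f ζ') * ((h : ℂ) / ((1 + h : ℝ) * ζ' - w)) with hg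
  have hden : ∀ w : ℂ, ‖w‖ ≤ 1 → h ≤ ‖((1 + h : ℝ) : ℂ) * ζ' - w‖ := by
    intro w hw
    have h1 := dist_aux ζ' w h hh0.le hζ' hw
    nlinarith [norm_nonneg (((1 + h : ℝ) : ℂ) * ζ' - w), sq_nonneg (‖w - ζ'‖)]
  have hden0 : ∀ w : ℂ, ‖w‖ ≤ 1 → ((1 + h : ℝ) : ℂ) * ζ' - w ≠ 0 := by
    intro w hw
    rw [← norm_pos_iff]
    exact lt_of_lt_of_le hh0 (hden w hw)
  have hgd : DiffContOnCl ℂ g (ball 0 1) := by
    refine ⟨?_, ?_⟩
    · apply DifferentiableOn.mul (hfd.sub_const _)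
      apply DifferentiableOn.div (by fun_prop) (by fun_prop)
      intro w hw
      exact hden0 w (mem_ball_zero_iff.1 hw).le
    · rw [closure_ball (0:ℂ) one_ne_zero]
      apply ContinuousOn.mul (hfc.sub continuousOn_const)
      apply ContinuousOn.div (by fun_prop) (by fun_prop)
      intro w hw
      exact hden0 w (mem_closedBall_zero_iff.1 hw)
  have hmax : ‖g z‖ ≤ C * Ω h := by
    apply Complex.norm_le_of_forall_mem_frontier_norm_le isBounded_ball hgd _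
      (subset_closure (mem_ball_zero_iff.2 hz))
    intro w hw
    rw [frontier_ball (0:ℂ) one_ne_zero, mem_sphere_zero_iff_norm] at hw
    rcases eq_or_ne w ζ' with rfl | hne
    · rw [hg]
      simp only [sub_self, zero_mul, norm_zero]
      have := hΩ0 h hh0
      positivity
    · have h1 := hb w ζ' hw hζ' hne
      have hd0 : 0 < ‖w - ζ'‖ := by
        rw [norm_pos_iff, sub_ne_zero]; exact hne
      have h2 := dist_aux ζ' w h hh0.le hζ' hw.le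
      have h3 := hden w hw.le
      have h4 : ‖w - ζ'‖ ≤ ‖((1 + h : ℝ) : ℂ) * ζ' - w‖ := by
        nlinarith [norm_nonneg (((1 + h : ℝ) : ℂ) * ζ' - w)]
      set d := ‖w - ζ'‖ with hd
      set N := ‖((1 + h : ℝ) : ℂ) * ζ' - w‖ with hN
      have hN0 : 0 < N := lt_of_lt_of_le hh0 h3
      rw [hg]
      simp only
      rw [norm_mul, norm_div, Complex.norm_real, Real.norm_of_nonneg hh0.le, ← hN,
        mul_div_assoc', div_le_iff₀ hN0]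
      have hCΩ : 0 ≤ C * Ω h := mul_nonneg hC (hΩ0 h hh0).le
      rcases le_total d h with hdh | hdh
      · have h5 := hmono d h hd0 hdh
        calc ‖f w - f ζ'‖ * h ≤ (C * Ω d) * h := mul_le_mul_of_nonneg_right h1 hh0.le
          _ ≤ (C * Ω h) * h := by
              apply mul_le_mul_of_nonneg_right _ hh0.le
              exact mul_le_mul_of_nonneg_left h5 hC
          _ ≤ (C * Ω h) * N := mul_le_mul_of_nonneg_left h3 hCΩ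
      · have h5 := hanti h d hh0 hdh
        calc ‖f w - f ζ'‖ * h ≤ (C * Ω d) * h := mul_le_mul_of_nonneg_right h1 hh0.le
          _ = C * (Ω d * h) := by ring
          _ ≤ C * (Ω h * d) := mul_le_mul_of_nonneg_left h5 hC
          _ = (C * Ω h) * d := by ring
          _ ≤ (C * Ω h) * N := mul_le_mul_of_nonneg_left h4 hCΩ
  have hN2 : ‖((1 + h : ℝ) : ℂ) * ζ' - z‖ ≤ 2 * h := by
    have : ((1 + h : ℝ) : ℂ) * ζ' - z = (h : ℂ) * ζ' - (z - ζ') := by push_cast; ring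
    rw [this]
    refine (norm_sub_le _ _).trans ?_
    rw [norm_mul, Complex.norm_real, Real.norm_of_nonneg hh0.le, hζ']
    linarith
  have hN3 := hden z hz.le
  have hN0 : 0 < ‖((1 + h : ℝ) : ℂ) * ζ' - z‖ := lt_of_lt_of_le hh0 hN3
  rw [hg] at hmax
  simp only at hmax
  rw [norm_mul, norm_div, Complex.norm_real, Real.norm_of_nonneg hh0.le, mul_div_assoc',
    div_le_iff₀ hN0] at hmax
  have hCΩ : 0 ≤ C * Ω h := mul_nonneg hC (hΩ0 h hh0).le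
  have : ‖f z - f ζ'‖ * h ≤ (2 * C * Ω h) * h := by
    calc _ ≤ _ := hmax
      _ ≤ (C * Ω h) * (2 * h) := mul_le_mul_of_nonneg_left hN2 hCΩ
      _ = _ := by ring
  exact le_of_mul_le_mul_right this hh0

/-! ### Schwarz-Pick and Julia -/

theorem mob_id (a b : ℂ) : ‖1 - (starRingEnd ℂ) b * a‖ ^ 2 - ‖a - b‖ ^ 2 =
    (1 - ‖a‖ ^ 2) * (1 - ‖b‖ ^ 2) := by
  simp only [← Complex.normSq_eq_norm_sq, Complex.normSq_apply, Complex.sub_re, Complex.sub_im,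
    Complex.mul_re, Complex.mul_im, Complex.one_re, Complex.one_im, Complex.conj_re,
    Complex.conj_im]
  ring

theorem mob_ne (a b : ℂ) (ha : ‖a‖ < 1) (hb : ‖b‖ < 1) : 1 - (starRingEnd ℂ) b * a ≠ 0 := by
  intro h
  have h1 : (starRingEnd ℂ) b * a = 1 := (sub_eq_zero.mp h).symm
  have h2 := congrArg norm h1
  rw [norm_mul, RCLike.norm_conj, norm_one] at h2
  nlinarith [norm_nonneg a, norm_nonneg b]

theorem mob_lt (a b : ℂ) (ha : ‖a‖ < 1) (hb : ‖b‖ < 1) :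
    ‖(a - b) / (1 - (starRingEnd ℂ) b * a)‖ < 1 := by
  rw [norm_div, div_lt_one (norm_pos_iff.mpr (mob_ne a b ha hb))]
  have h := mob_id a b
  have h2 : 0 < (1 - ‖a‖ ^ 2) * (1 - ‖b‖ ^ 2) := by
    apply mul_pos <;> nlinarith [norm_nonneg a, norm_nonneg b]
  exact lt_of_pow_lt_pow_left₀ 2 (norm_nonneg _) (by linarith)

theorem schwarz_pick (f : ℂ → ℂ) (hd : DifferentiableOn ℂ f (ball 0 1))
    (hm : ∀ z, ‖z‖ < 1 → ‖f z‖ < 1) (z ζ : ℂ) (hz : ‖z‖ < 1) (hζ : ‖ζ‖ < 1) :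
    ‖1 - (starRingEnd ℂ) (f ζ) * f z‖ ^ 2 * ((1 - ‖z‖ ^ 2) * (1 - ‖ζ‖ ^ 2)) ≤
      ‖1 - (starRingEnd ℂ) ζ * z‖ ^ 2 * ((1 - ‖f z‖ ^ 2) * (1 - ‖f ζ‖ ^ 2)) := by
  set ψ : ℂ → ℂ := fun u => (u - (-ζ)) / (1 - (starRingEnd ℂ) (-ζ) * u) with hψdef
  have hψ : ∀ u, ‖u‖ < 1 → ‖ψ u‖ < 1 := fun u hu => mob_lt u (-ζ) hu (by rwa [norm_neg])
  have hψd : DifferentiableOn ℂ ψ (ball 0 1) := by
    apply DifferentiableOn.div
    · fun_prop
    · fun_prop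
    · intro u hu
      exact mob_ne u (-ζ) (by simpa using hu) (by rwa [norm_neg])
  set F : ℂ → ℂ := fun u => (f (ψ u) - f ζ) / (1 - (starRingEnd ℂ) (f ζ) * f (ψ u)) with hFdef
  have hFd : DifferentiableOn ℂ F (ball 0 1) := by
    have hc : DifferentiableOn ℂ (fun u => f (ψ u)) (ball 0 1) :=
      hd.comp hψd (fun u hu => by
        simpa using hψ u (by simpa using hu))
    apply DifferentiableOn.div
    · exact hc.sub_const _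
    · exact (differentiableOn_const _).sub (hc.const_mul _)
    · intro u hu
      exact mob_ne _ _ (hm _ (hψ u (by simpa using hu))) (hm ζ hζ)
  have hF0 : F 0 = 0 := by
    have h0 : ψ 0 = ζ := by simp [hψdef]
    show (f (ψ 0) - f ζ) / _ = 0
    rw [h0, sub_self, zero_div]
  have hFm : MapsTo F (ball 0 1) (closedBall 0 1) := by
    intro u hu
    rw [mem_closedBall_zero_iff]
    exact (mob_lt _ _ (hm _ (hψ u (by simpa using hu))) (hm ζ hζ)).le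
  have hw : ‖(z - ζ) / (1 - (starRingEnd ℂ) ζ * z)‖ < 1 := mob_lt z ζ hz hζ
  have hD : 1 - (starRingEnd ℂ) ζ * z ≠ 0 := mob_ne z ζ hz hζ
  have hψw : ψ ((z - ζ) / (1 - (starRingEnd ℂ) ζ * z)) = z := by
    obtain ⟨w, hwe⟩ : ∃ w, w = (z - ζ) / (1 - (starRingEnd ℂ) ζ * z) := ⟨_, rfl⟩
    rw [← hwe] at hw ⊢
    have hmul : w * (1 - (starRingEnd ℂ) ζ * z) = z - ζ := by
      rw [hwe]; exact div_mul_cancel₀ _ hD
    have hne : 1 - (starRingEnd ℂ) (-ζ) * w ≠ 0 := mob_ne w (-ζ) hw (by rwa [norm_neg])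
    show (w - (-ζ)) / (1 - (starRingEnd ℂ) (-ζ) * w) = z
    rw [div_eq_iff hne]
    simp only [map_neg]
    linear_combination hmul
  have hS := Complex.norm_le_norm_of_mapsTo_ball hFd hFm hF0 hw
  have hFw : F ((z - ζ) / (1 - (starRingEnd ℂ) ζ * z)) =
      (f z - f ζ) / (1 - (starRingEnd ℂ) (f ζ) * f z) := by
    show (f (ψ _) - f ζ) / (1 - (starRingEnd ℂ) (f ζ) * f (ψ _)) = _
    rw [hψw]
  rw [hFw, norm_div, norm_div, div_le_div_iff₀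
    (norm_pos_iff.mpr (mob_ne _ _ (hm z hz) (hm ζ hζ))) (norm_pos_iff.mpr hD)] at hS
  have hS2 := pow_le_pow_left₀ (by positivity) hS 2
  rw [mul_pow, mul_pow] at hS2
  have h1 := mob_id (f z) (f ζ)
  have h2 := mob_id z ζ
  have h3 : ‖f z - f ζ‖ ^ 2 = ‖1 - (starRingEnd ℂ) (f ζ) * f z‖ ^ 2 -
    (1 - ‖f z‖ ^ 2) * (1 - ‖f ζ‖ ^ 2) := by linarith
  have h4 : ‖z - ζ‖ ^ 2 = ‖1 - (starRingEnd ℂ) ζ * z‖ ^ 2 -
    (1 - ‖z‖ ^ 2) * (1 - ‖ζ‖ ^ 2) := by linarith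
  rw [h3, h4] at hS2
  nlinarith

theorem julia (Θ : ℂ → ℂ) (hd : DifferentiableOn ℂ Θ (ball 0 1))
    (hm : ∀ z, ‖z‖ < 1 → ‖Θ z‖ < 1) (ζ : ℂ) (hζ : ‖ζ‖ = 1) (r : ℝ) (hr : 0 < r) (g : ℂ → ℂ)
    (hg : DifferentiableOn ℂ g (ball ζ r)) (hgΘ : EqOn g Θ (ball ζ r ∩ ball 0 1))
    (hg1 : ‖g ζ‖ = 1) (z : ℂ) (hz : ‖z‖ < 1) :
    ‖1 - conj (g ζ) * Θ z‖ ^ 2 * (1 - ‖z‖ ^ 2) ≤
      ‖1 - conj ζ * z‖ ^ 2 * ((1 - ‖Θ z‖ ^ 2) * ‖deriv g ζ‖) := by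
  have hgd : HasDerivAt g (deriv g ζ) ζ :=
    (hg.differentiableAt (isOpen_ball.mem_nhds (mem_ball_self hr))).hasDerivAt
  -- the function t ↦ g (t ζ)
  have hφ : HasDerivAt (fun t : ℝ => g ((t : ℂ) * ζ)) (deriv g ζ * ζ) 1 := by
    have h1 : HasDerivAt (fun t : ℝ => (t : ℂ) * ζ) ζ 1 := by
      have := (Complex.ofRealCLM.hasDerivAt (x := (1:ℝ))).mul_const ζ
      simpa using this
    have h2 : HasDerivAt g (deriv g ζ) ((1:ℝ) * ζ : ℂ) := by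
      simpa using hgd
    exact HasDerivAt.comp_of_eq (1:ℝ) h2 h1 rfl
  have hslope := hasDerivAt_iff_tendsto_slope.1 hφ
  have hslope2 : Tendsto (fun t : ℝ => ‖slope (fun t : ℝ => g ((t : ℂ) * ζ)) 1 t‖) (𝓝[<] 1)
      (𝓝 ‖deriv g ζ‖) := by
    have h1 := (hslope.mono_left (nhdsWithin_mono 1 (fun t (ht : t < 1) => ht.ne))).norm
    rwa [norm_mul, hζ, mul_one] at h1
  have hgc : Tendsto (fun t : ℝ => g ((t : ℂ) * ζ)) (𝓝[<] 1) (𝓝 (g ζ)) := by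
    have := hφ.continuousAt.tendsto
    simp only [Complex.ofReal_one, one_mul] at this
    exact this.mono_left nhdsWithin_le_nhds
  have ht1 : Tendsto (fun t : ℝ => t) (𝓝[<] 1) (𝓝 1) := tendsto_id.mono_left nhdsWithin_le_nhds
  have htζ : Tendsto (fun t : ℝ => (t : ℂ) * ζ) (𝓝[<] 1) (𝓝 ζ) := by
    have h1 : Tendsto (fun t : ℝ => (t : ℂ) * ζ) (𝓝 1) (𝓝 (((1:ℝ):ℂ) * ζ)) := by
      apply Continuous.tendsto; fun_prop
    simp only [Complex.ofReal_one, one_mul] at h1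
    exact h1.mono_left nhdsWithin_le_nhds
  have hL : Tendsto (fun t : ℝ => ‖1 - conj (g ((t : ℂ) * ζ)) * Θ z‖ ^ 2 * (1 - ‖z‖ ^ 2))
      (𝓝[<] 1) (𝓝 (‖1 - conj (g ζ) * Θ z‖ ^ 2 * (1 - ‖z‖ ^ 2))) := by
    apply Tendsto.mul_const
    apply Tendsto.pow
    apply Tendsto.norm
    apply Tendsto.const_sub
    apply Tendsto.mul_const
    exact (Complex.continuous_conj.tendsto _).comp hgc
  have hRt : Tendsto (fun t : ℝ => ‖1 - conj ((t : ℂ) * ζ) * z‖ ^ 2 * ((1 - ‖Θ z‖ ^ 2) *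
      (‖slope (fun t : ℝ => g ((t : ℂ) * ζ)) 1 t‖ * ((1 + ‖g ((t : ℂ) * ζ)‖) / (1 + t)))))
      (𝓝[<] 1) (𝓝 (‖1 - conj ζ * z‖ ^ 2 * ((1 - ‖Θ z‖ ^ 2) * (‖deriv g ζ‖ * ((1 + ‖g ζ‖) / (1 + 1))))))
      := by
    apply Tendsto.mul
    · apply Tendsto.pow
      apply Tendsto.norm
      apply Tendsto.const_sub
      apply Tendsto.mul_const
      exact (Complex.continuous_conj.tendsto _).comp htζ
    · apply Tendsto.const_mul
      apply hslope2.mul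
      exact (hgc.norm.const_add 1).div (ht1.const_add 1) (by norm_num)
  have e1 : ‖deriv g ζ‖ * ((1 + ‖g ζ‖) / (1 + 1)) = ‖deriv g ζ‖ := by
    rw [hg1]; norm_num
  rw [e1] at hRt
  refine le_of_tendsto_of_tendsto hL hRt ?_
  have hball : ∀ᶠ t : ℝ in 𝓝[<] 1, (t : ℂ) * ζ ∈ ball ζ r :=
    htζ (isOpen_ball.mem_nhds (mem_ball_self hr))
  have hpos : ∀ᶠ t : ℝ in 𝓝[<] 1, 0 < t :=
    ht1.eventually_const_lt (by norm_num)
  filter_upwards [hball, hpos, self_mem_nhdsWithin] with t h1 h2 h3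
  have h3' : t < 1 := h3
  have hn : ‖(t : ℂ) * ζ‖ = t := by
    rw [norm_mul, hζ, mul_one, Complex.norm_real, Real.norm_of_nonneg h2.le]
  have hn1 : ‖(t : ℂ) * ζ‖ < 1 := by rw [hn]; exact h3'
  have hgt : g ((t : ℂ) * ζ) = Θ ((t : ℂ) * ζ) := hgΘ ⟨h1, mem_ball_zero_iff.2 hn1⟩
  have hsp := schwarz_pick Θ hd hm z _ hz hn1
  rw [hn, ← hgt] at hsp
  have hden : 0 < 1 - t ^ 2 := by nlinarith
  -- bound (1 - |g|^2) ≤ slope * (1+|g|)/(1+t) * (1 - t^2)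
  have hsl : 1 - ‖g ((t : ℂ) * ζ)‖ ≤ (1 - t) * ‖slope (fun t : ℝ => g ((t : ℂ) * ζ)) 1 t‖ := by
    have h5 : ‖slope (fun t : ℝ => g ((t : ℂ) * ζ)) 1 t‖ = (1 - t)⁻¹ * ‖g ((t : ℂ) * ζ) - g ζ‖ := by
      rw [slope_def_module, norm_smul]
      simp only [Complex.ofReal_one, one_mul]
      congr 1
      rw [norm_inv, Real.norm_eq_abs, abs_sub_comm, abs_of_pos (by linarith)]
    rw [h5, ← mul_assoc, mul_inv_cancel₀ (by linarith : (1 - t) ≠ 0), one_mul]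
    have h6 := norm_sub_norm_le (g ζ) (g ((t : ℂ) * ζ))
    rw [hg1, norm_sub_rev] at h6
    exact h6
  have hgn : ‖g ((t : ℂ) * ζ)‖ < 1 := by rw [hgt]; exact hm _ hn1
  have hsl2 : 1 - ‖g ((t : ℂ) * ζ)‖ ^ 2 ≤
      (‖slope (fun t : ℝ => g ((t : ℂ) * ζ)) 1 t‖ * ((1 + ‖g ((t : ℂ) * ζ)‖) / (1 + t))) *
        (1 - t ^ 2) := by
    have h7 : (‖slope (fun t : ℝ => g ((t : ℂ) * ζ)) 1 t‖ * ((1 + ‖g ((t : ℂ) * ζ)‖) / (1 + t))) *
        (1 - t ^ 2) = ((1 - t) * ‖slope (fun t : ℝ => g ((t : ℂ) * ζ)) 1 t‖) *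
          (1 + ‖g ((t : ℂ) * ζ)‖) := by
      have h10 : (1 + t) ≠ 0 := by linarith
      have h11 : ∀ S A : ℝ, S * (A / (1 + t)) * (1 - t ^ 2) = (1 - t) * S * A := by
        intro S A
        rw [mul_div_assoc', div_mul_eq_mul_div, div_eq_iff h10]
        ring
      exact h11 _ _
    rw [h7]
    have h8 : 0 ≤ ‖g ((t : ℂ) * ζ)‖ := norm_nonneg _
    nlinarith [mul_le_mul_of_nonneg_right hsl (by linarith : 0 ≤ 1 + ‖g ((t : ℂ) * ζ)‖)]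
  have hz2 : 0 ≤ 1 - ‖Θ z‖ ^ 2 := by
    have := hm z hz
    nlinarith [norm_nonneg (Θ z)]
  have h9 : ‖1 - conj (g ((t : ℂ) * ζ)) * Θ z‖ ^ 2 * (1 - ‖z‖ ^ 2) * (1 - t ^ 2) ≤
      (‖1 - conj ((t : ℂ) * ζ) * z‖ ^ 2 * ((1 - ‖Θ z‖ ^ 2) *
      (‖slope (fun t : ℝ => g ((t : ℂ) * ζ)) 1 t‖ * ((1 + ‖g ((t : ℂ) * ζ)‖) / (1 + t))))) *
        (1 - t ^ 2) := by
    calc _ = ‖1 - conj (g ((t : ℂ) * ζ)) * Θ z‖ ^ 2 * ((1 - ‖z‖ ^ 2) * (1 - t ^ 2)) := by ring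
      _ ≤ _ := hsp
      _ ≤ ‖1 - conj ((t : ℂ) * ζ) * z‖ ^ 2 * ((1 - ‖Θ z‖ ^ 2) *
        ((‖slope (fun t : ℝ => g ((t : ℂ) * ζ)) 1 t‖ * ((1 + ‖g ((t : ℂ) * ζ)‖) / (1 + t))) *
        (1 - t ^ 2))) := by
          apply mul_le_mul_of_nonneg_left _ (by positivity)
          exact mul_le_mul_of_nonneg_left hsl2 hz2
      _ = _ := by ring
  exact le_of_mul_le_mul_right h9 hden

end H809R3.T
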