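import Pool.Agent.H809R3.T4
import Pool.Agent.H809R3.T5
import Pool.Agent.H809R3.T6

set_option autoImplicit false
open Complex Metric Set Filter Topology MeasureTheory
open scoped ComplexConjugate

namespace H809R3.T

/-- the truncated modulus -/
noncomputable def Om (ω : ℝ → ℝ) (t : ℝ) : ℝ := ω (min t (1 / 2))

/-- the modulus as used in the statement -/
noncomputable def TT (ω : ℝ → ℝ) (L t : ℝ) : ℝ := if t < 1 then ω t else L

section modulus

variable {ω : ℝ → ℝ} {L : ℝ} (hωm : MonotoneOn ω (Ioo 0 1)) (hω0 : ∀ t ∈ Ioo (0:ℝ) 1, 0 < ω t)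
  (hωa : AntitoneOn (fun t => ω t / t) (Ioo 0 1)) (hωL : Tendsto ω (𝓝[<] 1) (𝓝 L))

include hω0 in
lemma Om_pos {t : ℝ} (ht : 0 < t) : 0 < Om ω t :=
  hω0 _ ⟨lt_min ht (by norm_num), lt_of_le_of_lt (min_le_right _ _) (by norm_num)⟩

include hωm in
lemma Om_mono {s t : ℝ} (hs : 0 < s) (hst : s ≤ t) : Om ω s ≤ Om ω t :=
  hωm ⟨lt_min hs (by norm_num), lt_of_le_of_lt (min_le_right _ _) (by norm_num)⟩
    ⟨lt_min (hs.trans_le hst) (by norm_num), lt_of_le_of_lt (min_le_right _ _) (by norm_num)⟩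
    (min_le_min_right _ hst)

include hωa in
lemma om_anti {s t : ℝ} (hs : 0 < s) (hst : s ≤ t) (ht : t < 1) : ω t * s ≤ ω s * t := by
  have ht0 : 0 < t := hs.trans_le hst
  have h := hωa (show s ∈ Ioo (0:ℝ) 1 from ⟨hs, hst.trans_lt ht⟩)
    (show t ∈ Ioo (0:ℝ) 1 from ⟨ht0, ht⟩) hst
  simp only at h
  rw [div_le_div_iff₀ ht0 hs] at h
  exact h

include hωa hω0 in
lemma Om_anti {s t : ℝ} (hs : 0 < s) (hst : s ≤ t) : Om ω t * s ≤ Om ω s * t := by
  unfold Om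
  rcases le_total t (1 / 2) with h1 | h1
  · rw [min_eq_left h1, min_eq_left (hst.trans h1)]
    exact om_anti hωa hs hst (by linarith)
  · rw [min_eq_right h1]
    rcases le_total s (1 / 2) with h2 | h2
    · rw [min_eq_left h2]
      have h3 := om_anti hωa hs h2 (by norm_num)
      have h4 := hω0 s ⟨hs, by linarith⟩
      nlinarith
    · rw [min_eq_right h2]
      have h4 := hω0 (1 / 2) ⟨by norm_num, by norm_num⟩
      nlinarith

include hωa hω0 in
lemma Om_scale {c t : ℝ} (hc : 1 ≤ c) (ht : 0 < t) : Om ω (c * t) ≤ c * Om ω t := by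
  have h := Om_anti hω0 hωa ht (show t ≤ c * t by nlinarith)
  have : Om ω (c * t) * t ≤ (c * Om ω t) * t := by linarith
  exact le_of_mul_le_mul_right this ht

include hωm hωL in
lemma L_lower : ω (1 / 2) ≤ L := by
  refine ge_of_tendsto hωL ?_
  have h1 : ∀ᶠ t : ℝ in 𝓝[<] 1, 1 / 2 < t :=
    (tendsto_id.mono_left nhdsWithin_le_nhds : Tendsto (fun t : ℝ => t) (𝓝[<] 1) (𝓝 1)).eventually_const_lt
      (by norm_num)
  filter_upwards [h1, self_mem_nhdsWithin] with t h2 h3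
  exact hωm ⟨by norm_num, by norm_num⟩ ⟨by linarith, h3⟩ h2.le

include hωa hω0 in
lemma om_upper {t : ℝ} (h1 : 1 / 2 ≤ t) (h2 : t < 1) : ω t ≤ 2 * ω (1 / 2) := by
  have h := om_anti hωa (by norm_num : (0:ℝ) < 1 / 2) h1 h2
  have h4 := hω0 (1 / 2) ⟨by norm_num, by norm_num⟩
  nlinarith

include hωa hωL hω0 in
lemma L_upper : L ≤ 2 * ω (1 / 2) := by
  refine le_of_tendsto hωL ?_
  have h1 : ∀ᶠ t : ℝ in 𝓝[<] 1, 1 / 2 < t :=
    (tendsto_id.mono_left nhdsWithin_le_nhds : Tendsto (fun t : ℝ => t) (𝓝[<] 1) (𝓝 1)).eventually_const_lt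
      (by norm_num)
  filter_upwards [h1, self_mem_nhdsWithin] with t h2 h3
  exact om_upper hω0 hωa h2.le h3

include hωm hω0 hωa hωL in
lemma TT_bounds {t : ℝ} (ht : 0 < t) : Om ω t ≤ TT ω L t ∧ TT ω L t ≤ 2 * Om ω t := by
  have hl := L_lower hωm hωL
  have hu := L_upper hω0 hωa hωL
  have h4 := hω0 (1 / 2) ⟨by norm_num, by norm_num⟩
  unfold Om TT
  split_ifs with h
  · rcases le_total t (1 / 2) with h1 | h1
    · rw [min_eq_left h1]
      have := hω0 t ⟨ht, h⟩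
      constructor <;> linarith
    · rw [min_eq_right h1]
      exact ⟨hωm ⟨by norm_num, by norm_num⟩ ⟨ht, h⟩ h1, om_upper hω0 hωa h1 h⟩
  · rw [min_eq_right (by linarith)]
    exact ⟨hl, hu⟩

include hωm hω0 hωa hωL in
lemma TD_bounds {D : ℝ} (hD : 0 < D) : Om ω (1 / D) ≤ (if 1 < D then ω (1 / D) else L) ∧
    (if 1 < D then ω (1 / D) else L) ≤ 2 * Om ω (1 / D) := by
  have h := TT_bounds hωm hω0 hωa hωL (show 0 < 1 / D by positivity)
  unfold TT at h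
  have e : (1 / D < 1) ↔ (1 < D) := by
    rw [div_lt_one hD]
  simp only [e] at h
  exact h

include hωm hω0 in
lemma Om_tendsto_aux (hω : Tendsto ω (𝓝[>] 0) (𝓝 0)) {x K : ℝ}
    (h : ∀ s : ℝ, 0 < s → s ≤ 1 → x ≤ K * Om ω s) : x ≤ 0 := by
  have h1 : Tendsto (fun s : ℝ => K * ω s) (𝓝[>] 0) (𝓝 (K * 0)) := hω.const_mul K
  rw [mul_zero] at h1
  refine ge_of_tendsto h1 ?_
  have h2 : ∀ᶠ s : ℝ in 𝓝[>] 0, s < 1 / 2 :=
    (tendsto_id.mono_left nhdsWithin_le_nhds : Tendsto (fun t : ℝ => t) (𝓝[>] 0) (𝓝 0)).eventually_lt_const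
      (by norm_num)
  filter_upwards [h2, self_mem_nhdsWithin] with s h3 h4
  have := h s h4 (by linarith)
  unfold Om at this
  rwa [min_eq_left h3.le] at this

end modulus

/-- the boundary modulus of continuity in terms of the chord -/
lemma chord {f : ℂ → ℂ} {ω : ℝ → ℝ} {L : ℝ} (hωm : MonotoneOn ω (Ioo 0 1))
    (hω0 : ∀ t ∈ Ioo (0:ℝ) 1, 0 < ω t)
    (hωa : AntitoneOn (fun t => ω t / t) (Ioo 0 1)) (hωL : Tendsto ω (𝓝[<] 1) (𝓝 L))
    (hfc : ContinuousOn f (closedBall 0 1))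
    (hmod : ∃ C : ℝ, ∃ δ₀ ∈ Set.Ioo (0:ℝ) 1, ∀ δ ∈ Set.Ioo 0 δ₀, ∀ x h : ℝ, |h| ≤ δ →
          ‖f (Complex.exp (((x + h : ℝ) : ℂ) * Complex.I))
            - f (Complex.exp ((x : ℂ) * Complex.I))‖ ≤ C * ω δ) :
    ∃ C₁ : ℝ, 0 ≤ C₁ ∧ ∀ ζ ζ' : ℂ, ‖ζ‖ = 1 → ‖ζ'‖ = 1 → ζ ≠ ζ' →
      ‖f ζ - f ζ'‖ ≤ C₁ * Om ω ‖ζ - ζ'‖ := by
  obtain ⟨C, δ₀, hδ₀, hC⟩ := hmod
  obtain ⟨M₀, hM₀⟩ := (isCompact_closedBall (0:ℂ) 1).exists_bound_of_continuousOn hfc
  have hM0 : 0 ≤ M₀ := (norm_nonneg _).trans (hM₀ 0 (by simp))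
  have hOm := Om_pos hω0 (show 0 < δ₀ / 2 by have := hδ₀.1; linarith)
  refine ⟨4 * |C| + 2 * M₀ / Om ω (δ₀ / 2), by positivity, ?_⟩
  intro ζ ζ' hζ hζ' hne
  set d := ‖ζ - ζ'‖ with hd
  have hd0 : 0 < d := by rw [hd, norm_pos_iff, sub_ne_zero]; exact hne
  have hOd := Om_pos hω0 hd0
  rcases lt_or_ge (2 * d) δ₀ with h | h
  · have hζ'0 : ζ' ≠ 0 := by rw [← norm_pos_iff, hζ']; norm_num
    have hζ0 : ζ ≠ 0 := by rw [← norm_pos_iff, hζ]; norm_num
    set x := Complex.arg ζ' with hx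
    set a := Complex.arg (ζ / ζ') with ha
    have e1 : Complex.exp ((x : ℂ) * I) = ζ' := by
      have := Complex.norm_mul_exp_arg_mul_I ζ'
      rwa [hζ', Complex.ofReal_one, one_mul] at this
    have hn : ‖ζ / ζ'‖ = 1 := by rw [norm_div, hζ, hζ', div_one]
    have e2 : Complex.exp ((a : ℂ) * I) = ζ / ζ' := by
      have := Complex.norm_mul_exp_arg_mul_I (ζ / ζ')
      rwa [hn, Complex.ofReal_one, one_mul] at this
    have e3 : Complex.exp (((x + a : ℝ) : ℂ) * I) = ζ := by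
      push_cast
      rw [add_mul, Complex.exp_add, e1, e2]
      field_simp
    have hab : |a| ≤ 2 * d := by
      have h1 : ‖Complex.exp (I * a) - 1‖ = d := by
        rw [mul_comm, e2]
        have : ζ / ζ' - 1 = (ζ - ζ') / ζ' := by field_simp
        rw [this, norm_div, hζ', div_one]
      rw [Complex.norm_exp_I_mul_ofReal_sub_one] at h1
      have h2 : |a / 2| ≤ Real.pi / 2 := by
        rw [abs_div, abs_two]
        have := Complex.abs_arg_le_pi (ζ / ζ')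
        linarith
      have h3 := Real.mul_abs_le_abs_sin h2
      rw [norm_mul, Real.norm_eq_abs, Real.norm_eq_abs, abs_two] at h1
      rw [abs_div, abs_two] at h3
      have hpi : Real.pi < 4 := Real.pi_lt_four
      have hpi0 := Real.pi_pos
      have h4 : (1 / 2 : ℝ) ≤ 2 / Real.pi := by
        rw [div_le_div_iff₀ (by norm_num) hpi0]; linarith
      have h5 : (1 / 2 : ℝ) * (|a| / 2) ≤ 2 / Real.pi * (|a| / 2) :=
        mul_le_mul_of_nonneg_right h4 (by positivity)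
      linarith
    have h6 := hC (2 * d) ⟨by linarith, h⟩ x a hab
    rw [e3, e1] at h6
    have h7 : ω (2 * d) = TT ω L (2 * d) := by
      unfold TT; rw [if_pos (h.trans hδ₀.2)]
    have h8 := (TT_bounds hωm hω0 hωa hωL (show 0 < 2 * d by linarith)).2
    have h9 := Om_scale hω0 hωa (show (1:ℝ) ≤ 2 by norm_num) hd0
    have h10 : 0 < ω (2 * d) := hω0 _ ⟨by linarith, h.trans hδ₀.2⟩
    have h11 : C * ω (2 * d) ≤ |C| * ω (2 * d) :=
      mul_le_mul_of_nonneg_right (le_abs_self C) h10.le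
    have h12 : |C| * ω (2 * d) ≤ |C| * (4 * Om ω d) := by
      apply mul_le_mul_of_nonneg_left _ (abs_nonneg C)
      rw [h7]; linarith
    have h13 : 0 ≤ 2 * M₀ / Om ω (δ₀ / 2) * Om ω d := by positivity
    linarith
  · have h1 : ‖f ζ - f ζ'‖ ≤ 2 * M₀ := by
      refine (norm_sub_le _ _).trans ?_
      have a1 := hM₀ ζ (by rw [mem_closedBall_zero_iff, hζ])
      have a2 := hM₀ ζ' (by rw [mem_closedBall_zero_iff, hζ'])
      linarith
    have h2 : Om ω (δ₀ / 2) ≤ Om ω d := Om_mono hωm (by have := hδ₀.1; linarith) (by linarith)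
    have h3 : 2 * M₀ ≤ 2 * M₀ / Om ω (δ₀ / 2) * Om ω d := by
      rw [div_mul_eq_mul_div, le_div_iff₀ hOm]
      exact mul_le_mul_of_nonneg_left h2 (by positivity)
    have h4 : 0 ≤ 4 * |C| * Om ω d := by positivity
    linarith

end H809R3.T
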