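import Pool.Agent.H809R3.T7

set_option autoImplicit false
open Complex Metric Set Filter Topology MeasureTheory
open scoped ComplexConjugate

namespace H809R3.T

/-- (S) implies (E) -/
theorem S_to_E {ω : ℝ → ℝ} {L : ℝ} (hωm : MonotoneOn ω (Ioo 0 1))
    (hω0 : ∀ t ∈ Ioo (0:ℝ) 1, 0 < ω t)
    (hωa : AntitoneOn (fun t => ω t / t) (Ioo 0 1)) (hωL : Tendsto ω (𝓝[<] 1) (𝓝 L))
    {f : ℂ → ℂ} (hfd : DifferentiableOn ℂ f (ball 0 1)) (hfc : ContinuousOn f (closedBall 0 1))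
    (C₁ : ℝ) (hC₁ : 0 ≤ C₁) (hchord : ∀ ζ ζ' : ℂ, ‖ζ‖ = 1 → ‖ζ'‖ = 1 → ζ ≠ ζ' →
      ‖f ζ - f ζ'‖ ≤ C₁ * Om ω ‖ζ - ζ'‖)
    {Θ : ℂ → ℂ} (hΘd : DifferentiableOn ℂ Θ (ball 0 1))
    (hΘ1 : ∀ z ∈ ball (0 : ℂ) 1, ‖Θ z‖ ≤ 1)
    (hrad : ∀ᵐ θ : ℝ, ∃ w : ℂ, ‖w‖ = 1 ∧
      Tendsto (fun r : ℝ => Θ ((r : ℂ) * Complex.exp ((θ : ℂ) * I))) (𝓝[<] 1) (𝓝 w))
    (hnull : volume {θ : ℝ | ¬ ∃ r > (0:ℝ), ∃ g : ℂ → ℂ,
              DifferentiableOn ℂ g (ball (Complex.exp ((θ:ℂ) * I)) r) ∧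
              Set.EqOn g Θ (ball (Complex.exp ((θ:ℂ) * I)) r ∩ ball 0 1)} = 0)
    (C : ℝ) (hS : ∀ ζ : ℂ, ‖ζ‖ = 1 → ∀ r > (0:ℝ), ∀ g : ℂ → ℂ,
            DifferentiableOn ℂ g (ball ζ r) →
            Set.EqOn g Θ (ball ζ r ∩ ball 0 1) →
            ‖f ζ‖ ≤ C * (if 1 < ‖deriv g ζ‖ then ω (1 / ‖deriv g ζ‖) else L)) :
    ∃ ε ∈ Set.Ioo (0:ℝ) 1, ∃ C : ℝ, ∀ z ∈ ball (0:ℂ) 1, ‖Θ z‖ < ε →
            ‖f z‖ ≤ C * (if 1 - ‖z‖ < 1 then ω (1 - ‖z‖) else L) := by
  refine ⟨1 / 2, ⟨by norm_num, by norm_num⟩, 32 * |C| + 4 * C₁, ?_⟩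
  intro z hz hΘz
  have hzn : ‖z‖ < 1 := mem_ball_zero_iff.1 hz
  set h := 1 - ‖z‖ with hh
  have hh0 : 0 < h := by linarith
  have hz0 := norm_nonneg z
  -- strict bound for Θ
  have hm : ∀ w, ‖w‖ < 1 → ‖Θ w‖ < 1 := by
    intro w hw
    by_contra hcon
    push Not at hcon
    have hmax : IsMaxOn (norm ∘ Θ) (ball 0 1) w := by
      intro u hu
      exact (hΘ1 u hu).trans hcon
    have h1 := Complex.norm_eqOn_of_isPreconnected_of_isMaxOn
      (convex_ball (0:ℂ) 1).isPreconnected isOpen_ball hΘd (mem_ball_zero_iff.2 hw) hmax hz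
    simp only [Function.comp, Function.const] at h1
    linarith
  -- choose a regular point
  set α := Complex.arg z with hα
  have hzα : (‖z‖ : ℂ) * Complex.exp (α * I) = z := Complex.norm_mul_exp_arg_mul_I z
  obtain ⟨θ', hθ', hreg⟩ : ∃ θ' : ℝ, |θ' - α| < h ∧ ∃ r > (0:ℝ), ∃ g : ℂ → ℂ,
              DifferentiableOn ℂ g (ball (Complex.exp ((θ':ℂ) * I)) r) ∧
              Set.EqOn g Θ (ball (Complex.exp ((θ':ℂ) * I)) r ∩ ball 0 1) := by
    by_contra hcon
    push Not at hcon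
    have hsub : ball α h ⊆ {θ : ℝ | ¬ ∃ r > (0:ℝ), ∃ g : ℂ → ℂ,
              DifferentiableOn ℂ g (ball (Complex.exp ((θ:ℂ) * I)) r) ∧
              Set.EqOn g Θ (ball (Complex.exp ((θ:ℂ) * I)) r ∩ ball 0 1)} := by
      intro θ hθ
      rw [mem_ball, Real.dist_eq] at hθ
      intro hex
      obtain ⟨r, hr, g, hg1, hg2⟩ := hex
      exact hcon θ hθ r hr g hg1 hg2
    have h1 := measure_mono_null hsub hnull
    rw [Real.volume_ball] at h1
    have h2 : (0:ℝ) < 2 * h := by linarith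
    have h3 := ENNReal.ofReal_pos.2 h2
    rw [h1] at h3
    exact lt_irrefl _ h3
  obtain ⟨r, hr, g, hg, hgΘ⟩ := hreg
  set ζ' := Complex.exp ((θ' : ℂ) * I) with hζ'
  have hζn : ‖ζ'‖ = 1 := Complex.norm_exp_ofReal_mul_I θ'
  have hdist : ‖z - ζ'‖ ≤ 2 * h := by
    have h1 : ‖z - Complex.exp (α * I)‖ = h := by
      have e : z - Complex.exp (α * I) = ((‖z‖ - 1 : ℝ) : ℂ) * Complex.exp (α * I) := by
        push_cast
        rw [sub_mul, one_mul, hzα]
      rw [e, norm_mul, Complex.norm_exp_ofReal_mul_I, mul_one, Complex.norm_real,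
        Real.norm_eq_abs, abs_sub_comm, abs_of_pos (by linarith)]
    have h2 : ‖Complex.exp (α * I) - ζ'‖ ≤ h := by
      have e : Complex.exp (α * I) - ζ' = -(Complex.exp (α * I) * (Complex.exp (I * ((θ' - α : ℝ) : ℂ)) - 1)) := by
        rw [mul_sub, mul_one, ← Complex.exp_add, hζ', neg_sub]
        congr 2
        push_cast; ring
      rw [e, norm_neg, norm_mul, Complex.norm_exp_ofReal_mul_I, one_mul]
      refine Real.norm_exp_I_mul_ofReal_sub_one_le.trans ?_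
      rw [Real.norm_eq_abs]; exact hθ'.le
    have e : z - ζ' = (z - Complex.exp (α * I)) + (Complex.exp (α * I) - ζ') := by ring
    rw [e]
    refine (norm_add_le _ _).trans ?_
    linarith
  have hg1 := unimod Θ hrad θ' r hr g hg hgΘ
  have hj := julia Θ hΘd hm ζ' hζn r hr g hg hgΘ hg1 z hzn
  -- lower bound for the derivative
  set D := ‖deriv g ζ'‖ with hD
  have hDlow : 1 / (16 * h) ≤ D := by
    have h1 : 1 / 2 ≤ ‖1 - conj (g ζ') * Θ z‖ := by
      have h2 := norm_sub_norm_le (1 : ℂ) (conj (g ζ') * Θ z)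
      rw [norm_one, norm_mul, RCLike.norm_conj, hg1, one_mul] at h2
      linarith
    have h2 : ‖1 - conj ζ' * z‖ = ‖z - ζ'‖ := by
      have e : 1 - conj ζ' * z = -(conj ζ' * (z - ζ')) := by
        have e2 : conj ζ' * ζ' = 1 := by
          rw [mul_comm, Complex.mul_conj, Complex.normSq_eq_norm_sq, hζn]; simp
        linear_combination (-1 : ℂ) * e2
      rw [e, norm_neg, norm_mul, RCLike.norm_conj, hζn, one_mul]
    rw [h2] at hj
    have hD0 : 0 ≤ D := norm_nonneg _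
    have h3 : h ≤ 1 - ‖z‖ ^ 2 := by nlinarith
    have h4 : (1 / 4) * h ≤ ‖1 - conj (g ζ') * Θ z‖ ^ 2 * (1 - ‖z‖ ^ 2) := by
      have h5 : 1 / 4 ≤ ‖1 - conj (g ζ') * Θ z‖ ^ 2 := by nlinarith
      exact mul_le_mul h5 h3 hh0.le (by positivity)
    have h6 : ‖z - ζ'‖ ^ 2 * ((1 - ‖Θ z‖ ^ 2) * D) ≤ (2 * h) ^ 2 * (1 * D) := by
      apply mul_le_mul
      · exact pow_le_pow_left₀ (norm_nonneg _) hdist 2
      · apply mul_le_mul_of_nonneg_right _ hD0
        have := sq_nonneg ‖Θ z‖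
        linarith
      · apply mul_nonneg _ hD0
        have := norm_nonneg (Θ z)
        nlinarith
      · positivity
    have h7 : (1 / 4) * h ≤ (4 * h * D) * h := by nlinarith
    have h8 : 1 / 4 ≤ 4 * h * D := le_of_mul_le_mul_right h7 hh0
    rw [div_le_iff₀ (by positivity)]
    linarith
  have hDpos : 0 < D := lt_of_lt_of_le (by positivity) hDlow
  have hf1 := hS ζ' hζn r hr g hg hgΘ
  have hTD := TD_bounds hωm hω0 hωa hωL hDpos
  have hO1 : Om ω (1 / D) ≤ 16 * Om ω h := by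
    have h1 : 1 / D ≤ 16 * h := by
      rw [div_le_iff₀ hDpos]
      rw [div_le_iff₀ (by positivity)] at hDlow
      linarith
    exact (Om_mono hωm (by positivity) h1).trans (Om_scale hω0 hωa (by norm_num) hh0)
  have hOh := Om_pos hω0 hh0
  have hODpos := Om_pos hω0 (show 0 < 1 / D by positivity)
  have hf2 : ‖f ζ'‖ ≤ 32 * |C| * Om ω h := by
    refine hf1.trans ?_
    calc C * (if 1 < ‖deriv g ζ'‖ then ω (1 / ‖deriv g ζ'‖) else L)
        ≤ |C| * (if 1 < ‖deriv g ζ'‖ then ω (1 / ‖deriv g ζ'‖) else L) :=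
          mul_le_mul_of_nonneg_right (le_abs_self C) (hODpos.le.trans hTD.1)
      _ ≤ |C| * (2 * (16 * Om ω h)) := by
          apply mul_le_mul_of_nonneg_left _ (abs_nonneg C)
          exact hTD.2.trans (by linarith)
      _ = _ := by ring
  have hf3 : ‖f z - f ζ'‖ ≤ 4 * C₁ * Om ω h := by
    have h1 := mod_cont f hfd hfc (Om ω) C₁ hC₁ (fun s t hs hst => Om_mono hωm hs hst)
      (fun s t hs hst => Om_anti hω0 hωa hs hst) (fun t ht => Om_pos hω0 ht) hchord z hzn ζ' hζn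
    have hpos : 0 < ‖z - ζ'‖ := by
      rw [norm_pos_iff, sub_ne_zero]
      rintro rfl
      rw [hζn] at hzn; exact lt_irrefl _ hzn
    have h2 : Om ω ‖z - ζ'‖ ≤ 2 * Om ω h :=
      (Om_mono hωm hpos hdist).trans (Om_scale hω0 hωa (by norm_num) hh0)
    calc _ ≤ _ := h1
      _ ≤ 2 * C₁ * (2 * Om ω h) := mul_le_mul_of_nonneg_left h2 (by positivity)
      _ = _ := by ring
  have hf4 : ‖f z‖ ≤ ‖f z - f ζ'‖ + ‖f ζ'‖ := by
    have e : f z = (f z - f ζ') + f ζ' := by ring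
    calc ‖f z‖ = ‖(f z - f ζ') + f ζ'‖ := by rw [← e]
      _ ≤ _ := norm_add_le _ _
  have hT := (TT_bounds hωm hω0 hωa hωL hh0).1
  unfold TT at hT
  calc ‖f z‖ ≤ (32 * |C| + 4 * C₁) * Om ω h := by linarith
    _ ≤ _ := mul_le_mul_of_nonneg_left hT (by positivity)

/-- (E) implies (S) -/
theorem E_to_S {ω : ℝ → ℝ} {L : ℝ} (hωm : MonotoneOn ω (Ioo 0 1))
    (hω0 : ∀ t ∈ Ioo (0:ℝ) 1, 0 < ω t) (hωt : Tendsto ω (𝓝[>] 0) (𝓝 0))
    (hωa : AntitoneOn (fun t => ω t / t) (Ioo 0 1)) (hωL : Tendsto ω (𝓝[<] 1) (𝓝 L))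
    {f : ℂ → ℂ} (hfd : DifferentiableOn ℂ f (ball 0 1)) (hfc : ContinuousOn f (closedBall 0 1))
    (hne : ∃ z ∈ ball (0 : ℂ) 1, f z ≠ 0)
    (C₁ : ℝ) (hC₁ : 0 ≤ C₁) (hchord : ∀ ζ ζ' : ℂ, ‖ζ‖ = 1 → ‖ζ'‖ = 1 → ζ ≠ ζ' →
      ‖f ζ - f ζ'‖ ≤ C₁ * Om ω ‖ζ - ζ'‖)
    {Θ : ℂ → ℂ} (hΘd : DifferentiableOn ℂ Θ (ball 0 1))
    (hΘ1 : ∀ z ∈ ball (0 : ℂ) 1, ‖Θ z‖ ≤ 1)
    (hrad : ∀ᵐ θ : ℝ, ∃ w : ℂ, ‖w‖ = 1 ∧
      Tendsto (fun r : ℝ => Θ ((r : ℂ) * Complex.exp ((θ : ℂ) * I))) (𝓝[<] 1) (𝓝 w))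
    (ε : ℝ) (hε : ε ∈ Ioo (0:ℝ) 1) (C : ℝ)
    (hE : ∀ z ∈ ball (0:ℂ) 1, ‖Θ z‖ < ε →
            ‖f z‖ ≤ C * (if 1 - ‖z‖ < 1 then ω (1 - ‖z‖) else L)) :
    volume {θ : ℝ | ¬ ∃ r > (0:ℝ), ∃ g : ℂ → ℂ,
              DifferentiableOn ℂ g (ball (Complex.exp ((θ:ℂ) * I)) r) ∧
              Set.EqOn g Θ (ball (Complex.exp ((θ:ℂ) * I)) r ∩ ball 0 1)} = 0 ∧
          ∃ C : ℝ, ∀ ζ : ℂ, ‖ζ‖ = 1 → ∀ r > (0:ℝ), ∀ g : ℂ → ℂ,
            DifferentiableOn ℂ g (ball ζ r) →
            Set.EqOn g Θ (ball ζ r ∩ ball 0 1) →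
            ‖f ζ‖ ≤ C * (if 1 < ‖deriv g ζ‖ then ω (1 / ‖deriv g ζ‖) else L) := by
  obtain ⟨hε0, hε1⟩ := hε
  set C₂ := 2 * |C| + 2 * C₁ with hC₂
  have hC₂0 : 0 ≤ C₂ := by positivity
  -- alternative
  have alt : ∀ (θ₀ s : ℝ), 0 < s → s ≤ 1 →
      (‖f (Complex.exp (θ₀ * I))‖ ≤ C₂ * Om ω s) ∨
      ∃ g : ℂ → ℂ, DifferentiableOn ℂ g (ball (Complex.exp (θ₀ * I)) (s / 16)) ∧
      (∀ z ∈ ball (Complex.exp (θ₀ * I)) (s / 16), ‖g z‖ ≤ 1 / ε) ∧
      EqOn g Θ (ball (Complex.exp (θ₀ * I)) (s / 16) ∩ ball 0 1) := by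
    intro θ₀ s hs hs1
    by_cases hex : ∃ z ∈ ball (0:ℂ) 1, ‖z - Complex.exp (θ₀ * I)‖ < s ∧ ‖Θ z‖ < ε
    · left
      obtain ⟨z, hz, hzs, hΘz⟩ := hex
      have hzn : ‖z‖ < 1 := mem_ball_zero_iff.1 hz
      have hh0 : 0 < 1 - ‖z‖ := by linarith
      have hζn : ‖Complex.exp (θ₀ * I)‖ = 1 := Complex.norm_exp_ofReal_mul_I θ₀
      have h1 := hE z hz hΘz
      have hT := TT_bounds hωm hω0 hωa hωL hh0
      unfold TT at hT
      have h2 := mod_cont f hfd hfc (Om ω) C₁ hC₁ (fun s t hs hst => Om_mono hωm hs hst)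
        (fun s t hs hst => Om_anti hω0 hωa hs hst) (fun t ht => Om_pos hω0 ht) hchord z hzn _ hζn
      have hd : 1 - ‖z‖ ≤ ‖z - Complex.exp (θ₀ * I)‖ := by
        have := norm_sub_norm_le (Complex.exp (θ₀ * I)) z
        rw [hζn, norm_sub_rev] at this
        exact this
      have hO1 : Om ω (1 - ‖z‖) ≤ Om ω s := Om_mono hωm hh0 (hd.trans hzs.le)
      have hO2 : Om ω ‖z - Complex.exp (θ₀ * I)‖ ≤ Om ω s :=
        Om_mono hωm (hh0.trans_le hd) hzs.le
      have hOp := Om_pos hω0 hh0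
      have h3 : ‖f z‖ ≤ 2 * |C| * Om ω s := by
        refine h1.trans ?_
        calc C * (if 1 - ‖z‖ < 1 then ω (1 - ‖z‖) else L)
            ≤ |C| * (if 1 - ‖z‖ < 1 then ω (1 - ‖z‖) else L) :=
              mul_le_mul_of_nonneg_right (le_abs_self C) (hOp.le.trans hT.1)
          _ ≤ |C| * (2 * Om ω s) := by
              apply mul_le_mul_of_nonneg_left _ (abs_nonneg C)
              exact hT.2.trans (by linarith)
          _ = _ := by ring
      have h4 : ‖f (Complex.exp (θ₀ * I))‖ ≤ ‖f z - f (Complex.exp (θ₀ * I))‖ + ‖f z‖ := by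
        have e : f (Complex.exp (θ₀ * I)) = f z - (f z - f (Complex.exp (θ₀ * I))) := by ring
        calc ‖f (Complex.exp (θ₀ * I))‖ = ‖f z - (f z - f (Complex.exp (θ₀ * I)))‖ := by rw [← e]
          _ ≤ _ := by rw [add_comm]; exact norm_sub_le _ _
      have h5 : 2 * C₁ * Om ω ‖z - Complex.exp (θ₀ * I)‖ ≤ 2 * C₁ * Om ω s :=
        mul_le_mul_of_nonneg_left hO2 (by positivity)
      rw [hC₂]
      linarith
    · right
      push Not at hex
      exact ext_disc Θ hΘd hΘ1 hrad θ₀ s ε hs hs1 hε0 hε1 hex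
  constructor
  · apply measure_mono_null _ (null_zero f hfd hfc hne)
    intro θ hθ
    have h1 : ∀ s : ℝ, 0 < s → s ≤ 1 → ‖f (Complex.exp (θ * I))‖ ≤ C₂ * Om ω s := by
      intro s hs hs1
      rcases alt θ s hs hs1 with h | ⟨g, hg1, hg2, hg3⟩
      · exact h
      · exact absurd ⟨s / 16, by positivity, g, hg1, hg3⟩ hθ
    have h2 := Om_tendsto_aux hωm hω0 hωt h1
    exact norm_le_zero_iff.1 h2
  · obtain ⟨M₀, hM₀⟩ := (isCompact_closedBall (0:ℂ) 1).exists_bound_of_continuousOn hfc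
    have hM0 : 0 ≤ M₀ := (norm_nonneg _).trans (hM₀ 0 (by simp))
    set N := 64 / ε with hN
    have hN1 : 1 ≤ N := by
      rw [hN, le_div_iff₀ hε0]; linarith
    have hN0 : 0 < N := by linarith
    have hON := Om_pos hω0 (show 0 < 1 / N by positivity)
    refine ⟨M₀ / Om ω (1 / N) + C₂ * N, ?_⟩
    intro ζ hζ r hr g hg hgΘ
    set D := ‖deriv g ζ‖ with hD
    have hD0 : 0 ≤ D := norm_nonneg _
    have hfM : ‖f ζ‖ ≤ M₀ := hM₀ ζ (by rw [mem_closedBall_zero_iff, hζ])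
    rcases le_or_gt D N with hDN | hDN
    · -- trivial range
      have hlow : Om ω (1 / N) ≤ (if 1 < D then ω (1 / D) else L) := by
        rcases hD0.eq_or_lt with h0 | h0
        · rw [← h0, if_neg (by norm_num)]
          have h1 : Om ω (1 / N) ≤ Om ω 1 := Om_mono hωm (by positivity) (by
            rw [div_le_one hN0]; exact hN1)
          have h2 : Om ω 1 = ω (1 / 2) := by
            unfold Om; rw [min_eq_right (by norm_num)]
          rw [h2] at h1
          exact h1.trans (L_lower hωm hωL)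
        · refine le_trans ?_ (TD_bounds hωm hω0 hωa hωL h0).1
          apply Om_mono hωm (by positivity)
          exact one_div_le_one_div_of_le h0 hDN
      have h1 : M₀ ≤ M₀ / Om ω (1 / N) * (if 1 < D then ω (1 / D) else L) := by
        rw [div_mul_eq_mul_div, le_div_iff₀ hON]
        exact mul_le_mul_of_nonneg_left hlow hM0
      have h2 : 0 ≤ C₂ * N * (if 1 < D then ω (1 / D) else L) :=
        mul_nonneg (by positivity) (hON.le.trans hlow)
      rw [add_mul]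
      linarith
    · have hDpos : 0 < D := hN0.trans hDN
      set s := N / D with hs
      have hs0 : 0 < s := by positivity
      have hs1 : s ≤ 1 := by rw [hs, div_le_one hDpos]; exact hDN.le
      obtain ⟨θ₀, hθ₀⟩ : ∃ θ₀ : ℝ, Complex.exp (θ₀ * I) = ζ := by
        refine ⟨Complex.arg ζ, ?_⟩
        have := Complex.norm_mul_exp_arg_mul_I ζ
        rwa [hζ, Complex.ofReal_one, one_mul] at this
      have halt := alt θ₀ s hs0 hs1
      rw [hθ₀] at halt
      have hTD := TD_bounds hωm hω0 hωa hωL hDpos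
      have hOD := Om_pos hω0 (show 0 < 1 / D by positivity)
      rcases halt with h | ⟨g', hg'1, hg'2, hg'3⟩
      · have h1 : Om ω s ≤ N * Om ω (1 / D) := by
          have := Om_scale hω0 hωa hN1 (show 0 < 1 / D by positivity)
          rwa [mul_one_div] at this
        have h2 : C₂ * Om ω s ≤ C₂ * N * (if 1 < D then ω (1 / D) else L) := by
          rw [mul_assoc]
          apply mul_le_mul_of_nonneg_left _ hC₂0
          exact h1.trans (mul_le_mul_of_nonneg_left hTD.1 hN0.le)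
        have h3 : 0 ≤ M₀ / Om ω (1 / N) * (if 1 < D then ω (1 / D) else L) :=
          mul_nonneg (by positivity) (hOD.le.trans hTD.1)
        rw [add_mul]
        linarith
      · exfalso
        -- the two continuations agree
        set R := min r (s / 16) with hR
        have hR0 : 0 < R := lt_min hr (by positivity)
        have hga : AnalyticOnNhd ℂ g (ball ζ R) :=
          (hg.mono (ball_subset_ball (min_le_left _ _))).analyticOnNhd isOpen_ball
        have hg'a : AnalyticOnNhd ℂ g' (ball ζ R) :=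
          (hg'1.mono (ball_subset_ball (min_le_right _ _))).analyticOnNhd isOpen_ball
        -- a point inside
        set t := 1 - min (R / 2) (1 / 2) with ht
        have htm1 : 0 < min (R / 2) (1 / 2) := lt_min (by positivity) (by norm_num)
        have htm2 : min (R / 2) (1 / 2) ≤ R / 2 := min_le_left _ _
        have htm3 : min (R / 2) (1 / 2) ≤ 1 / 2 := min_le_right _ _
        have hu1 : (t : ℂ) * ζ ∈ ball ζ R := by
          rw [mem_ball, dist_eq_norm]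
          have e : (t : ℂ) * ζ - ζ = ((t - 1 : ℝ) : ℂ) * ζ := by push_cast; ring
          rw [e, norm_mul, hζ, mul_one, Complex.norm_real, Real.norm_eq_abs, abs_sub_comm,
            abs_of_pos (by linarith)]
          linarith
        have hu2 : (t : ℂ) * ζ ∈ ball (0:ℂ) 1 := by
          rw [mem_ball_zero_iff, norm_mul, hζ, mul_one, Complex.norm_real,
            Real.norm_of_nonneg (by linarith)]
          linarith
        have hev : g =ᶠ[𝓝 ((t : ℂ) * ζ)] g' := by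
          filter_upwards [isOpen_ball.mem_nhds hu1, isOpen_ball.mem_nhds hu2] with u h1 h2
          rw [hgΘ ⟨ball_subset_ball (min_le_left _ _) h1, h2⟩,
            hg'3 ⟨ball_subset_ball (min_le_right _ _) h1, h2⟩]
        have heq := hga.eqOn_of_preconnected_of_eventuallyEq hg'a
          (convex_ball ζ R).isPreconnected hu1 hev
        have hderiv : deriv g ζ = deriv g' ζ := by
          apply Filter.EventuallyEq.deriv_eq
          exact heq.eventuallyEq_of_mem (isOpen_ball.mem_nhds (mem_ball_self hR0))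
        have hcau : ‖deriv g' ζ‖ ≤ (1 / ε) / (s / 32) := by
          apply Complex.norm_deriv_le_of_forall_mem_sphere_norm_le (by positivity)
          · apply DifferentiableOn.diffContOnCl
            rw [closure_ball ζ (by positivity)]
            exact hg'1.mono (closedBall_subset_ball (by linarith))
          · intro u hu
            apply hg'2
            rw [mem_sphere] at hu
            rw [mem_ball, hu]
            linarith
        rw [← hderiv, ← hD] at hcau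
        have e : (1 / ε) / (s / 32) = D / 2 := by
          rw [hs, hN]
          field_simp
          norm_num
        rw [e] at hcau
        linarith

end H809R3.T
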